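import Pool.Agent.Lib.MP_4e5fcd_ag.K2

/-!
# KUM: the motivic monodromy conjecture for products of diagonal forms and a monomial

`f = ∏ x_j ^ (b_j) * ∏_κ (∑_j a_κj x_j ^ (d_j)) ^ (m_κ)`.

All auxiliary definitions of the proof.
-/

open MvPolynomial

namespace MotMono.Kum

/-- the polynomial `∏ x_j ^ (b_j) * ∏_κ (∑_j a_κj x_j ^ (d_j)) ^ (m_κ)` -/
noncomputable def diagPoly {N : ℕ} {J : Type} [Fintype J] (a : J → Fin N → ℂ) (m : J → ℕ)
    (d b : Fin N → ℕ) : MvPolynomial (Fin N) ℂ :=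
  (∏ j, X j ^ b j) * ∏ κ, (∑ j, C (a κ j) * X j ^ d j) ^ m κ

/-- the data -/
structure Data (N : ℕ) (J : Type) where
  /-- the coefficient vectors -/
  a : J → Fin N → ℂ
  /-- the multiplicities of the diagonal forms -/
  m : J → ℕ
  /-- the exponents of the diagonal forms -/
  d : Fin N → ℕ
  /-- the exponents of the monomial -/
  b : Fin N → ℕ
  ha : ∀ κ, a κ ≠ 0
  hm : ∀ κ, 0 < m κ
  hd : ∀ j, 0 < d j

variable {N : ℕ} {J : Type} [Fintype J] [DecidableEq J] (D : Data N J)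

/-- the polynomial -/
noncomputable def Data.f : MvPolynomial (Fin N) ℂ := diagPoly D.a D.m D.d D.b

/-- the linear forms: `a κ` and the coordinates -/
noncomputable def Data.lam (i : J ⊕ Fin N) : Fin N → ℂ :=
  Sum.elim D.a (fun j => Pi.single j 1) i

/-- the relevant indices: all `κ`, and the coordinates with `d_j ≥ 2` or `b_j ≥ 1` -/
def Data.act : Finset (J ⊕ Fin N) :=
  Finset.univ.filter fun i => ∀ j, i = Sum.inr j → 2 ≤ D.d j ∨ 1 ≤ D.b j

/-- the rank function of the linear forms -/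
noncomputable def Data.r (R : Finset (J ⊕ Fin N)) : ℕ := rk ⊤ D.lam R

/-- flats -/
def Data.Cl (R : Finset (J ⊕ Fin N)) : Prop :=
  R ⊆ D.act ∧ ∀ i ∈ D.act, D.r (insert i R) = D.r R → i ∈ R

/-- connected sets -/
def Data.Conn (R : Finset (J ⊕ Fin N)) : Prop :=
  R.Nonempty ∧ ∀ A B : Finset (J ⊕ Fin N), A.Nonempty → B.Nonempty → Disjoint A B → A ∪ B = R →
    D.r R < D.r A + D.r B

/-- a common multiple of the `d_j` -/
def Data.M : ℕ := ∏ j, D.d j

/-- `-l mod d_j` -/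
def Data.rr (l : ℕ) (j : Fin N) : ℕ := (D.d j - l % D.d j) % D.d j

/-- The series `y_j`: `t ^ (-l mod d_j) x_j ^ (d_j)` if the coordinate `j` is in `R`, and `x_j`
otherwise. -/
noncomputable def Data.yy (R : Finset (J ⊕ Fin N)) (l : ℕ) {n : ℕ} (x : Fin N × Fin n → ℂ)
    (j : Fin N) : Polynomial ℂ :=
  if Sum.inr j ∈ R then Polynomial.X ^ D.rr l j * arc x j ^ D.d j else arc x j

/-- the product of the factors with index in `R` along a jet, in the state `(R, l)` -/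
noncomputable def Data.FF (R : Finset (J ⊕ Fin N)) (l : ℕ) {n : ℕ} (x : Fin N × Fin n → ℂ) :
    Polynomial ℂ :=
  (∏ j, if Sum.inr j ∈ R then arc x j ^ D.b j else 1) *
    ∏ κ, if Sum.inl κ ∈ R then (∑ j, Polynomial.C (D.a κ j) * D.yy R l x j) ^ D.m κ else 1

/-- the jets with order exactly `k` and leading coefficient in `A` -/
def Data.oset (R : Finset (J ⊕ Fin N)) (l n k : ℕ) (A : Set ℂ) : Set (Fin N × Fin n → ℂ) :=
  {x | (∀ i < k, (D.FF R l x).coeff i = 0) ∧ (D.FF R l x).coeff k ∈ A}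

/-- the constant terms of the series `y_j` -/
noncomputable def Data.yv (R : Finset (J ⊕ Fin N)) (l : ℕ) (v : Fin N → ℂ) (j : Fin N) : ℂ :=
  if Sum.inr j ∈ R then (if D.d j ∣ l then v j ^ D.d j else 0) else v j

/-- the vectors `v` for which exactly the factors in `R'`, among those in `R`, vanish -/
def Data.gset (R R' : Finset (J ⊕ Fin N)) (l : ℕ) : Set (Fin N → ℂ) :=
  {v | ∀ i ∈ R, (i ∈ R' ↔ D.lam i ⬝ᵥ D.yv R l v = 0)}

/-- the order which splits off in the step from level `l` to level `l + 1` -/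
def Data.wt (R : Finset (J ⊕ Fin N)) (l : ℕ) : ℕ :=
  (∑ κ, if Sum.inl κ ∈ R then D.m κ else 0) +
    ∑ j, if Sum.inr j ∈ R ∧ D.d j ∣ l then D.b j else 0

/-- the constant term of the unit which splits off -/
noncomputable def Data.u0 (R R' : Finset (J ⊕ Fin N)) (l : ℕ) (v : Fin N → ℂ) : ℂ :=
  (∏ j, if Sum.inr j ∈ R \ R' then v j ^ D.b j else 1) *
    ∏ κ, if Sum.inl κ ∈ R \ R' then (D.a κ ⬝ᵥ D.yv R l v) ^ D.m κ else 1

/-- the total order in `M` steps -/
def Data.Nn (R : Finset (J ⊕ Fin N)) : ℕ :=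
  D.M * (∑ κ, if Sum.inl κ ∈ R then D.m κ else 0) +
    ∑ j, if Sum.inr j ∈ R then D.b j * (D.M / D.d j) else 0

/-- the total codimension in `M` steps -/
noncomputable def Data.nu (R : Finset (J ⊕ Fin N)) : ℤ :=
  (D.M : ℤ) * D.r R - ∑ j, if Sum.inr j ∈ R then ((D.M : ℤ) - D.M / D.d j) else 0

/-- the exponent of the class of `gset R R l` -/
noncomputable def Data.cod (R : Finset (J ⊕ Fin N)) (l : ℕ) : ℤ :=
  (D.r R : ℤ) - ∑ j, if Sum.inr j ∈ R ∧ ¬ D.d j ∣ l then 1 else 0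

/-- normalised class of `gset` -/
noncomputable def Data.gh (R R' : Finset (J ⊕ Fin N)) (l : ℕ) : MC :=
  algebraMap K0 MC (cls (D.gset R R' l)) * ((Lu ^ (-(N : ℤ)) : MCˣ) : MC)

/-- the generating function of the state `(R, l)` -/
noncomputable def Data.Psi (R : Finset (J ⊕ Fin N)) (l : ℕ) : PowerSeries MC :=
  PowerSeries.mk fun k =>
    algebraMap K0 MC (cls (D.oset R l (k + 1) k {0}ᶜ)) * ((Lu ^ (-(N * (k + 1) : ℤ)) : MCˣ) : MC)

/-- the vector split off in the step from level `l` to level `l + 1` -/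
def Data.stepV (R : Finset (J ⊕ Fin N)) (l : ℕ) {n : ℕ} (x : Fin N × Fin (n + 1) → ℂ)
    (j : Fin N) : ℂ :=
  if Sum.inr j ∈ R ∧ ¬ D.d j ∣ l then x (j, Fin.last n) else x (j, 0)

/-- the jet which remains after the step from level `l` to level `l + 1` -/
noncomputable def Data.stepX (R R' : Finset (J ⊕ Fin N)) (l : ℕ) {n : ℕ}
    (x : Fin N × Fin (n + 1) → ℂ) (q : Fin N × Fin n) : ℂ :=
  if Sum.inr q.1 ∈ R ∧ ¬ D.d q.1 ∣ l then x (q.1, q.2.castSucc)
  else if Sum.inr q.1 ∈ R ∧ Sum.inr q.1 ∉ R' then (arc x q.1 ^ D.d q.1).coeff (q.2 + 1)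
  else x (q.1, q.2.succ)

/-- the pairs (vector, remaining jet) -/
def Data.tset (R R' : Finset (J ⊕ Fin N)) (l n k : ℕ) (A : Set ℂ) :
    Set (Fin N ⊕ Fin N × Fin n → ℂ) :=
  {z | (fun j => z (Sum.inl j)) ∈ D.gset R R' l ∧ (fun q => z (Sum.inr q)) ∈
    D.oset R' (l + 1) n k {c | D.u0 R R' l (fun j => z (Sum.inl j)) * c ∈ A}}

/-- a set of values with constructible preimages -/
def CV (A : Set ℂ) : Prop := ∀ (σ : Type) (P : MvPolynomial σ ℂ), Constr {x : σ → ℂ | eval x P ∈ A}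

/-- the value at a vector of the product of the factors in `R` -/
noncomputable def Data.Fv (R : Finset (J ⊕ Fin N)) (l : ℕ) (v : Fin N → ℂ) : ℂ :=
  (∏ j, if Sum.inr j ∈ R then v j ^ D.b j else 1) *
    ∏ κ, if Sum.inl κ ∈ R then (D.a κ ⬝ᵥ D.yv R l v) ^ D.m κ else 1

/-- the coordinates in `R` -/
def ZR (R : Finset (J ⊕ Fin N)) : Finset (Fin N) :=
  Finset.univ.filter fun j => Sum.inr j ∈ R

/-- the coordinates in `R` with `b_j ≥ 1` -/
def Data.Zb (R : Finset (J ⊕ Fin N)) : Finset (Fin N) :=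
  Finset.univ.filter fun j => Sum.inr j ∈ R ∧ 1 ≤ D.b j

/-- the indices `κ` in `R`, and the coordinates in `K` -/
def SK (R : Finset (J ⊕ Fin N)) (K : Finset (Fin N)) : Finset (J ⊕ Fin N) :=
  Finset.univ.filter fun i => (∃ κ, i = Sum.inl κ ∧ i ∈ R) ∨ ∃ j, i = Sum.inr j ∧ j ∈ K

/-- The vectors with `lam i₁ = 1`, no `κ ∈ R` vanishing, and vanishing coordinates, among those in
`R`, exactly outside `K`. -/
def Data.hset (R : Finset (J ⊕ Fin N)) (i₁ : J ⊕ Fin N) (K : Finset (Fin N)) :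
    Set (Fin N → ℂ) :=
  {y | D.lam i₁ ⬝ᵥ y = 1 ∧ (∀ κ, Sum.inl κ ∈ R → D.a κ ⬝ᵥ y ≠ 0) ∧
    ∀ j, Sum.inr j ∈ R → (j ∈ K ↔ y j ≠ 0)}

/-- the least common multiple of the `d_j`, `j ∈ K` -/
def Data.MK (K : Finset (Fin N)) : ℕ := K.lcm D.d

/-- the order belonging to `K` -/
def Data.nK (R : Finset (J ⊕ Fin N)) (K : Finset (Fin N)) : ℕ :=
  (∑ κ, if Sum.inl κ ∈ R then D.m κ else 0) * D.MK K +
    ∑ j, if Sum.inr j ∈ R then D.b j * (D.MK K / D.d j) else 0

/-- the characters: tuples `k` with `k_j < d_j`, `k_j = 0` outside `K`, and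
`∑ k_j / d_j ≡ x mod 1` -/
noncomputable def Data.chars (K : Finset (Fin N)) (x : ℚ) : Finset (Fin N → ℕ) := by
  classical
  exact (Fintype.piFinset fun j => if j ∈ K then Finset.range (D.d j) else {0}).filter
    fun k => ∃ z : ℤ, ∑ j, (k j : ℚ) / D.d j - x = z

/-- the support -/
def supp (k : Fin N → ℕ) : Finset (Fin N) := Finset.univ.filter fun j => k j ≠ 0

end MotMono.Kum
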