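import Pool.Agent.Lib.MP_4e5fcd_ag.Kum.Base
import Pool.Agent.Lib.MP_4e5fcd_ag.A1

/-! # KUM-E1: points of the normal cone and contact arcs of a principal ideal -/

open MvPolynomial

namespace MotMono.Kum

variable {N : ℕ} {J : Type} [Fintype J] [DecidableEq J] (D : Data N J)

open Classical in
/-- the point of the cone of a principal ideal -/
noncomputable def e1_phi (f : MvPolynomial (Fin N) ℂ) (p : Fin N → ℂ) (c : ℂ) (k : ℕ)
    (g : MvPolynomial (Fin N) ℂ) : ℂ :=
  if h : f ^ k ∣ g then eval p h.choose * c ^ k else 0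

theorem e1_phi_eq (f : MvPolynomial (Fin N) ℂ) (hf : f ≠ 0) (p : Fin N → ℂ) (c : ℂ) (k : ℕ)
    (h : MvPolynomial (Fin N) ℂ) : e1_phi f p c k (f ^ k * h) = eval p h * c ^ k := by
  have hd : f ^ k ∣ f ^ k * h := Dvd.intro _ rfl
  rw [e1_phi, dif_pos hd]
  have h1 : hd.choose = h := mul_left_cancel₀ (pow_ne_zero k hf) hd.choose_spec.symm
  rw [h1]

theorem e1_mem_pow (f : MvPolynomial (Fin N) ℂ) (k : ℕ) (g : MvPolynomial (Fin N) ℂ)
    (hg : g ∈ (Ideal.span {f} : Ideal (MvPolynomial (Fin N) ℂ)) ^ k) : ∃ h, g = f ^ k * h := by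
  rw [Ideal.span_singleton_pow, Ideal.mem_span_singleton] at hg
  exact hg

theorem exists_cone (f : MvPolynomial (Fin N) ℂ) (hf : f ≠ 0) (p : Fin N → ℂ) (c : ℂ) :
    ∃ y : ConePoint (Ideal.span {f}) p, ∀ h, y.φ 1 (h * f) = eval p h * c := by
  refine ⟨⟨e1_phi f p c, ?_, ?_, ?_⟩, ?_⟩
  · intro g
    have h := e1_phi_eq f hf p c 0 g
    simpa using h
  · intro k a ha b hb
    obtain ⟨a', rfl⟩ := e1_mem_pow f k a ha
    obtain ⟨b', rfl⟩ := e1_mem_pow f k b hb
    rw [← mul_add, e1_phi_eq f hf, e1_phi_eq f hf, e1_phi_eq f hf, map_add, add_mul]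
  · intro k l a ha b hb
    obtain ⟨a', rfl⟩ := e1_mem_pow f k a ha
    obtain ⟨b', rfl⟩ := e1_mem_pow f l b hb
    have h1 : f ^ k * a' * (f ^ l * b') = f ^ (k + l) * (a' * b') := by ring
    rw [h1, e1_phi_eq f hf, e1_phi_eq f hf, e1_phi_eq f hf, map_mul]
    ring
  · intro h
    have h1 := e1_phi_eq f hf p c 1 h
    rw [pow_one, pow_one, mul_comm f h] at h1
    exact h1

theorem contactArcs_eq (f : MvPolynomial (Fin N) ℂ) (p : Fin N → ℂ) (c : ℂ)
    (y : ConePoint (Ideal.span {f}) p) (hy : ∀ h, y.φ 1 (h * f) = eval p h * c) (dd : ℕ) :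
    contactArcs (Ideal.span {f}) p y dd = {γ | (∀ j, γ (j, 0) = p j) ∧
      (∀ i < dd, (along f γ).coeff i = 0) ∧ (along f γ).coeff dd ∈ ({c} : Set ℂ)} := by
  ext γ
  constructor
  · rintro ⟨h0, h1⟩
    obtain ⟨h2, h3⟩ := h1 f (Ideal.mem_span_singleton_self f)
    refine ⟨h0, h2, ?_⟩
    have h4 := hy 1
    rw [one_mul, map_one, one_mul] at h4
    rw [Set.mem_singleton_iff, h3, h4]
  · rintro ⟨h0, h1, h2⟩
    refine ⟨h0, ?_⟩
    intro g hg
    obtain ⟨h, rfl⟩ := Ideal.mem_span_singleton.1 hg
    have e1 : along (f * h) γ = along f γ * along h γ := by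
      simp only [along, map_mul]
    have hev : (along h γ).coeff 0 = eval p h := by
      have e2 : ∀ g : MvPolynomial (Fin N) ℂ, (along g γ).coeff 0 =
          eval (fun j => (arc γ j).coeff 0) g := by
        intro g
        have e3 : (Polynomial.constantCoeff.comp (aeval (arc γ)).toRingHom : MvPolynomial (Fin N) ℂ →+* ℂ) =
            eval (fun j => (arc γ j).coeff 0) := by
          apply MvPolynomial.ringHom_ext
          · intro a
            simp
          · intro i
            simp
        have e4 := congrArg (fun F : MvPolynomial (Fin N) ℂ →+* ℂ => F g) e3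
        exact e4
      rw [e2]
      have e5 : (fun j => (arc γ j).coeff 0) = p := by
        funext j
        rw [a1_arc_coeff, dif_pos (Nat.succ_pos dd)]
        exact h0 j
      rw [e5]
    constructor
    · intro i hi
      rw [e1, Polynomial.coeff_mul]
      refine Finset.sum_eq_zero fun q hq => ?_
      have h4 := Finset.HasAntidiagonal.mem_antidiagonal.1 hq
      rw [h1 q.1 (by omega), zero_mul]
    · rw [e1, Polynomial.coeff_mul, Finset.sum_eq_single (dd, 0)]
      · rw [Set.mem_singleton_iff] at h2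
        simp only []
        rw [h2, hev, mul_comm f h, hy, mul_comm]
      · intro q hq hne
        have h3 : q.1 < dd := by
          have h4 := Finset.HasAntidiagonal.mem_antidiagonal.1 hq
          rcases Nat.lt_or_ge q.1 dd with h5 | h5
          · exact h5
          · exfalso
            apply hne
            ext
            · simp; omega
            · simp; omega
        rw [h1 q.1 h3, zero_mul]
      · intro h
        exact absurd (Finset.HasAntidiagonal.mem_antidiagonal.2 (Nat.add_zero dd)) h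

theorem f_ne_zero : D.f ≠ 0 := by
  unfold Data.f diagPoly
  refine mul_ne_zero ?_ ?_
  · exact Finset.prod_ne_zero_iff.2 fun j _ => pow_ne_zero _ (X_ne_zero j)
  · refine Finset.prod_ne_zero_iff.2 fun κ _ => pow_ne_zero _ ?_
    obtain ⟨j₀, hj₀⟩ : ∃ j, D.a κ j ≠ 0 := by
      by_contra hc
      push Not at hc
      exact D.ha κ (funext hc)
    intro h0
    apply hj₀
    have h1 := congrArg (coeff (Finsupp.single j₀ (D.d j₀))) h0
    rw [coeff_sum, coeff_zero, Finset.sum_eq_single j₀] at h1
    · rw [coeff_C_mul, coeff_X_pow, if_pos rfl, mul_one] at h1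
      exact h1
    · intro j _ hj
      rw [coeff_C_mul, coeff_X_pow, if_neg, mul_zero]
      intro hc
      have h2 := Finsupp.single_eq_single_iff _ _ _ _ |>.1 hc
      rcases h2 with ⟨h3, _⟩ | ⟨h3, _⟩
      · exact hj h3
      · exact absurd h3 (D.hd j).ne'
    · intro h
      exact absurd (Finset.mem_univ _) h

end MotMono.Kum
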