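import Pool.Agent.Lib.MP_4e5fcd_ag.Kum.E10a

/-! # KUM-E10: closure and connectedness -/

open MvPolynomial

namespace MotMono.Kum

variable {N : ℕ} {J : Type} [Fintype J] [DecidableEq J] (D : Data N J)

/-- the closure in `act` -/
theorem exists_closure (T R : Finset (J ⊕ Fin N)) (hR : D.Cl R) (hT : T ⊆ R) :
    ∃ R₁, D.Cl R₁ ∧ T ⊆ R₁ ∧ R₁ ⊆ R ∧ D.r R₁ = D.r T := by
  have hmem : ∀ i, i ∈ D.act.filter (fun i => D.r (insert i T) = D.r T) ↔
      i ∈ D.act ∧ D.r (insert i T) = D.r T := fun i => Finset.mem_filter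
  have hTR : T ⊆ D.act.filter (fun i => D.r (insert i T) = D.r T) := by
    intro i hi
    rw [hmem]
    exact ⟨hR.1 (hT hi), by rw [Finset.insert_eq_of_mem hi]⟩
  have hker : ∀ v, (∀ i' ∈ T, D.lam i' ⬝ᵥ v = 0) →
      ∀ i' ∈ D.act.filter (fun i => D.r (insert i T) = D.r T), D.lam i' ⬝ᵥ v = 0 := by
    intro v hv i' hi'
    rw [hmem] at hi'
    exact (r_insert_eq_iff D T i').1 hi'.2 v hv
  refine ⟨D.act.filter (fun i => D.r (insert i T) = D.r T), ⟨Finset.filter_subset _ _, ?_⟩, hTR,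
    ?_, ?_⟩
  · intro i hi h
    rw [hmem]
    refine ⟨hi, (r_insert_eq_iff D T i).2 fun v hv => ?_⟩
    exact (r_insert_eq_iff D _ i).1 h v (hker v hv)
  · intro i hi
    rw [hmem] at hi
    apply hR.2 i hi.1
    rw [r_insert_eq_iff]
    intro v hv
    exact (r_insert_eq_iff D T i).1 hi.2 v fun i' hi' => hv i' (hT hi')
  · have h4 : KK D.lam (D.act.filter (fun i => D.r (insert i T) = D.r T)) = KK D.lam T := by
      apply le_antisymm (h3_KK_anti D.lam hTR)
      intro v hv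
      exact hker v hv
    unfold Data.r rk
    unfold Data.r rk at h4
    rw [h4]

private theorem e10_sum {α : Type} [DecidableEq α] (A B : Finset α) (hAB : Disjoint A B)
    (f : Finset α → ℤ) :
    ∑ R ∈ (A ∪ B).powerset, f R = ∑ X ∈ A.powerset, ∑ Y ∈ B.powerset, f (X ∪ Y) := by
  rw [← Finset.sum_product']
  symm
  have hd : ∀ x, x ∈ A → x ∈ B → False := fun x h h' => Finset.disjoint_left.1 hAB h h'
  refine Finset.sum_bij' (fun p _ => p.1 ∪ p.2) (fun R _ => (R ∩ A, R ∩ B)) ?_ ?_ ?_ ?_ ?_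
  · intro p hp
    rw [Finset.mem_product, Finset.mem_powerset, Finset.mem_powerset] at hp
    rw [Finset.mem_powerset]
    exact Finset.union_subset_union hp.1 hp.2
  · intro R hR
    rw [Finset.mem_product, Finset.mem_powerset, Finset.mem_powerset]
    exact ⟨Finset.inter_subset_right, Finset.inter_subset_right⟩
  · rintro ⟨X, Y⟩ hp
    rw [Finset.mem_product, Finset.mem_powerset, Finset.mem_powerset] at hp
    have hX : X ⊆ A := hp.1
    have hY : Y ⊆ B := hp.2
    show ((X ∪ Y) ∩ A, (X ∪ Y) ∩ B) = (X, Y)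
    congr 1
    · ext x
      rw [Finset.mem_inter, Finset.mem_union]
      constructor
      · rintro ⟨h | h, h'⟩
        · exact h
        · exact (hd x h' (hY h)).elim
      · exact fun h => ⟨Or.inl h, hX h⟩
    · ext x
      rw [Finset.mem_inter, Finset.mem_union]
      constructor
      · rintro ⟨h | h, h'⟩
        · exact (hd x (hX h) h').elim
        · exact h
      · exact fun h => ⟨Or.inr h, hY h⟩
  · intro R hR
    rw [Finset.mem_powerset] at hR
    show R ∩ A ∪ R ∩ B = R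
    rw [← Finset.inter_union_distrib_left, Finset.inter_eq_left.2 hR]
  · intro p _
    rfl

theorem h2t_eq_zero (T : Finset (J ⊕ Fin N)) (hT : T.Nonempty) (hc : ¬ D.Conn T) :
    h2t D.r T = 0 := by
  have hr := r_rk D
  unfold Data.Conn at hc
  push Not at hc
  obtain ⟨A, B, hA, hB, hAB, rfl, hle⟩ := hc hT
  have hd : ∀ x, x ∈ A → x ∈ B → False := fun x h h' => Finset.disjoint_left.1 hAB h h'
  have key : ∀ X ∈ A.powerset, ∀ Y ∈ B.powerset, D.r (X ∪ Y) = D.r X + D.r Y := by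
    intro X hX Y hY
    rw [Finset.mem_powerset] at hX hY
    have s1 := hr.sub X Y
    have s2 := hr.sub A (X ∪ Y)
    have s3 := hr.sub B (A ∪ (X ∪ Y))
    have e1 : A ∩ (X ∪ Y) = X := by
      ext x
      rw [Finset.mem_inter, Finset.mem_union]
      constructor
      · rintro ⟨h', h | h⟩
        · exact h
        · exact (hd x h' (hY h)).elim
      · exact fun h => ⟨hX h, Or.inl h⟩
    have e2 : B ∩ (A ∪ (X ∪ Y)) = Y := by
      ext x
      rw [Finset.mem_inter, Finset.mem_union, Finset.mem_union]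
      constructor
      · rintro ⟨h', h | h | h⟩
        · exact (hd x h h').elim
        · exact (hd x (hX h) h').elim
        · exact h
      · exact fun h => ⟨hY h, Or.inr (Or.inr h)⟩
    have e3 : B ∪ (A ∪ (X ∪ Y)) = A ∪ B := by
      ext x
      simp only [Finset.mem_union]
      constructor
      · rintro (h | h | h | h)
        · exact Or.inr h
        · exact Or.inl h
        · exact Or.inl (hX h)
        · exact Or.inr (hY h)
      · rintro (h | h)
        · exact Or.inr (Or.inl h)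
        · exact Or.inl h
    rw [e1] at s2
    rw [e2, e3] at s3
    omega
  unfold h2t
  rw [e10_sum A B hAB]
  have hcard : ∀ X ∈ A.powerset, ∀ Y ∈ B.powerset, (X ∪ Y).card = X.card + Y.card := by
    intro X hX Y hY
    rw [Finset.mem_powerset] at hX hY
    rw [Finset.card_union_of_disjoint]
    rw [Finset.disjoint_left]
    intro x h h'
    exact hd x (hX h) (hY h')
  have h0A : ∑ R ∈ A.powerset, (-1 : ℤ) ^ R.card = 0 :=
    Finset.sum_powerset_neg_one_pow_card_of_nonempty hA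
  have h0B : ∑ R ∈ B.powerset, (-1 : ℤ) ^ R.card = 0 :=
    Finset.sum_powerset_neg_one_pow_card_of_nonempty hB
  have h1 : ∀ X ∈ A.powerset, ∑ Y ∈ B.powerset, (-1 : ℤ) ^ (X ∪ Y).card * (D.r (X ∪ Y) : ℤ) =
      (-1 : ℤ) ^ X.card * ∑ Y ∈ B.powerset, (-1 : ℤ) ^ Y.card * (D.r Y : ℤ) := by
    intro X hX
    have h2 : ∑ Y ∈ B.powerset, (-1 : ℤ) ^ (X ∪ Y).card * (D.r (X ∪ Y) : ℤ) =
        ∑ Y ∈ B.powerset, (((-1 : ℤ) ^ X.card * (D.r X : ℤ)) * (-1 : ℤ) ^ Y.card +
          (-1 : ℤ) ^ X.card * ((-1 : ℤ) ^ Y.card * (D.r Y : ℤ))) := by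
      refine Finset.sum_congr rfl fun Y hY => ?_
      rw [hcard X hX Y hY, key X hX Y hY, pow_add]
      push_cast
      ring
    rw [h2, Finset.sum_add_distrib, ← Finset.mul_sum, h0B, mul_zero, zero_add, ← Finset.mul_sum]
  rw [Finset.sum_congr rfl h1, ← Finset.sum_mul, h0A, zero_mul]

theorem h2t_pos (T : Finset (J ⊕ Fin N)) (hc : D.Conn T) :
    0 < (-1 : ℤ) ^ D.r T * h2t D.r T :=
  (h2_main T.card T rfl D.r (r_rk D)).2 hc.1 (fun j _ => r_singleton D j) hc.2

theorem chi_Bset_eq (χ : K0 →+* ℤ) (hχ : IsEulerChar χ) (T : Finset (J ⊕ Fin N))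
    (i₁ : J ⊕ Fin N) (hi₁ : i₁ ∈ T) :
    χ (cls (Bset ⊤ D.lam T i₁)) = -h2t D.r T := chi_Bset χ hχ ⊤ D.lam T i₁ hi₁

end MotMono.Kum
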