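import Pool.Agent.Lib.MP_4e5fcd_ag.Kum.Base
import Pool.Agent.Lib.MP_4e5fcd_ag.H3

/-! # KUM-E10a: the rank function -/

open MvPolynomial

namespace MotMono.Kum

variable {N : ℕ} {J : Type} [Fintype J] [DecidableEq J] (D : Data N J)

theorem lam_ne_zero (i : J ⊕ Fin N) : D.lam i ≠ 0 := by
  rcases i with κ | j
  · exact D.ha κ
  · intro h
    have h1 : (Pi.single j (1:ℂ) : Fin N → ℂ) = 0 := h
    have h2 := congrFun h1 j
    rw [Pi.single_eq_same] at h2
    exact one_ne_zero h2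

theorem r_rk : H2Rk D.r :=
  ⟨h3_rk_empty ⊤ D.lam, h3_rk_mono ⊤ D.lam, h3_rk_step ⊤ D.lam, h3_rk_sub ⊤ D.lam⟩

/-- an index does not increase the rank iff its form vanishes on the common kernel -/
theorem r_insert_eq_iff (R : Finset (J ⊕ Fin N)) (i : J ⊕ Fin N) :
    D.r (insert i R) = D.r R ↔ ∀ v, (∀ i' ∈ R, D.lam i' ⬝ᵥ v = 0) → D.lam i ⬝ᵥ v = 0 := by
  have hle : (⊤ ⊓ KK D.lam (insert i R) : Submodule ℂ (Fin N → ℂ)) ≤ ⊤ ⊓ KK D.lam R :=
    inf_le_inf_left _ (h3_KK_anti D.lam (Finset.subset_insert _ _))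
  have h1 := h3_finrank_le (⊤ : Submodule ℂ (Fin N → ℂ)) D.lam (insert i R)
  have h2 := h3_finrank_le (⊤ : Submodule ℂ (Fin N → ℂ)) D.lam R
  constructor
  · intro h v hv
    have h3 : Module.finrank ℂ (⊤ ⊓ KK D.lam (insert i R) : Submodule ℂ (Fin N → ℂ)) =
        Module.finrank ℂ (⊤ ⊓ KK D.lam R : Submodule ℂ (Fin N → ℂ)) := by
      unfold Data.r rk at h
      omega
    have h4 := Submodule.eq_of_le_of_finrank_eq hle h3
    have h5 : v ∈ (⊤ ⊓ KK D.lam R : Submodule ℂ (Fin N → ℂ)) := ⟨trivial, hv⟩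
    rw [← h4] at h5
    exact h5.2 i (Finset.mem_insert_self _ _)
  · intro h
    have h4 : (⊤ ⊓ KK D.lam (insert i R) : Submodule ℂ (Fin N → ℂ)) = ⊤ ⊓ KK D.lam R := by
      apply le_antisymm hle
      rintro v ⟨-, hv⟩
      refine ⟨trivial, fun i' hi' => ?_⟩
      rcases Finset.mem_insert.1 hi' with rfl | hi'
      · exact h v hv
      · exact hv i' hi'
    unfold Data.r rk
    rw [h4]

theorem r_singleton (i : J ⊕ Fin N) : D.r {i} = 1 := by
  have h1 := (r_rk D).step ∅ i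
  rw [(r_rk D).zero] at h1
  have h2 : D.r (insert i ∅) ≠ D.r ∅ := by
    intro h
    rw [r_insert_eq_iff] at h
    apply lam_ne_zero D i
    funext j
    have h3 := h (Pi.single j 1) (by simp)
    rw [dotProduct_single, mul_one] at h3
    exact h3
  rw [(r_rk D).zero] at h2
  have h3 : (insert i ∅ : Finset (J ⊕ Fin N)) = {i} := rfl
  rw [h3] at h1 h2
  omega

/-- coordinates are independent -/
theorem r_coord (K : Finset (Fin N)) :
    D.r (K.map ⟨Sum.inr, Sum.inr_injective⟩) = K.card := by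
  induction K using Finset.induction_on with
  | empty => exact (r_rk D).zero
  | insert j K hj ih =>
    rw [Finset.map_insert, Finset.card_insert_of_notMem hj]
    have h1 := (r_rk D).step (K.map ⟨Sum.inr, Sum.inr_injective⟩) (Sum.inr j)
    have h2 := (r_rk D).mono (K.map ⟨Sum.inr, Sum.inr_injective⟩)
      (insert (Sum.inr j) (K.map ⟨Sum.inr, Sum.inr_injective⟩)) (Finset.subset_insert _ _)
    have h3 : D.r (insert (Sum.inr j) (K.map ⟨Sum.inr, Sum.inr_injective⟩)) ≠
        D.r (K.map ⟨Sum.inr, Sum.inr_injective⟩) := by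
      intro h
      rw [r_insert_eq_iff] at h
      have h4 := h (Pi.single j 1) (by
        intro i' hi'
        obtain ⟨j', hj', rfl⟩ := Finset.mem_map.1 hi'
        show (Pi.single j' (1:ℂ) : Fin N → ℂ) ⬝ᵥ Pi.single j 1 = 0
        rw [single_dotProduct, one_mul, Pi.single_eq_of_ne]
        rintro rfl
        exact hj hj')
      have h5 : (Pi.single j (1:ℂ) : Fin N → ℂ) ⬝ᵥ Pi.single j 1 = 0 := h4
      rw [single_dotProduct, one_mul, Pi.single_eq_same] at h5
      exact one_ne_zero h5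
    show D.r (insert (Sum.inr j) (K.map ⟨Sum.inr, Sum.inr_injective⟩)) = K.card + 1
    omega

end MotMono.Kum
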