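import Pool.Agent.Lib.MP_4e5fcd_ag.Z1

/-! # KUM-E11: products of cyclotomic factors -/

open MvPolynomial

namespace MotMono.Kum

/-- the logarithmic derivative of `(1 - X ^ n)⁻¹` -/
private noncomputable def e11_G (n : ℕ) : PowerSeries ℂ :=
  PowerSeries.mk fun d => if d = 0 then (0 : ℂ) else if n ∣ d then (n : ℂ) else 0

private theorem e11_key (n : ℕ) (hn : 0 < n) :
    (1 - PowerSeries.X ^ n) * e11_G n = (n : PowerSeries ℂ) * PowerSeries.X ^ n := by
  have hC : (n : PowerSeries ℂ) = PowerSeries.C (n : ℂ) := by simp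
  ext d
  rw [hC, sub_mul, one_mul, map_sub, PowerSeries.coeff_X_pow_mul', PowerSeries.coeff_C_mul,
    PowerSeries.coeff_X_pow]
  simp only [e11_G, PowerSeries.coeff_mk]
  rcases lt_trichotomy d n with h | h | h
  · rw [if_neg (not_le.mpr h), if_neg h.ne]
    by_cases h0 : d = 0
    · simp [h0]
    · rw [if_neg h0, if_neg (Nat.not_dvd_of_pos_of_lt (Nat.pos_of_ne_zero h0) h)]
      simp
  · subst h
    rw [if_neg hn.ne', if_pos dvd_rfl, if_pos le_rfl]
    simp
  · rw [if_neg (by omega : ¬ d = 0), if_pos h.le, if_neg (by omega : ¬ d - n = 0), if_neg h.ne']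
    have : n ∣ d ↔ n ∣ d - n := by
      constructor
      · intro h2
        exact Nat.dvd_sub h2 dvd_rfl
      · intro h2
        have h3 := Nat.dvd_add h2 (dvd_refl n)
        rwa [Nat.sub_add_cancel h.le] at h3
    by_cases h1 : n ∣ d
    · rw [if_pos h1, if_pos (this.mp h1)]; simp
    · rw [if_neg h1, if_neg (fun h2 => h1 (this.mpr h2))]; simp

private theorem e11_dX (n : ℕ) :
    PowerSeries.X * PowerSeries.derivative ℂ ((PowerSeries.X : PowerSeries ℂ) ^ n) =
      (n : PowerSeries ℂ) * PowerSeries.X ^ n := by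
  rcases n with _ | n
  · simp
  · rw [Derivation.leibniz_pow]
    simp only [Nat.add_sub_cancel, PowerSeries.derivative_X, smul_eq_mul, mul_one, nsmul_eq_mul]
    ring

/-- `U (0) = 1` and `X U' = A U` -/
private def e11_LD (U A : PowerSeries ℂ) : Prop :=
  PowerSeries.constantCoeff U = 1 ∧ PowerSeries.X * PowerSeries.derivative ℂ U = A * U

private theorem e11_LD_one : e11_LD 1 0 := by
  refine ⟨map_one _, ?_⟩
  simp

private theorem e11_LD_mul {U V A B : PowerSeries ℂ} (hU : e11_LD U A) (hV : e11_LD V B) :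
    e11_LD (U * V) (A + B) := by
  refine ⟨by rw [map_mul, hU.1, hV.1, one_mul], ?_⟩
  rw [Derivation.leibniz, smul_eq_mul, smul_eq_mul, mul_add]
  have h1 : PowerSeries.X * (U * PowerSeries.derivative ℂ V) =
      U * (PowerSeries.X * PowerSeries.derivative ℂ V) := by ring
  have h2 : PowerSeries.X * (V * PowerSeries.derivative ℂ U) =
      V * (PowerSeries.X * PowerSeries.derivative ℂ U) := by ring
  rw [h1, h2, hU.2, hV.2]
  ring

private theorem e11_LD_pow {U A : PowerSeries ℂ} (hU : e11_LD U A) (m : ℕ) :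
    e11_LD (U ^ m) ((m : PowerSeries ℂ) * A) := by
  induction m with
  | zero => simpa using e11_LD_one
  | succ m ih =>
    have h := e11_LD_mul ih hU
    rw [← pow_succ] at h
    have e : (m : PowerSeries ℂ) * A + A = ((m + 1 : ℕ) : PowerSeries ℂ) * A := by
      push_cast; ring
    rwa [e] at h

private theorem e11_LD_inv {U A : PowerSeries ℂ} (hU : e11_LD U A) :
    e11_LD U⁻¹ (-A) := by
  have hU0 : PowerSeries.constantCoeff U ≠ 0 := by rw [hU.1]; exact one_ne_zero
  have hUZ : U * U⁻¹ = 1 := PowerSeries.mul_inv_cancel U hU0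
  refine ⟨by rw [PowerSeries.constantCoeff_inv, hU.1, inv_one], ?_⟩
  have h1 : PowerSeries.derivative ℂ (U * U⁻¹) = 0 := by
    rw [hUZ]; simp
  rw [Derivation.leibniz, smul_eq_mul, smul_eq_mul] at h1
  have h2 : U * (PowerSeries.X * PowerSeries.derivative ℂ U⁻¹) +
      U⁻¹ * (PowerSeries.X * PowerSeries.derivative ℂ U) = 0 := by
    have : U * (PowerSeries.X * PowerSeries.derivative ℂ U⁻¹) +
      U⁻¹ * (PowerSeries.X * PowerSeries.derivative ℂ U) = PowerSeries.X *
        (U * PowerSeries.derivative ℂ U⁻¹ + U⁻¹ * PowerSeries.derivative ℂ U) := by ring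
    rw [this, h1, mul_zero]
  rw [hU.2] at h2
  have h3 : U * (PowerSeries.X * PowerSeries.derivative ℂ U⁻¹) = -A := by
    have : U⁻¹ * (A * U) = A * (U * U⁻¹) := by ring
    rw [this, hUZ, mul_one] at h2
    linear_combination h2
  calc PowerSeries.X * PowerSeries.derivative ℂ U⁻¹ =
      (U * U⁻¹) * (PowerSeries.X * PowerSeries.derivative ℂ U⁻¹) := by rw [hUZ, one_mul]
    _ = (U * (PowerSeries.X * PowerSeries.derivative ℂ U⁻¹)) * U⁻¹ := by ring
    _ = _ := by rw [h3]

private theorem e11_LD_prod {ι : Type} (s : Finset ι) (U A : ι → PowerSeries ℂ)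
    (h : ∀ i ∈ s, e11_LD (U i) (A i)) : e11_LD (∏ i ∈ s, U i) (∑ i ∈ s, A i) := by
  classical
  induction s using Finset.induction_on with
  | empty => simpa using e11_LD_one
  | insert i s hi ih =>
    rw [Finset.prod_insert hi, Finset.sum_insert hi]
    exact e11_LD_mul (h i (Finset.mem_insert_self _ _))
      (ih fun j hj => h j (Finset.mem_insert_of_mem hj))

private theorem e11_LD_base (n : ℕ) (hn : 0 < n) :
    e11_LD (1 - PowerSeries.X ^ n) (-e11_G n) := by
  refine ⟨?_, ?_⟩
  · rw [map_sub, map_pow, PowerSeries.constantCoeff_X, zero_pow hn.ne', map_one, sub_zero]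
  · have h1 : PowerSeries.derivative ℂ (1 : PowerSeries ℂ) = 0 := by simp
    rw [map_sub, mul_sub, e11_dX, h1, mul_zero, zero_sub, ← e11_key n hn]
    ring

/-- the factor `(1 - X ^ n) ^ c`, `c` an integer -/
private noncomputable def e11_U (n : ℕ) (c : ℤ) : PowerSeries ℂ :=
  (1 - PowerSeries.X ^ n) ^ c.toNat * ((1 - PowerSeries.X ^ n) ^ (-c).toNat)⁻¹

private theorem e11_LD_U (n : ℕ) (hn : 0 < n) (c : ℤ) :
    e11_LD (e11_U n c) (-(PowerSeries.C (c : ℂ) * e11_G n)) := by
  have h := e11_LD_mul (e11_LD_pow (e11_LD_base n hn) c.toNat)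
    (e11_LD_inv (e11_LD_pow (e11_LD_base n hn) (-c).toNat))
  have e : (c.toNat : PowerSeries ℂ) * -e11_G n + -(((-c).toNat : PowerSeries ℂ) * -e11_G n) =
      -(PowerSeries.C (c : ℂ) * e11_G n) := by
    have h1 : PowerSeries.C (c : ℂ) = (c.toNat : PowerSeries ℂ) - ((-c).toNat : PowerSeries ℂ) := by
      have h2 : (c : ℂ) = (c.toNat : ℂ) - ((-c).toNat : ℂ) := by
        have h3 : c = (c.toNat : ℤ) - ((-c).toNat : ℤ) := by omega
        exact_mod_cast congrArg (fun z : ℤ => (z : ℂ)) h3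
      rw [h2, map_sub]
      simp
    rw [h1]
    ring
  rw [e] at h
  exact h

private theorem e11_U_mul (n : ℕ) (hn : 0 < n) (c : ℤ) :
    (1 - PowerSeries.X ^ n) ^ (-c).toNat * e11_U n c = (1 - PowerSeries.X ^ n) ^ c.toNat := by
  have h1 := (e11_LD_pow (e11_LD_base n hn) (-c).toNat).1
  have h2 : (1 - PowerSeries.X ^ n : PowerSeries ℂ) ^ (-c).toNat *
      ((1 - PowerSeries.X ^ n) ^ (-c).toNat)⁻¹ = 1 :=
    PowerSeries.mul_inv_cancel _ (by rw [h1]; exact one_ne_zero)
  unfold e11_U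
  calc _ = (1 - PowerSeries.X ^ n : PowerSeries ℂ) ^ c.toNat *
      ((1 - PowerSeries.X ^ n : PowerSeries ℂ) ^ (-c).toNat *
      ((1 - PowerSeries.X ^ n) ^ (-c).toNat)⁻¹) := by ring
    _ = _ := by rw [h2, mul_one]

private theorem e11_ne (n : ℕ) (hn : 0 < n) : (1 - Polynomial.X ^ n : Polynomial ℂ) ≠ 0 := by
  intro h
  have := congrArg (Polynomial.eval 0) h
  simp [hn.ne'] at this

private theorem e11_rm (n : ℕ) (hn : 0 < n) (α : ℂ) [Decidable (α ^ n = 1)] :
    (1 - Polynomial.X ^ n : Polynomial ℂ).rootMultiplicity α = if α ^ n = 1 then 1 else 0 := by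
  have hne := e11_ne n hn
  split_ifs with h
  · have hroot : (1 - Polynomial.X ^ n : Polynomial ℂ).IsRoot α := by
      simp [Polynomial.IsRoot, h]
    have hpos := (Polynomial.rootMultiplicity_pos hne).2 hroot
    have hle : ¬ 1 < (1 - Polynomial.X ^ n : Polynomial ℂ).rootMultiplicity α := by
      rw [Polynomial.one_lt_rootMultiplicity_iff_isRoot hne]
      rintro ⟨-, h2⟩
      have hα : α ≠ 0 := by
        rintro rfl
        rw [zero_pow hn.ne'] at h
        exact zero_ne_one h
      rw [Polynomial.IsRoot, Polynomial.derivative_sub, Polynomial.derivative_one,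
        Polynomial.derivative_X_pow, zero_sub, Polynomial.eval_neg, neg_eq_zero,
        Polynomial.eval_mul, Polynomial.eval_C, Polynomial.eval_pow, Polynomial.eval_X] at h2
      rcases mul_eq_zero.1 h2 with h2 | h2
      · exact hn.ne' (Nat.cast_eq_zero.1 h2)
      · exact pow_ne_zero _ hα h2
    omega
  · apply Polynomial.rootMultiplicity_eq_zero
    intro hroot
    apply h
    have : (1 : ℂ) - α ^ n = 0 := by simpa [Polynomial.IsRoot] using hroot
    rw [sub_eq_zero] at this
    exact this.symm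

private theorem e11_pow_rm (p : Polynomial ℂ) (hp : p ≠ 0) (α : ℂ) (m : ℕ) :
    (p ^ m).rootMultiplicity α = m * p.rootMultiplicity α := by
  induction m with
  | zero => simp
  | succ m ih =>
    rw [pow_succ, Polynomial.rootMultiplicity_mul (mul_ne_zero (pow_ne_zero _ hp) hp), ih]
    ring

open Classical in
private theorem e11_rm_prod {ι : Type} (s : Finset ι) (n : ι → ℕ) (m : ι → ℕ)
    (hn : ∀ i ∈ s, 0 < n i) (α : ℂ) :
    (∏ i ∈ s, (1 - Polynomial.X ^ n i : Polynomial ℂ) ^ m i) ≠ 0 ∧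
    (∏ i ∈ s, (1 - Polynomial.X ^ n i : Polynomial ℂ) ^ m i).rootMultiplicity α =
      ∑ i ∈ s, if α ^ n i = 1 then m i else 0 := by
  induction s using Finset.induction_on with
  | empty => simp
  | insert i s hi ih =>
    obtain ⟨h1, h2⟩ := ih fun j hj => hn j (Finset.mem_insert_of_mem hj)
    have hni := hn i (Finset.mem_insert_self _ _)
    have h3 : (1 - Polynomial.X ^ n i : Polynomial ℂ) ^ m i ≠ 0 := pow_ne_zero _ (e11_ne _ hni)
    rw [Finset.prod_insert hi, Finset.sum_insert hi]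
    refine ⟨mul_ne_zero h3 h1, ?_⟩
    rw [Polynomial.rootMultiplicity_mul (mul_ne_zero h3 h1), h2, e11_pow_rm _ (e11_ne _ hni),
      e11_rm _ hni]
    congr 1
    split_ifs <;> simp

open Classical in
theorem exists_zeta_prod {ι : Type} (s : Finset ι) (n : ι → ℕ) (c : ι → ℤ)
    (hn : ∀ i ∈ s, 0 < n i) (Λ : ℕ → ℤ)
    (hΛ : ∀ d, 0 < d → Λ d = ∑ i ∈ s, if n i ∣ d then c i * n i else 0) (α : ℂ)
    (hα : ∑ i ∈ s.filter (fun i => α ^ n i = 1), c i ≠ 0) :
    ∃ Z, IsZeta Λ Z ∧ ZeroOrPole Z α := by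
  have hLD := e11_LD_prod s (fun i => e11_U (n i) (c i))
    (fun i => -(PowerSeries.C ((c i : ℤ) : ℂ) * e11_G (n i))) (fun i hi => e11_LD_U _ (hn i hi) _)
  have hF : (PowerSeries.mk fun d => if d = 0 then (0 : ℂ) else (Λ d : ℂ)) =
      ∑ i ∈ s, PowerSeries.C ((c i : ℤ) : ℂ) * e11_G (n i) := by
    ext d
    rw [map_sum]
    simp only [PowerSeries.coeff_C_mul, e11_G, PowerSeries.coeff_mk]
    by_cases h0 : d = 0
    · simp [h0]
    · rw [if_neg h0, hΛ d (Nat.pos_of_ne_zero h0)]
      push_cast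
      refine Finset.sum_congr rfl fun i _ => ?_
      rw [if_neg h0]
      split_ifs <;> simp
  refine ⟨∏ i ∈ s, e11_U (n i) (c i), ⟨hLD.1, ?_⟩, ?_⟩
  · rw [hF, hLD.2, Finset.sum_neg_distrib]
  · set P : Polynomial ℂ := ∏ i ∈ s, (1 - Polynomial.X ^ n i) ^ (c i).toNat with hP
    set Q : Polynomial ℂ := ∏ i ∈ s, (1 - Polynomial.X ^ n i) ^ (-(c i)).toNat with hQ
    obtain ⟨hP0, hPr⟩ := e11_rm_prod s n (fun i => (c i).toNat) hn α
    obtain ⟨hQ0, hQr⟩ := e11_rm_prod s n (fun i => (-(c i)).toNat) hn α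
    rw [← hP] at hP0 hPr
    rw [← hQ] at hQ0 hQr
    have hZ : (Q : PowerSeries ℂ) * ∏ i ∈ s, e11_U (n i) (c i) = (P : PowerSeries ℂ) := by
      rw [hP, hQ]
      have e1 : ∀ m : ι → ℕ, ((∏ i ∈ s, (1 - Polynomial.X ^ n i : Polynomial ℂ) ^ m i :
          Polynomial ℂ) : PowerSeries ℂ) = ∏ i ∈ s, (1 - PowerSeries.X ^ n i) ^ m i := by
        intro m
        have : ∀ p : Polynomial ℂ, (p : PowerSeries ℂ) = Polynomial.coeToPowerSeries.ringHom p :=
          fun _ => rfl
        rw [this, map_prod]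
        refine Finset.prod_congr rfl fun i _ => ?_
        rw [map_pow, map_sub, map_pow, map_one]
        simp
      rw [e1, e1, ← Finset.prod_mul_distrib]
      exact Finset.prod_congr rfl fun i hi => e11_U_mul _ (hn i hi) _
    -- divide by the gcd
    obtain ⟨g, P', Q', hg, hPg, hQg, hcop⟩ : ∃ g P' Q' : Polynomial ℂ, g ≠ 0 ∧ P = g * P' ∧
        Q = g * Q' ∧ IsCoprime P' Q' := by
      set g := EuclideanDomain.gcd P Q with hgd
      have hg0 : g ≠ 0 := by
        intro h
        exact hP0 (EuclideanDomain.gcd_eq_zero_iff.1 h).1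
      obtain ⟨P', hP'⟩ := EuclideanDomain.gcd_dvd_left P Q
      obtain ⟨Q', hQ'⟩ := EuclideanDomain.gcd_dvd_right P Q
      refine ⟨g, P', Q', hg0, hP', hQ', ?_⟩
      have hb := EuclideanDomain.gcd_eq_gcd_ab P Q
      refine ⟨EuclideanDomain.gcdA P Q, EuclideanDomain.gcdB P Q, ?_⟩
      apply mul_left_cancel₀ hg0
      calc g * (EuclideanDomain.gcdA P Q * P' + EuclideanDomain.gcdB P Q * Q') =
          (g * P') * EuclideanDomain.gcdA P Q + (g * Q') * EuclideanDomain.gcdB P Q := by ring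
        _ = P * EuclideanDomain.gcdA P Q + Q * EuclideanDomain.gcdB P Q := by
            rw [← hP', ← hQ']
        _ = g * 1 := by rw [mul_one]; exact hb.symm
    have hgc : (g : PowerSeries ℂ) ≠ 0 := by
      intro h
      apply hg
      exact Polynomial.coe_eq_zero_iff.1 h
    refine ⟨P', Q', hcop, ?_, ?_⟩
    · apply mul_left_cancel₀ hgc
      rw [hPg, hQg] at hZ
      rw [← mul_assoc, ← Polynomial.coe_mul, hZ, Polynomial.coe_mul]
    · by_contra hcon
      rw [not_or] at hcon
      have hP'0 : P' ≠ 0 := by rintro rfl; simp at hPg; exact hP0 hPg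
      have hQ'0 : Q' ≠ 0 := by rintro rfl; simp at hQg; exact hQ0 hQg
      have h1 : P.rootMultiplicity α = g.rootMultiplicity α := by
        rw [hPg, Polynomial.rootMultiplicity_mul (mul_ne_zero hg hP'0),
          Polynomial.rootMultiplicity_eq_zero (p := P') hcon.1, add_zero]
      have h2 : Q.rootMultiplicity α = g.rootMultiplicity α := by
        rw [hQg, Polynomial.rootMultiplicity_mul (mul_ne_zero hg hQ'0),
          Polynomial.rootMultiplicity_eq_zero (p := Q') hcon.2, add_zero]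
      apply hα
      have h3 : (∑ i ∈ s, if α ^ n i = 1 then (c i).toNat else 0) =
          ∑ i ∈ s, if α ^ n i = 1 then (-(c i)).toNat else 0 := by
        rw [← hPr, ← hQr, h1, h2]
      have h4 : (∑ i ∈ s, if α ^ n i = 1 then ((c i).toNat : ℤ) else 0) =
          ∑ i ∈ s, if α ^ n i = 1 then ((-(c i)).toNat : ℤ) else 0 := by
        have h := congrArg (Nat.cast : ℕ → ℤ) h3
        rw [Nat.cast_sum, Nat.cast_sum] at h
        simpa only [Nat.cast_ite, Nat.cast_zero] using h
      have h5 : ∀ i ∈ s, (if α ^ n i = 1 then c i else 0) =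
          (if α ^ n i = 1 then ((c i).toNat : ℤ) else 0) -
            (if α ^ n i = 1 then ((-(c i)).toNat : ℤ) else 0) := by
        intro i _
        split_ifs
        · omega
        · rfl
      rw [Finset.sum_filter, Finset.sum_congr rfl h5, Finset.sum_sub_distrib, h4, sub_self]

end MotMono.Kum
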