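import Pool.Agent.Lib.MP_4e5fcd_ag.Kum.Base

/-! # KUM-E9: counting characters -/

open MvPolynomial

namespace MotMono.Kum

variable {N : ℕ} {J : Type} [Fintype J] [DecidableEq J] (D : Data N J)

theorem mem_chars (K : Finset (Fin N)) (x : ℚ) (k : Fin N → ℕ) :
    k ∈ D.chars K x ↔ (∀ j ∈ K, k j < D.d j) ∧ (∀ j, j ∉ K → k j = 0) ∧
      ∃ z : ℤ, ∑ j, (k j : ℚ) / D.d j - x = z := by
  classical
  unfold Data.chars
  rw [Finset.mem_filter, Fintype.mem_piFinset]
  constructor
  · rintro ⟨h, hz⟩
    refine ⟨fun j hj => ?_, fun j hj => ?_, hz⟩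
    · have := h j
      rw [if_pos hj, Finset.mem_range] at this
      exact this
    · have := h j
      rw [if_neg hj, Finset.mem_singleton] at this
      exact this
  · rintro ⟨h1, h2, hz⟩
    refine ⟨fun j => ?_, hz⟩
    by_cases hj : j ∈ K
    · rw [if_pos hj, Finset.mem_range]
      exact h1 j hj
    · rw [if_neg hj, Finset.mem_singleton]
      exact h2 j hj

open Classical in
/-- the linear congruence -/
theorem E9_count (m e : ℕ) (hm : 0 < m) (he : 0 < e) (x : ℚ)
    (hx : ∃ z : ℤ, x * (Nat.lcm e m : ℕ) = z) :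
    ((Finset.range e).filter fun c : ℕ => ∃ z : ℤ, (x - (c : ℚ) / e) * m = z).card =
      Nat.gcd e m := by
  obtain ⟨a, ha⟩ := hx
  obtain ⟨e1, m1, hcop, he1, hm1⟩ := Nat.exists_coprime e m
  have hg : 0 < Nat.gcd e m := Nat.gcd_pos_of_pos_left m he
  generalize hgg : Nat.gcd e m = g at *
  have he1pos : 0 < e1 := by
    rcases Nat.eq_zero_or_pos e1 with h | h
    · rw [h] at he1; omega
    · exact h
  have hm1pos : 0 < m1 := by
    rcases Nat.eq_zero_or_pos m1 with h | h
    · rw [h] at hm1; omega
    · exact h
  have hlcm : Nat.lcm e m = g * e1 * m1 := by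
    have h1 := Nat.gcd_mul_lcm e m
    rw [hgg] at h1
    have h2 : g * Nat.lcm e m = g * (g * e1 * m1) := by
      rw [h1]
      nth_rewrite 1 [he1]
      nth_rewrite 1 [hm1]
      ring
    exact Nat.eq_of_mul_eq_mul_left hg h2
  -- the inverse of m1 modulo e1
  obtain ⟨c0, hc0⟩ : ∃ c0 : ℕ, (e1 : ℤ) ∣ a - c0 * m1 := by
    have hz : IsCoprime (m1 : ℤ) (e1 : ℤ) := (Nat.isCoprime_iff_coprime.2 hcop).symm
    obtain ⟨u, v, huv⟩ := hz
    -- u m1 + v e1 = 1
    refine ⟨((a * u) % e1).toNat, ?_⟩
    have hnn : 0 ≤ (a * u) % (e1 : ℤ) := Int.emod_nonneg _ (by omega)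
    rw [Int.toNat_of_nonneg hnn]
    have h1 : (a * u) % (e1 : ℤ) = a * u - e1 * ((a * u) / e1) := Int.emod_def _ _
    rw [h1]
    refine ⟨a * v + ((a * u) / e1) * m1, ?_⟩
    linear_combination (-a) * huv
  have hiff : ∀ c : ℕ, (∃ z : ℤ, (x - (c : ℚ) / e) * m = z) ↔ c ≡ c0 [MOD e1] := by
    intro c
    have hgq : (g : ℚ) ≠ 0 := by exact_mod_cast hg.ne'
    have heq : (e1 : ℚ) ≠ 0 := by exact_mod_cast he1pos.ne'
    have hmq : (m1 : ℚ) ≠ 0 := by exact_mod_cast hm1pos.ne'
    have hx' : x = a / (g * e1 * m1) := by
      rw [hlcm] at ha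
      push_cast at ha
      rw [eq_div_iff (by positivity)]
      exact ha
    have hval : (x - (c : ℚ) / e) * m = (a - c * m1) / e1 := by
      rw [hx', he1, hm1]
      push_cast
      field_simp
    rw [hval]
    have h2 : (∃ z : ℤ, ((a : ℚ) - c * m1) / e1 = z) ↔ (e1 : ℤ) ∣ a - c * m1 := by
      constructor
      · rintro ⟨z, hz⟩
        rw [div_eq_iff heq] at hz
        refine ⟨z, ?_⟩
        have : ((a - c * m1 : ℤ) : ℚ) = ((e1 * z : ℤ) : ℚ) := by
          push_cast
          rw [hz]; ring
        exact_mod_cast this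
      · rintro ⟨z, hz⟩
        refine ⟨z, ?_⟩
        rw [div_eq_iff heq]
        have : ((a - c * m1 : ℤ) : ℚ) = ((e1 * z : ℤ) : ℚ) := by rw [hz]
        push_cast at this
        rw [this]; ring
    rw [h2]
    rw [Nat.modEq_iff_dvd]
    constructor
    · intro h
      have h3 : (e1 : ℤ) ∣ ((c0 : ℤ) - c) * m1 := by
        have := dvd_sub h hc0
        have e : (a - c * m1) - (a - c0 * m1) = ((c0 : ℤ) - c) * m1 := by ring
        rwa [e] at this
      have hz : IsCoprime (e1 : ℤ) (m1 : ℤ) := Nat.isCoprime_iff_coprime.2 hcop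
      exact hz.dvd_of_dvd_mul_right h3
    · intro h
      have h4 : (e1 : ℤ) ∣ ((c0 : ℤ) - c) * m1 := Dvd.dvd.mul_right h _
      have := dvd_add hc0 h4
      have e : (a - c0 * m1) + ((c0 : ℤ) - c) * m1 = a - c * m1 := by ring
      rwa [e] at this
  have hfil : ((Finset.range e).filter fun c : ℕ => ∃ z : ℤ, (x - (c : ℚ) / e) * m = z) =
      (Finset.range e).filter fun c : ℕ => c ≡ c0 [MOD e1] :=
    Finset.filter_congr fun c _ => hiff c
  rw [hfil, ← Nat.count_eq_card_filter_range, Nat.count_modEq_card _ he1pos]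
  have h5 : e / e1 = g := by
    rw [he1, Nat.mul_div_cancel_left _ he1pos]
  have h6 : e % e1 = 0 := by
    rw [he1]; exact Nat.mul_mod_right _ _
  rw [h5, h6]
  simp

theorem E9_dvd (K : Finset (Fin N)) : D.MK K ∣ ∏ j ∈ K, D.d j := by
  unfold Data.MK
  exact Finset.lcm_dvd fun j hj => Finset.dvd_prod_of_mem _ hj

theorem E9_pos (K : Finset (Fin N)) : 0 < D.MK K := by
  unfold Data.MK
  rw [Nat.pos_iff_ne_zero, Ne, Finset.lcm_eq_zero_iff]
  rintro ⟨j, hj, h⟩
  exact (D.hd j).ne' h

open Classical in
theorem card_chars (K : Finset (Fin N)) (x : ℚ) :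
    (D.chars K x).card = if ∃ z : ℤ, x * D.MK K = z then (∏ j ∈ K, D.d j) / D.MK K else 0 := by
  induction K using Finset.induction_on generalizing x with
  | empty =>
    have h1 : D.MK ∅ = 1 := by simp [Data.MK]
    rw [h1]
    simp only [Finset.prod_empty, Nat.div_self one_pos, Nat.cast_one, mul_one]
    by_cases hx : ∃ z : ℤ, x = z
    · rw [if_pos hx]
      obtain ⟨z, hz⟩ := hx
      rw [Finset.card_eq_one]
      refine ⟨fun _ => 0, ?_⟩
      ext k
      rw [mem_chars, Finset.mem_singleton]
      constructor
      · rintro ⟨-, h, -⟩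
        funext j
        exact h j (by simp)
      · rintro rfl
        refine ⟨by simp, by simp, -z, ?_⟩
        simp [hz]
    · rw [if_neg hx, Finset.card_eq_zero, Finset.eq_empty_iff_forall_notMem]
      intro k hk
      rw [mem_chars] at hk
      obtain ⟨-, h, z, hz⟩ := hk
      apply hx
      refine ⟨-z, ?_⟩
      have : ∑ j, (k j : ℚ) / D.d j = 0 := Finset.sum_eq_zero fun j _ => by simp [h j (by simp)]
      rw [this] at hz
      push_cast
      linarith
  | insert j0 K hj0 ih =>
    -- fibres over the value at j0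
    have hcard : (D.chars (insert j0 K) x).card =
        ∑ c ∈ Finset.range (D.d j0), (D.chars K (x - (c : ℚ) / D.d j0)).card := by
      rw [Finset.card_eq_sum_card_fiberwise (f := fun k => k j0) (t := Finset.range (D.d j0))]
      · refine Finset.sum_congr rfl fun c hc => ?_
        rw [Finset.mem_range] at hc
        refine Finset.card_bij' (fun k _ => Function.update k j0 0)
          (fun k _ => Function.update k j0 c) ?_ ?_ ?_ ?_
        · intro k hk
          rw [Finset.mem_filter, mem_chars] at hk
          obtain ⟨⟨h1, h2, z, hz⟩, h3⟩ := hk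
          rw [mem_chars]
          refine ⟨fun j hj => ?_, fun j hj => ?_, z, ?_⟩
          · have : j ≠ j0 := fun h => hj0 (h ▸ hj)
            rw [Function.update_of_ne this]
            exact h1 j (Finset.mem_insert_of_mem hj)
          · by_cases h : j = j0
            · rw [h, Function.update_self]
            · rw [Function.update_of_ne h]
              exact h2 j (by rw [Finset.mem_insert]; tauto)
          · rw [← hz]
            have e1 : ∑ j, (k j : ℚ) / D.d j = ∑ j, ((Function.update k j0 0 j : ℕ) : ℚ) / D.d j +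
                (c : ℚ) / D.d j0 := by
              rw [← Finset.add_sum_erase _ _ (Finset.mem_univ j0),
                ← Finset.add_sum_erase (f := fun j => ((Function.update k j0 0 j : ℕ) : ℚ) / D.d j)
                  _ (Finset.mem_univ j0)]
              rw [Function.update_self, h3]
              have : ∑ x ∈ Finset.univ.erase j0, (k x : ℚ) / D.d x =
                  ∑ x ∈ Finset.univ.erase j0, ((Function.update k j0 0 x : ℕ) : ℚ) / D.d x := by
                refine Finset.sum_congr rfl fun j hj => ?_
                rw [Function.update_of_ne (Finset.ne_of_mem_erase hj)]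
              rw [this]
              push_cast
              ring
            rw [e1]
            ring
        · intro k hk
          rw [mem_chars] at hk
          obtain ⟨h1, h2, z, hz⟩ := hk
          rw [Finset.mem_filter, mem_chars, Function.update_self]
          refine ⟨⟨fun j hj => ?_, fun j hj => ?_, z, ?_⟩, rfl⟩
          · by_cases h : j = j0
            · rw [h, Function.update_self]; exact hc
            · rw [Function.update_of_ne h]
              exact h1 j ((Finset.mem_insert.1 hj).resolve_left h)
          · rw [Finset.mem_insert, not_or] at hj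
            rw [Function.update_of_ne hj.1]
            exact h2 j hj.2
          · rw [← hz]
            have e1 : ∑ j, ((Function.update k j0 c j : ℕ) : ℚ) / D.d j = ∑ j, (k j : ℚ) / D.d j +
                (c : ℚ) / D.d j0 := by
              rw [← Finset.add_sum_erase (f := fun j => (k j : ℚ) / D.d j) _ (Finset.mem_univ j0),
                ← Finset.add_sum_erase (f := fun j => ((Function.update k j0 c j : ℕ) : ℚ) / D.d j)
                  _ (Finset.mem_univ j0)]
              rw [Function.update_self, h2 j0 hj0]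
              have : ∑ x ∈ Finset.univ.erase j0, (k x : ℚ) / D.d x =
                  ∑ x ∈ Finset.univ.erase j0, ((Function.update k j0 c x : ℕ) : ℚ) / D.d x := by
                refine Finset.sum_congr rfl fun j hj => ?_
                rw [Function.update_of_ne (Finset.ne_of_mem_erase hj)]
              rw [this]
              push_cast
              ring
            rw [e1]
            ring
        · intro k hk
          rw [Finset.mem_filter] at hk
          simp only [Function.update_idem]
          rw [← hk.2, Function.update_eq_self]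
        · intro k hk
          rw [mem_chars] at hk
          simp only [Function.update_idem]
          rw [← hk.2.1 j0 hj0, Function.update_eq_self]
      · intro k hk
        have hk' := (mem_chars D _ _ _).1 (Finset.mem_coe.1 hk)
        rw [Finset.coe_range, Set.mem_Iio]
        exact hk'.1 j0 (Finset.mem_insert_self _ _)
    have hMK : D.MK (insert j0 K) = Nat.lcm (D.d j0) (D.MK K) := by
      unfold Data.MK
      rw [Finset.lcm_insert]
      rfl
    rw [hcard]
    simp only [ih]
    rw [← Finset.sum_filter, Finset.sum_const, smul_eq_mul]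
    by_cases hx : ∃ z : ℤ, x * D.MK (insert j0 K) = z
    · rw [if_pos hx]
      rw [hMK] at hx
      rw [E9_count (D.MK K) (D.d j0) (E9_pos D K) (D.hd j0) x hx, hMK, Finset.prod_insert hj0]
      obtain ⟨q, hq⟩ := E9_dvd D K
      rw [hq, Nat.mul_div_cancel_left _ (E9_pos D K)]
      have h7 : D.d j0 * (D.MK K * q) =
          (Nat.gcd (D.d j0) (D.MK K) * q) * Nat.lcm (D.d j0) (D.MK K) := by
        rw [← mul_assoc, ← Nat.gcd_mul_lcm (D.d j0) (D.MK K)]
        ring
      rw [h7, Nat.mul_div_cancel _ (Nat.lcm_pos (D.hd j0) (E9_pos D K))]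
    · rw [if_neg hx]
      have : (Finset.range (D.d j0)).filter
          (fun c : ℕ => ∃ z : ℤ, (x - (c : ℚ) / D.d j0) * D.MK K = z) = ∅ := by
        rw [Finset.filter_eq_empty_iff]
        rintro c hc ⟨z, hz⟩
        apply hx
        rw [hMK]
        obtain ⟨u, hu⟩ := Nat.dvd_lcm_left (D.d j0) (D.MK K)
        obtain ⟨v, hv⟩ := Nat.dvd_lcm_right (D.d j0) (D.MK K)
        refine ⟨z * v + c * u, ?_⟩
        have hd0 : (D.d j0 : ℚ) ≠ 0 := by exact_mod_cast (D.hd j0).ne'
        have h1 : ((Nat.lcm (D.d j0) (D.MK K) : ℕ) : ℚ) = D.MK K * v := by exact_mod_cast hv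
        have h2 : ((Nat.lcm (D.d j0) (D.MK K) : ℕ) : ℚ) = D.d j0 * u := by exact_mod_cast hu
        have h3 : x = (x - (c : ℚ) / D.d j0) + (c : ℚ) / D.d j0 := by ring
        rw [h3, add_mul]
        nth_rewrite 1 [h1]
        rw [h2, ← mul_assoc, hz]
        push_cast
        field_simp
      rw [this]
      simp

end MotMono.Kum
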