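import Pool.Agent.Lib.MP_4e5fcd_ag.Kum.Z3
import Pool.Agent.Lib.MP_4e5fcd_ag.Kum.E9
import Pool.Agent.Lib.MP_4e5fcd_ag.Kum.E10

/-! # KUM-E12b: the choice of the stratum -/

open MvPolynomial

namespace MotMono.Kum

variable {N : ℕ} {J : Type} [Fintype J] [DecidableEq J] (D : Data N J)

theorem e12b_mem_ZR {R : Finset (J ⊕ Fin N)} {j : Fin N} : j ∈ ZR R ↔ Sum.inr j ∈ R := by
  simp [ZR]

theorem e12b_mem_Zb {R : Finset (J ⊕ Fin N)} {j : Fin N} :
    j ∈ D.Zb R ↔ Sum.inr j ∈ R ∧ 1 ≤ D.b j := by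
  simp [Data.Zb]

theorem e12b_mem_supp {k : Fin N → ℕ} {j : Fin N} : j ∈ supp k ↔ k j ≠ 0 := by
  simp [supp]

theorem e12b_inl_SK {R : Finset (J ⊕ Fin N)} {K : Finset (Fin N)} {κ : J} :
    Sum.inl κ ∈ SK R K ↔ Sum.inl κ ∈ R := by
  simp [SK]

theorem e12b_inr_SK {R : Finset (J ⊕ Fin N)} {K : Finset (Fin N)} {j : Fin N} :
    Sum.inr j ∈ SK R K ↔ j ∈ K := by
  simp [SK]

/-- the character with all `k_j = d_j - 1` -/
theorem exists_char (R : Finset (J ⊕ Fin N)) (hR : D.Cl R) (s₀ : ℚ)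
    (hs : s₀ * D.Nn R = -(D.nu R : ℚ)) :
    ∃ k ∈ D.chars (ZR R) (s₀ * D.Nn R / D.M), SK R (supp k ∪ D.Zb R) = R := by
  refine ⟨fun j => if j ∈ ZR R then D.d j - 1 else 0, ?_, ?_⟩
  · rw [mem_chars]
    refine ⟨?_, ?_, (D.r R : ℤ), ?_⟩
    · intro j hj
      simp only [if_pos hj]
      have := D.hd j
      omega
    · intro j hj
      simp only [if_neg hj]
    · have hM : (D.M : ℚ) ≠ 0 := by
        have := M_pos D
        positivity
      have hdiv : ∀ j, ((D.M / D.d j : ℕ) : ℚ) = (D.M : ℚ) / D.d j := by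
        intro j
        rw [Nat.cast_div (dvd_M D j)]
        have := D.hd j
        positivity
      rw [hs]
      unfold Data.nu
      have h1 : ∀ j : Fin N, (((if j ∈ ZR R then D.d j - 1 else 0 : ℕ)) : ℚ) / D.d j =
          if Sum.inr j ∈ R then 1 - 1 / (D.d j : ℚ) else 0 := by
        intro j
        have hd := D.hd j
        have hdq : (D.d j : ℚ) ≠ 0 := by positivity
        by_cases hj : j ∈ ZR R
        · rw [if_pos hj, if_pos (e12b_mem_ZR.1 hj), Nat.cast_sub hd]
          field_simp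
          simp
        · rw [if_neg hj, if_neg (fun h => hj (e12b_mem_ZR.2 h))]
          simp
      rw [Finset.sum_congr rfl fun j _ => h1 j]
      have h2 : (((D.M : ℤ) * (D.r R : ℤ) - ∑ j, if (Sum.inr j : J ⊕ Fin N) ∈ R then
          ((D.M : ℤ) - ((D.M / D.d j : ℕ) : ℤ)) else 0 : ℤ) : ℚ) =
          (D.M : ℚ) * (D.r R - ∑ j, if (Sum.inr j : J ⊕ Fin N) ∈ R then
            1 - 1 / (D.d j : ℚ) else 0) := by
        rw [Int.cast_sub, Int.cast_mul, Int.cast_sum, mul_sub, Finset.mul_sum]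
        congr 1
        refine Finset.sum_congr rfl fun j _ => ?_
        split_ifs
        · rw [Int.cast_sub, Int.cast_natCast, Int.cast_natCast, hdiv]
          ring
        · simp
      have h3 : ∀ j, ((D.M : ℤ) / (D.d j : ℤ)) = ((D.M / D.d j : ℕ) : ℤ) := by
        intro j
        exact (Int.natCast_div _ _).symm
      simp only [h3]
      rw [h2]
      field_simp
      push_cast
      ring
  · ext i
    rcases i with κ | j
    · rw [e12b_inl_SK]
    · rw [e12b_inr_SK, Finset.mem_union, e12b_mem_supp, e12b_mem_Zb]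
      constructor
      · rintro (h | h)
        · by_contra hj
          apply h
          rw [if_neg (fun h => hj (e12b_mem_ZR.1 h))]
        · exact h.1
      · intro hj
        have hact := hR.1 hj
        rw [Data.act, Finset.mem_filter] at hact
        rcases hact.2 j rfl with h | h
        · left
          rw [if_pos (e12b_mem_ZR.2 hj)]
          omega
        · exact Or.inr ⟨hj, h⟩

/-- the choice of the stratum -/
theorem exists_stratum (R : Finset (J ⊕ Fin N)) (hR : D.Cl R) (hc : D.Conn R)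
    (hN : 0 < D.Nn R) (s₀ : ℚ) (hs : s₀ * D.Nn R = -(D.nu R : ℚ)) :
    ∃ R₁, D.Cl R₁ ∧ 0 < D.Nn R₁ ∧ ((∃ κ, Sum.inl κ ∈ R₁) ∨ ∃ j, R₁ = {Sum.inr j} ∧ 1 ≤ D.b j) ∧
      (∃ k ∈ D.chars (ZR R₁) (s₀ * D.Nn R₁ / D.M), D.Conn (SK R₁ (supp k ∪ D.Zb R₁))) ∧
      ∀ k ∈ D.chars (ZR R₁) (s₀ * D.Nn R₁ / D.M), D.Conn (SK R₁ (supp k ∪ D.Zb R₁)) →
        D.r (SK R₁ (supp k ∪ D.Zb R₁)) = D.r R₁ := by
  classical
  obtain ⟨k', hk', hk'R⟩ := exists_char D R hR s₀ hs
  set x : ℚ := s₀ * D.Nn R / D.M with hx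
  set CC := (D.chars (ZR R) x).filter (fun k => D.Conn (SK R (supp k ∪ D.Zb R))) with hCC
  have hne : CC.Nonempty := ⟨k', by
    rw [hCC, Finset.mem_filter]
    refine ⟨hk', ?_⟩
    rw [hk'R]
    exact hc⟩
  obtain ⟨k₀, hk₀, hmin⟩ := Finset.exists_min_image CC
    (fun k => D.r (SK R (supp k ∪ D.Zb R))) hne
  rw [hCC, Finset.mem_filter] at hk₀
  obtain ⟨hk₀c, hk₀C⟩ := hk₀
  rw [mem_chars] at hk₀c
  obtain ⟨hk1, hk2, hk3⟩ := hk₀c
  set T := SK R (supp k₀ ∪ D.Zb R) with hT
  have hTR : T ⊆ R := by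
    intro i hi
    rcases i with κ | j
    · exact e12b_inl_SK.1 hi
    · rw [hT, e12b_inr_SK, Finset.mem_union, e12b_mem_supp, e12b_mem_Zb] at hi
      rcases hi with hi | hi
      · by_contra hj
        exact hi (hk2 j (fun h => hj (e12b_mem_ZR.1 h)))
      · exact hi.1
  obtain ⟨R₁, hCl, hTR₁, hR₁R, hr⟩ := exists_closure D T R hR hTR
  have hinl : ∀ κ, Sum.inl κ ∈ R₁ ↔ Sum.inl κ ∈ R := by
    intro κ
    refine ⟨fun h => hR₁R h, fun h => hTR₁ ?_⟩
    rw [hT, e12b_inl_SK]
    exact h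
  have hZb : D.Zb R₁ = D.Zb R := by
    ext j
    rw [e12b_mem_Zb, e12b_mem_Zb]
    refine ⟨fun h => ⟨hR₁R h.1, h.2⟩, fun h => ⟨hTR₁ ?_, h.2⟩⟩
    rw [hT, e12b_inr_SK, Finset.mem_union, e12b_mem_Zb]
    exact Or.inr h
  have hSK : ∀ K : Finset (Fin N), SK R₁ K = SK R K := by
    intro K
    ext i
    rcases i with κ | j
    · rw [e12b_inl_SK, e12b_inl_SK, hinl]
    · rw [e12b_inr_SK, e12b_inr_SK]
  have hNn : D.Nn R₁ = D.Nn R := by
    unfold Data.Nn
    congr 1
    · congr 1
      refine Finset.sum_congr rfl fun κ _ => ?_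
      by_cases h : Sum.inl κ ∈ R
      · rw [if_pos h, if_pos ((hinl κ).2 h)]
      · rw [if_neg h, if_neg (fun h' => h ((hinl κ).1 h'))]
    · refine Finset.sum_congr rfl fun j _ => ?_
      by_cases hb : D.b j = 0
      · rw [hb]; simp
      · by_cases h : Sum.inr j ∈ R
        · have h' : j ∈ D.Zb R₁ := by
            rw [hZb, e12b_mem_Zb]
            exact ⟨h, by omega⟩
          rw [if_pos h, if_pos (e12b_mem_Zb D |>.1 h').1]
        · rw [if_neg h, if_neg (fun h' => h (hR₁R h'))]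
  have hZR : ∀ j, j ∈ ZR R₁ → j ∈ ZR R := fun j hj =>
    e12b_mem_ZR.2 (hR₁R (e12b_mem_ZR.1 hj))
  refine ⟨R₁, hCl, by rw [hNn]; exact hN, ?_, ⟨k₀, ?_, ?_⟩, ?_⟩
  · by_cases hκ : ∃ κ, Sum.inl κ ∈ R₁
    · exact Or.inl hκ
    · right
      have hcoordT : T = (supp k₀ ∪ D.Zb R).map ⟨Sum.inr, Sum.inr_injective⟩ := by
        ext i
        rcases i with κ | j
        · rw [hT, e12b_inl_SK, ← hinl]
          simp only [Finset.mem_map, Function.Embedding.coeFn_mk, reduceCtorEq, and_false,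
            exists_false, iff_false]
          exact fun h => hκ ⟨κ, h⟩
        · rw [hT, e12b_inr_SK]
          simp
      have hrT : D.r T = (supp k₀ ∪ D.Zb R).card := by rw [hcoordT, r_coord]
      have hcoordR : R₁ = (ZR R₁).map ⟨Sum.inr, Sum.inr_injective⟩ := by
        ext i
        rcases i with κ | j
        · simp only [Finset.mem_map, Function.Embedding.coeFn_mk, reduceCtorEq, and_false,
            exists_false, iff_false]
          exact fun h => hκ ⟨κ, h⟩
        · simp [ZR]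
      have hrR : D.r R₁ = (ZR R₁).card := by
        conv_lhs => rw [hcoordR]
        rw [r_coord]
      -- `T` has one element
      obtain ⟨hTne, hTc⟩ := hk₀C
      have hcard1 : (supp k₀ ∪ D.Zb R).card = 1 := by
        have hpos : 0 < (supp k₀ ∪ D.Zb R).card := by
          rw [Finset.card_pos]
          by_contra hemp
          rw [Finset.not_nonempty_iff_eq_empty] at hemp
          rw [hcoordT, hemp] at hTne
          simp at hTne
        by_contra hne1
        have h2 : 1 < (supp k₀ ∪ D.Zb R).card := by omega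
        obtain ⟨j₀, hj₀⟩ := Finset.card_pos.1 hpos
        have hsplit : {j₀} ∪ ((supp k₀ ∪ D.Zb R).erase j₀) = supp k₀ ∪ D.Zb R := by
          rw [← Finset.insert_eq, Finset.insert_erase hj₀]
        have h4 := hTc (({j₀} : Finset (Fin N)).map ⟨Sum.inr, Sum.inr_injective⟩)
          (((supp k₀ ∪ D.Zb R).erase j₀).map ⟨Sum.inr, Sum.inr_injective⟩)
          (by simp) (by
            rw [Finset.map_nonempty, ← Finset.card_pos, Finset.card_erase_of_mem hj₀]
            omega)
          (by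
            rw [Finset.disjoint_map]
            simp)
          (by rw [← Finset.map_union, hsplit, ← hcoordT])
        rw [r_coord, r_coord, hrT, Finset.card_erase_of_mem hj₀, Finset.card_singleton] at h4
        omega
      -- there is a coordinate with `b_j ≥ 1`
      obtain ⟨j₁, hj₁, hb₁⟩ : ∃ j, Sum.inr j ∈ R₁ ∧ D.b j ≠ 0 := by
        by_contra hcon
        push Not at hcon
        have h0 : D.Nn R₁ = 0 := (Nn_eq_zero_iff D R₁).2
          ⟨fun κ h => hκ ⟨κ, h⟩, hcon⟩
        rw [hNn] at h0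
        omega
      refine ⟨j₁, ?_, by omega⟩
      have hc1 : (ZR R₁).card = 1 := by rw [← hrR, hr, hrT, hcard1]
      have hmem : j₁ ∈ ZR R₁ := e12b_mem_ZR.2 hj₁
      obtain ⟨j₂, hj₂⟩ := Finset.card_eq_one.1 hc1
      rw [hj₂, Finset.mem_singleton] at hmem
      rw [hcoordR, hj₂, ← hmem]
      simp
  · rw [hNn, ← hx, mem_chars]
    refine ⟨fun j hj => hk1 j (hZR j hj), fun j hj => ?_, hk3⟩
    by_contra hne0
    apply hj
    apply e12b_mem_ZR.2
    apply hTR₁
    rw [hT, e12b_inr_SK, Finset.mem_union, e12b_mem_supp]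
    exact Or.inl hne0
  · rw [hSK, hZb]
    exact hk₀C
  · intro k hk hkC
    rw [hNn, ← hx, mem_chars] at hk
    have hk' : k ∈ CC := by
      rw [hCC, Finset.mem_filter, mem_chars]
      refine ⟨⟨fun j hj => ?_, fun j hj => ?_, hk.2.2⟩, ?_⟩
      · by_cases h : j ∈ ZR R₁
        · exact hk.1 j h
        · rw [hk.2.1 j h]
          exact D.hd j
      · exact hk.2.1 j (fun h => hj (hZR j h))
      · rw [hSK, hZb] at hkC
        exact hkC
    apply le_antisymm
    · apply (r_rk D).mono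
      intro i hi
      rcases i with κ | j
      · exact e12b_inl_SK.1 hi
      · rw [e12b_inr_SK, Finset.mem_union, e12b_mem_supp, e12b_mem_Zb] at hi
        rcases hi with hi | hi
        · by_contra hj
          exact hi (hk.2.1 j (fun h => hj (e12b_mem_ZR.1 h)))
        · exact hi.1
    · rw [hr, hSK, hZb]
      exact hmin k hk'

end MotMono.Kum
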