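import Pool.Agent.Lib.MP_4e5fcd_ag.Kum.E12a
import Pool.Agent.Lib.MP_4e5fcd_ag.Kum.E12b

/-! # KUM-E12: an eigenvalue of nonzero multiplicity -/

open MvPolynomial

namespace MotMono.Kum

variable {N : ℕ} {J : Type} [Fintype J] [DecidableEq J] (D : Data N J)

open Classical in
theorem mult_ne_zero (R : Finset (J ⊕ Fin N)) (hR : D.Cl R) (hc : D.Conn R)
    (hN : 0 < D.Nn R) (s₀ : ℚ) (hs : s₀ * D.Nn R = -(D.nu R : ℚ)) :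
    ∃ R₁, D.Cl R₁ ∧ 0 < D.Nn R₁ ∧ ∃ i₁, ((∃ κ, i₁ = Sum.inl κ ∧ i₁ ∈ R₁) ∨
        ∃ j, i₁ = Sum.inr j ∧ R₁ = {Sum.inr j} ∧ 1 ≤ D.b j) ∧
      ∀ χ : K0 →+* ℤ, IsEulerChar χ →
        ∑ K ∈ (ZR R₁).powerset.filter (fun K => D.Zb R₁ ⊆ K),
          (if ∃ z : ℤ, s₀ * D.nK R₁ K = z then
            (((∏ j ∈ K, D.d j) / D.MK K : ℕ) : ℤ) * χ (cls (D.hset R₁ i₁ K)) else 0) ≠ 0 := by
  obtain ⟨R₁, hCl, hNn, hcase, ⟨k₀, hk₀, hconn⟩, hrank⟩ := exists_stratum D R hR hc hN s₀ hs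
  have hmain : ∀ i₁ : J ⊕ Fin N, (∀ k : Fin N → ℕ, i₁ ∈ SK R₁ (supp k ∪ D.Zb R₁)) →
      ∀ χ : K0 →+* ℤ, IsEulerChar χ →
        ∑ K ∈ (ZR R₁).powerset.filter (fun K => D.Zb R₁ ⊆ K),
          (if ∃ z : ℤ, s₀ * D.nK R₁ K = z then
            (((∏ j ∈ K, D.d j) / D.MK K : ℕ) : ℤ) * χ (cls (D.hset R₁ i₁ K)) else 0) ≠ 0 := by
    intro i₁ hi₁ χ hχ hzero
    rw [mult_eq] at hzero
    have h1 : ∀ k ∈ D.chars (ZR R₁) (s₀ * D.Nn R₁ / D.M),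
        χ (cls (Bset ⊤ D.lam (SK R₁ (supp k ∪ D.Zb R₁)) i₁)) =
          -h2t D.r (SK R₁ (supp k ∪ D.Zb R₁)) := fun k _ => chi_Bset_eq D χ hχ _ i₁ (hi₁ k)
    rw [Finset.sum_congr rfl h1, Finset.sum_neg_distrib, neg_eq_zero] at hzero
    have h2 : ∑ k ∈ D.chars (ZR R₁) (s₀ * D.Nn R₁ / D.M),
        (-1 : ℤ) ^ D.r R₁ * h2t D.r (SK R₁ (supp k ∪ D.Zb R₁)) = 0 := by
      rw [← Finset.mul_sum, hzero, mul_zero]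
    have h3 : 0 < ∑ k ∈ D.chars (ZR R₁) (s₀ * D.Nn R₁ / D.M),
        (-1 : ℤ) ^ D.r R₁ * h2t D.r (SK R₁ (supp k ∪ D.Zb R₁)) := by
      apply Finset.sum_pos'
      · intro k hk
        by_cases hck : D.Conn (SK R₁ (supp k ∪ D.Zb R₁))
        · have h4 := h2t_pos D _ hck
          rw [hrank k hk hck] at h4
          exact h4.le
        · rw [h2t_eq_zero D _ ⟨i₁, hi₁ k⟩ hck, mul_zero]
      · refine ⟨k₀, hk₀, ?_⟩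
        have h4 := h2t_pos D _ hconn
        rwa [hrank k₀ hk₀ hconn] at h4
    rw [h2] at h3
    exact lt_irrefl _ h3
  rcases hcase with ⟨κ, hκ⟩ | ⟨j, hj, hb⟩
  · refine ⟨R₁, hCl, hNn, Sum.inl κ, Or.inl ⟨κ, rfl, hκ⟩, hmain _ fun k => ?_⟩
    rw [SK, Finset.mem_filter]
    exact ⟨Finset.mem_univ _, Or.inl ⟨κ, rfl, hκ⟩⟩
  · refine ⟨R₁, hCl, hNn, Sum.inr j, Or.inr ⟨j, rfl, hj, hb⟩, hmain _ fun k => ?_⟩
    rw [SK, Finset.mem_filter]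
    refine ⟨Finset.mem_univ _, Or.inr ⟨j, rfl, Finset.mem_union_right _ ?_⟩⟩
    rw [Data.Zb, Finset.mem_filter, hj]
    exact ⟨Finset.mem_univ _, Finset.mem_singleton_self _, hb⟩

end MotMono.Kum
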