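import Pool.Agent.Lib.MP_4e5fcd_ag.Kum.S4a

/-! # KUM-E8: from the strata to the complements of arrangements -/

open MvPolynomial

namespace MotMono.Kum

variable {N : ℕ} {J : Type} [Fintype J] [DecidableEq J] (D : Data N J)

theorem sum_hset (χ : K0 →+* ℤ) (R : Finset (J ⊕ Fin N)) (i₁ : J ⊕ Fin N)
    (K₀ : Finset (Fin N)) (hK₀ : K₀ ⊆ ZR R) :
    ∑ K ∈ (ZR R).powerset.filter (fun K => K₀ ⊆ K), χ (cls (D.hset R i₁ K)) =
      χ (cls (Bset ⊤ D.lam (SK R K₀) i₁)) := by
  classical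
  rw [← map_sum, ← cls_biUnion _ (fun K _ => constr_hset D R i₁ K)]
  · congr 2
    ext v
    simp only [Set.mem_iUnion, exists_prop]
    have hlam : ∀ j : Fin N, D.lam (Sum.inr j) ⬝ᵥ v = v j := by
      intro j
      show (Pi.single j (1:ℂ) : Fin N → ℂ) ⬝ᵥ v = v j
      rw [single_dotProduct, one_mul]
    constructor
    · rintro ⟨K, hK, h1, h2, h3⟩
      rw [Finset.mem_filter, Finset.mem_powerset] at hK
      refine ⟨trivial, h1, fun i hi => ?_⟩
      rw [SK, Finset.mem_filter] at hi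
      rcases hi.2 with ⟨κ, rfl, hκ⟩ | ⟨j, rfl, hj⟩
      · exact h2 κ hκ
      · rw [hlam]
        have h4 : j ∈ ZR R := hK₀ hj
        rw [ZR, Finset.mem_filter] at h4
        exact (h3 j h4.2).1 (hK.2 hj)
    · rintro ⟨-, h1, h2⟩
      refine ⟨(ZR R).filter fun j => v j ≠ 0, ?_, h1, ?_, ?_⟩
      · rw [Finset.mem_filter, Finset.mem_powerset]
        refine ⟨Finset.filter_subset _ _, fun j hj => ?_⟩
        rw [Finset.mem_filter]
        refine ⟨hK₀ hj, ?_⟩
        have h3 := h2 (Sum.inr j) (by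
          rw [SK, Finset.mem_filter]
          exact ⟨Finset.mem_univ _, Or.inr ⟨j, rfl, hj⟩⟩)
        rwa [hlam] at h3
      · intro κ hκ
        exact h2 (Sum.inl κ) (by
          rw [SK, Finset.mem_filter]
          exact ⟨Finset.mem_univ _, Or.inl ⟨κ, rfl, hκ⟩⟩)
      · intro j hj
        rw [Finset.mem_filter, ZR, Finset.mem_filter]
        exact ⟨fun h => h.2, fun h => ⟨⟨Finset.mem_univ _, hj⟩, h⟩⟩
  · intro K hK K' hK' hne
    rw [Finset.mem_filter, Finset.mem_powerset] at hK hK'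
    rw [Set.disjoint_left]
    rintro v ⟨-, -, h3⟩ ⟨-, -, h3'⟩
    apply hne
    ext j
    constructor
    · intro hj
      have h4 := hK.1 hj
      rw [ZR, Finset.mem_filter] at h4
      exact (h3' j h4.2).2 ((h3 j h4.2).1 hj)
    · intro hj
      have h4 := hK'.1 hj
      rw [ZR, Finset.mem_filter] at h4
      exact (h3 j h4.2).2 ((h3' j h4.2).1 hj)

end MotMono.Kum
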