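import Pool.Agent.Lib.MP_4e5fcd_ag.Kum.E7a
import Pool.Agent.Lib.MP_4e5fcd_ag.Kum.E8
import Pool.Agent.Lib.MP_4e5fcd_ag.Kum.E9

/-! # KUM-E12a: the multiplicity of an eigenvalue -/

open MvPolynomial

namespace MotMono.Kum

variable {N : ℕ} {J : Type} [Fintype J] [DecidableEq J] (D : Data N J)

private theorem e12a_Zb_sub (R : Finset (J ⊕ Fin N)) : D.Zb R ⊆ ZR R := by
  intro j hj
  rw [Data.Zb, Finset.mem_filter] at hj
  rw [ZR, Finset.mem_filter]
  exact ⟨Finset.mem_univ _, hj.2.1⟩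

private theorem e12a_chars (K Z : Finset (Fin N)) (hK : K ⊆ Z) (x : ℚ) :
    D.chars K x = (D.chars Z x).filter (fun k => supp k ⊆ K) := by
  ext k
  rw [Finset.mem_filter, mem_chars, mem_chars]
  constructor
  · rintro ⟨h1, h2, h3⟩
    refine ⟨⟨?_, fun j hj => h2 j fun h => hj (hK h), h3⟩, ?_⟩
    · intro j hj
      by_cases h : j ∈ K
      · exact h1 j h
      · rw [h2 j h]
        exact D.hd j
    · intro j hj
      rw [supp, Finset.mem_filter] at hj
      by_contra h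
      exact hj.2 (h2 j h)
  · rintro ⟨⟨h1, h2, h3⟩, h4⟩
    refine ⟨fun j hj => h1 j (hK hj), fun j hj => ?_, h3⟩
    by_contra h
    apply hj
    apply h4
    rw [supp, Finset.mem_filter]
    exact ⟨Finset.mem_univ _, h⟩

open Classical in
theorem mult_eq (χ : K0 →+* ℤ) (R : Finset (J ⊕ Fin N)) (i₁ : J ⊕ Fin N) (s₀ : ℚ) :
    ∑ K ∈ (ZR R).powerset.filter (fun K => D.Zb R ⊆ K),
      (if ∃ z : ℤ, s₀ * D.nK R K = z then
        (((∏ j ∈ K, D.d j) / D.MK K : ℕ) : ℤ) * χ (cls (D.hset R i₁ K)) else 0) =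
      ∑ k ∈ D.chars (ZR R) (s₀ * D.Nn R / D.M),
        χ (cls (Bset ⊤ D.lam (SK R (supp k ∪ D.Zb R)) i₁)) := by
  have hM : (D.M : ℚ) ≠ 0 := by
    have h1 : 0 < D.M := Finset.prod_pos fun j _ => D.hd j
    exact_mod_cast h1.ne'
  have hstep : ∀ K ∈ (ZR R).powerset.filter (fun K => D.Zb R ⊆ K),
      (if ∃ z : ℤ, s₀ * D.nK R K = z then
        (((∏ j ∈ K, D.d j) / D.MK K : ℕ) : ℤ) * χ (cls (D.hset R i₁ K)) else 0) =
      ∑ k ∈ D.chars (ZR R) (s₀ * D.Nn R / D.M),
        if supp k ⊆ K then χ (cls (D.hset R i₁ K)) else 0 := by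
    intro K hK
    rw [Finset.mem_filter, Finset.mem_powerset] at hK
    have h1 : s₀ * D.nK R K = s₀ * D.Nn R / D.M * D.MK K := by
      have h2 := M_mul_nK D R K hK.2
      have h3 : (D.M : ℚ) * D.nK R K = D.Nn R * D.MK K := by exact_mod_cast h2
      field_simp
      linear_combination s₀ * h3
    have h4 := card_chars D K (s₀ * D.Nn R / D.M)
    rw [← Finset.sum_filter, ← e12a_chars D K (ZR R) hK.1, Finset.sum_const, h4, h1, nsmul_eq_mul]
    split_ifs
    · rfl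
    · simp
  rw [Finset.sum_congr rfl hstep, Finset.sum_comm]
  refine Finset.sum_congr rfl fun k hk => ?_
  rw [← Finset.sum_filter, Finset.filter_filter]
  have hsub : supp k ∪ D.Zb R ⊆ ZR R := by
    apply Finset.union_subset _ (e12a_Zb_sub D R)
    intro j hj
    rw [supp, Finset.mem_filter] at hj
    by_contra h
    exact hj.2 (((mem_chars D _ _ _).1 hk).2.1 j h)
  rw [← sum_hset D χ R i₁ _ hsub]
  refine Finset.sum_congr ?_ fun _ _ => rfl
  ext K
  rw [Finset.mem_filter, Finset.mem_filter, Finset.union_subset_iff, and_comm (a := D.Zb R ⊆ K)]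

end MotMono.Kum
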