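import Pool.Agent.Lib.MP_4e5fcd_ag.Kum.S2

/-! # KUM-Z3: periodicity in the level -/

open MvPolynomial

namespace MotMono.Kum

variable {N : ℕ} {J : Type} [Fintype J] [DecidableEq J] (D : Data N J)

theorem M_pos : 0 < D.M := Finset.prod_pos fun j _ => D.hd j

theorem dvd_M (j : Fin N) : D.d j ∣ D.M := Finset.dvd_prod_of_mem D.d (Finset.mem_univ j)

theorem Z3_dvd_add_M (j : Fin N) (l : ℕ) : D.d j ∣ l + D.M ↔ D.d j ∣ l :=
  (Nat.dvd_add_iff_left (dvd_M D j)).symm

theorem Psi_add_M (R : Finset (J ⊕ Fin N)) (l : ℕ) : D.Psi R (l + D.M) = D.Psi R l := by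
  have h1 : ∀ j, D.rr (l + D.M) j = D.rr l j := by
    intro j
    unfold Data.rr
    obtain ⟨c, hc⟩ := dvd_M D j
    rw [hc, Nat.add_mul_mod_self_left]
  have h2 : ∀ (n : ℕ) (x : Fin N × Fin n → ℂ), D.FF R (l + D.M) x = D.FF R l x := by
    intro n x
    unfold Data.FF Data.yy
    simp only [h1]
  unfold Data.Psi Data.oset
  simp only [h2]

/-- the number of multiples of a divisor in a full period -/
theorem Z3_count (d M l : ℕ) (hd : d ∣ M) :
    ((Finset.range M).filter fun i => d ∣ l + i).card = M / d := by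
  have hper : Function.Periodic (fun x => d ∣ x) M := by
    intro x
    exact propext (Nat.dvd_add_iff_left hd).symm
  have h1 := Nat.filter_Ico_card_eq_of_periodic l M (fun x => d ∣ x) hper
  have h2 := Nat.filter_Ico_card_eq_of_periodic 1 M (fun x => d ∣ x) hper
  have h3 : ((Finset.Ico 1 (1 + M)).filter fun x => d ∣ x) =
      (Finset.Ioc 0 M).filter fun x => d ∣ x := by
    ext x
    simp only [Finset.mem_filter, Finset.mem_Ico, Finset.mem_Ioc]
    constructor
    · rintro ⟨⟨a, b⟩, c⟩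
      exact ⟨⟨by omega, by omega⟩, c⟩
    · rintro ⟨⟨a, b⟩, c⟩
      exact ⟨⟨by omega, by omega⟩, c⟩
  rw [h3, Nat.Ioc_filter_dvd_card_eq_div] at h2
  have h4 : ((Finset.range M).filter fun i => d ∣ l + i).card =
      ((Finset.Ico l (l + M)).filter fun x => d ∣ x).card := by
    apply Finset.card_bij (fun i _ => l + i)
    · intro i hi
      simp only [Finset.mem_filter, Finset.mem_range, Finset.mem_Ico] at hi ⊢
      exact ⟨⟨by omega, by omega⟩, hi.2⟩
    · intro i _ j _ h
      omega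
    · intro x hx
      simp only [Finset.mem_filter, Finset.mem_Ico] at hx
      refine ⟨x - l, ?_, by omega⟩
      simp only [Finset.mem_filter, Finset.mem_range]
      refine ⟨by omega, ?_⟩
      have h5 : l + (x - l) = x := by omega
      rw [h5]
      exact hx.2
  rw [h4, h1, h2]

theorem sum_wt (R : Finset (J ⊕ Fin N)) (l : ℕ) :
    ∑ i ∈ Finset.range D.M, D.wt R (l + i) = D.Nn R := by
  unfold Data.wt Data.Nn
  rw [Finset.sum_add_distrib, Finset.sum_const, Finset.card_range, smul_eq_mul, Finset.sum_comm]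
  congr 1
  apply Finset.sum_congr rfl
  intro j _
  by_cases hj : Sum.inr j ∈ R
  · rw [if_pos hj]
    have h1 : ∀ i ∈ Finset.range D.M, (if Sum.inr j ∈ R ∧ D.d j ∣ l + i then D.b j else 0) =
        if D.d j ∣ l + i then D.b j else 0 := by
      intro i _
      by_cases h : D.d j ∣ l + i
      · rw [if_pos h, if_pos ⟨hj, h⟩]
      · rw [if_neg h, if_neg (fun h' => h h'.2)]
    rw [Finset.sum_congr rfl h1, ← Finset.sum_filter, Finset.sum_const, Z3_count _ _ _ (dvd_M D j),
      smul_eq_mul, mul_comm]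
  · rw [if_neg hj]
    apply Finset.sum_eq_zero
    intro i _
    rw [if_neg (fun h' => hj h'.1)]

theorem sum_cod (R : Finset (J ⊕ Fin N)) (l : ℕ) :
    ∑ i ∈ Finset.range D.M, D.cod R (l + i) = D.nu R := by
  unfold Data.cod Data.nu
  rw [Finset.sum_sub_distrib, Finset.sum_const, Finset.card_range, nsmul_eq_mul, Finset.sum_comm]
  congr 1
  apply Finset.sum_congr rfl
  intro j _
  by_cases hj : Sum.inr j ∈ R
  · rw [if_pos hj]
    have h1 : ∀ i ∈ Finset.range D.M, (if Sum.inr j ∈ R ∧ ¬ D.d j ∣ l + i then (1 : ℤ) else 0) =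
        1 - if D.d j ∣ l + i then 1 else 0 := by
      intro i _
      by_cases h : D.d j ∣ l + i
      · rw [if_pos h, if_neg (fun h' => h'.2 h), sub_self]
      · rw [if_neg h, if_pos ⟨hj, h⟩, sub_zero]
    rw [Finset.sum_congr rfl h1, Finset.sum_sub_distrib, Finset.sum_const, Finset.card_range,
      ← Finset.sum_filter, Finset.sum_const, Z3_count _ _ _ (dvd_M D j), nsmul_eq_mul,
      nsmul_eq_mul, mul_one, mul_one, Int.natCast_div]
  · rw [if_neg hj]
    apply Finset.sum_eq_zero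
    intro i _
    rw [if_neg (fun h' => hj h'.1)]

/-- a state of total order zero -/
theorem Nn_eq_zero_iff (R : Finset (J ⊕ Fin N)) :
    D.Nn R = 0 ↔ (∀ κ, Sum.inl κ ∉ R) ∧ ∀ j, Sum.inr j ∈ R → D.b j = 0 := by
  unfold Data.Nn
  rw [Nat.add_eq_zero_iff, Nat.mul_eq_zero, Finset.sum_eq_zero_iff, Finset.sum_eq_zero_iff]
  constructor
  · rintro ⟨h1, h2⟩
    constructor
    · intro κ hκ
      rcases h1 with h1 | h1
      · exact (M_pos D).ne' h1
      · have h3 := h1 κ (Finset.mem_univ _)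
        rw [if_pos hκ] at h3
        exact (D.hm κ).ne' h3
    · intro j hj
      have h3 := h2 j (Finset.mem_univ _)
      rw [if_pos hj, Nat.mul_eq_zero] at h3
      rcases h3 with h3 | h3
      · exact h3
      · exfalso
        have h4 : 0 < D.M / D.d j := Nat.div_pos (Nat.le_of_dvd (M_pos D) (dvd_M D j)) (D.hd j)
        omega
  · rintro ⟨h1, h2⟩
    refine ⟨Or.inr fun κ _ => if_neg (h1 κ), fun j _ => ?_⟩
    by_cases hj : Sum.inr j ∈ R
    · rw [if_pos hj, h2 j hj, zero_mul]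
    · rw [if_neg hj]

theorem FF_of_Nn_eq_zero (R : Finset (J ⊕ Fin N)) (hR : D.Nn R = 0) (l : ℕ) {n : ℕ}
    (x : Fin N × Fin n → ℂ) : D.FF R l x = 1 := by
  obtain ⟨h1, h2⟩ := (Nn_eq_zero_iff D R).mp hR
  unfold Data.FF
  rw [Finset.prod_eq_one, Finset.prod_eq_one, mul_one]
  · intro κ _
    rw [if_neg (h1 κ)]
  · intro j _
    by_cases hj : Sum.inr j ∈ R
    · rw [if_pos hj, h2 j hj, pow_zero]
    · rw [if_neg hj]

theorem wt_of_Nn_eq_zero (R : Finset (J ⊕ Fin N)) (hR : D.Nn R = 0) (l : ℕ) :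
    D.wt R l = 0 := by
  obtain ⟨h1, h2⟩ := (Nn_eq_zero_iff D R).mp hR
  unfold Data.wt
  have e1 : (∑ κ, if Sum.inl κ ∈ R then D.m κ else 0) = 0 :=
    Finset.sum_eq_zero fun κ _ => if_neg (h1 κ)
  have e2 : (∑ j, if Sum.inr j ∈ R ∧ D.d j ∣ l then D.b j else 0) = 0 := by
    apply Finset.sum_eq_zero
    intro j _
    by_cases hj : Sum.inr j ∈ R ∧ D.d j ∣ l
    · rw [if_pos hj, h2 j hj.1]
    · rw [if_neg hj]
  rw [e1, e2]

theorem Nn_mono {R R' : Finset (J ⊕ Fin N)} (h : R' ⊆ R) : D.Nn R' ≤ D.Nn R := by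
  unfold Data.Nn
  apply Nat.add_le_add
  · apply Nat.mul_le_mul_left
    apply Finset.sum_le_sum
    intro κ _
    by_cases hκ : Sum.inl κ ∈ R'
    · rw [if_pos hκ, if_pos (h hκ)]
    · rw [if_neg hκ]
      exact Nat.zero_le _
  · apply Finset.sum_le_sum
    intro j _
    by_cases hj : Sum.inr j ∈ R'
    · rw [if_pos hj, if_pos (h hj)]
    · rw [if_neg hj]
      exact Nat.zero_le _

end MotMono.Kum
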