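import Pool.Agent.Lib.MP_4e5fcd_ag.Kum.Z1
import Pool.Agent.Lib.MP_4e5fcd_ag.Kum.Z3
import Pool.Agent.Lib.MP_4e5fcd_ag.Kum.E10a

/-! # KUM-E2: base points -/

open MvPolynomial

namespace MotMono.Kum

variable {N : ℕ} {J : Type} [Fintype J] [DecidableEq J] (D : Data N J)

/-- a vector of `V` which is in none of finitely many subspaces not containing `V` -/
theorem e2_avoid {E ι : Type} [AddCommGroup E] [Module ℂ E] [Finite ι]
    (V : Submodule ℂ E) (p : ι → Submodule ℂ E) (h : ∀ i, ¬ V ≤ p i) :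
    ∃ v ∈ V, ∀ i, v ∉ p i := by
  by_contra hcon
  push Not at hcon
  have hcov : ⋃ i, ((p i).comap V.subtype : Set V) = Set.univ := by
    ext v
    simp only [Set.mem_iUnion, SetLike.mem_coe, Submodule.mem_comap, Submodule.subtype_apply,
      Set.mem_univ, iff_true]
    exact hcon v v.2
  obtain ⟨i, hi⟩ := Subspace.exists_eq_top_of_iUnion_eq_univ hcov
  apply h i
  intro v hv
  have : (⟨v, hv⟩ : V) ∈ (p i).comap V.subtype := by rw [hi]; trivial
  exact this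

/-- a point near the origin on exactly the hyperplanes of a flat -/
theorem exists_pt_lin (R : Finset (J ⊕ Fin N)) (hR : D.Cl R) (ε : ℝ) (hε : 0 < ε) :
    ∃ q : Fin N → ℂ, ‖q‖ < ε ∧ ∀ i ∈ D.act, (i ∈ R ↔ D.lam i ⬝ᵥ q = 0) := by
  obtain ⟨v, hv, hv'⟩ := e2_avoid (ι := {i : J ⊕ Fin N // i ∈ D.act ∧ i ∉ R}) (KK D.lam R)
    (fun i => LinearMap.ker (h3form (D.lam i))) (by
      rintro ⟨i, hi, hiR⟩ hle
      refine hiR (hR.2 i hi ((r_insert_eq_iff D R i).mpr ?_))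
      intro w hw
      exact hle hw)
  have hpos : 0 < ‖v‖ + 1 := by positivity
  set c : ℂ := ((ε / (2 * (‖v‖ + 1)) : ℝ) : ℂ) with hc
  have hc0 : c ≠ 0 := by
    rw [hc]
    exact_mod_cast (div_pos hε (by positivity)).ne'
  refine ⟨c • v, ?_, ?_⟩
  · rw [norm_smul, hc, Complex.norm_real, Real.norm_of_nonneg (by positivity)]
    have h1 : ε / (2 * (‖v‖ + 1)) * ‖v‖ ≤ ε / 2 := by
      rw [div_mul_eq_mul_div, div_le_div_iff₀ (by positivity) (by norm_num)]
      nlinarith [norm_nonneg v]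
    linarith
  · intro i hi
    rw [dotProduct_smul, smul_eq_mul, mul_eq_zero]
    constructor
    · intro hiR
      exact Or.inr (hv i hiR)
    · rintro (h | h)
      · exact absurd h hc0
      · by_contra hiR
        exact hv' ⟨i, hi, hiR⟩ h

theorem e2_yv (v : Fin N → ℂ) (j : Fin N) : D.yv D.act 0 v j = v j ^ D.d j := by
  unfold Data.yv
  by_cases h : Sum.inr j ∈ D.act
  · rw [if_pos h, if_pos (dvd_zero _)]
  · rw [if_neg h]
    have h1 : D.d j = 1 := by
      have h2 : ¬ 2 ≤ D.d j := by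
        intro h3
        apply h
        unfold Data.act
        rw [Finset.mem_filter]
        refine ⟨Finset.mem_univ _, fun j' hj' => ?_⟩
        rw [← Sum.inr_injective hj']
        exact Or.inl h3
      have := D.hd j
      omega
    rw [h1, pow_one]

theorem exists_pt (R : Finset (J ⊕ Fin N)) (hR : D.Cl R) (ε : ℝ) (hε : 0 < ε) :
    ∃ p : Fin N → ℂ, ‖p‖ < ε ∧ p ∈ D.gset D.act R 0 := by
  set δ : ℝ := min ε 1 with hδ
  have hδ0 : 0 < δ := lt_min hε one_pos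
  have hδ1 : δ ≤ 1 := min_le_right _ _
  set e : ℕ := ∑ j, D.d j with he
  obtain ⟨q, hq, hq'⟩ := exists_pt_lin D R hR (δ ^ e) (pow_pos hδ0 _)
  have hroot : ∀ j, ∃ z : ℂ, z ^ D.d j = q j := fun j =>
    IsAlgClosed.exists_pow_nat_eq (q j) (D.hd j)
  choose p hp using hroot
  refine ⟨p, ?_, ?_⟩
  · rw [pi_norm_lt_iff hε]
    intro j
    have h1 : ‖q j‖ < δ ^ e := lt_of_le_of_lt (norm_le_pi_norm q j) hq
    have h2 : δ ^ e ≤ δ ^ D.d j :=
      pow_le_pow_of_le_one hδ0.le hδ1 (Finset.single_le_sum (f := fun j => D.d j)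
        (fun _ _ => Nat.zero_le _) (Finset.mem_univ j))
    have h3 : ‖p j‖ ^ D.d j < δ ^ D.d j := by
      rw [← norm_pow, hp j]
      exact lt_of_lt_of_le h1 h2
    have h4 : ‖p j‖ < δ := lt_of_pow_lt_pow_left₀ _ hδ0.le h3
    exact lt_of_lt_of_le h4 (min_le_left _ _)
  · intro i hi
    have h1 : D.yv D.act 0 p = q := by
      funext j
      rw [e2_yv, hp]
    rw [h1]
    exact hq' i hi

theorem eval_f_eq_zero (R : Finset (J ⊕ Fin N)) (hR : R ⊆ D.act) (p : Fin N → ℂ)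
    (hp : p ∈ D.gset D.act R 0) (h : 0 < D.Nn R) : eval p D.f = 0 := by
  have h1 : ¬ ((∀ κ, Sum.inl κ ∉ R) ∧ ∀ j, Sum.inr j ∈ R → D.b j = 0) := by
    rw [← Nn_eq_zero_iff D R]
    exact h.ne'
  unfold Data.f diagPoly
  rw [map_mul, map_prod, map_prod]
  by_cases h2 : ∀ κ, Sum.inl κ ∉ R
  · have h3 : ∃ j, Sum.inr j ∈ R ∧ D.b j ≠ 0 := by
      by_contra hcon
      push Not at hcon
      exact h1 ⟨h2, hcon⟩
    obtain ⟨j, hj, hb⟩ := h3
    have h4 : D.lam (Sum.inr j) ⬝ᵥ D.yv D.act 0 p = 0 := (hp _ (hR hj)).mp hj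
    rw [z1_lam_inr, e2_yv] at h4
    have h5 : p j = 0 := (pow_eq_zero_iff (D.hd j).ne').mp h4
    have h6 : ∏ j, eval p (X j ^ D.b j : MvPolynomial (Fin N) ℂ) = 0 := by
      refine Finset.prod_eq_zero (Finset.mem_univ j) ?_
      rw [map_pow, eval_X, h5, zero_pow hb]
    rw [h6, zero_mul]
  · push Not at h2
    obtain ⟨κ, hκ⟩ := h2
    have h4 : D.lam (Sum.inl κ) ⬝ᵥ D.yv D.act 0 p = 0 := (hp _ (hR hκ)).mp hκ
    have h5 : D.yv D.act 0 p = fun j => p j ^ D.d j := funext (e2_yv D p)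
    rw [h5] at h4
    have h6 : ∏ κ, eval p ((∑ j, C (D.a κ j) * X j ^ D.d j) ^ D.m κ : MvPolynomial (Fin N) ℂ) = 0 := by
      refine Finset.prod_eq_zero (Finset.mem_univ κ) ?_
      rw [map_pow, map_sum]
      have h7 : ∑ j, eval p (C (D.a κ j) * X j ^ D.d j : MvPolynomial (Fin N) ℂ) = 0 := by
        rw [← h4]
        unfold Data.lam dotProduct
        refine Finset.sum_congr rfl fun j _ => ?_
        rw [map_mul, map_pow, eval_C, eval_X, Sum.elim_inl]
      rw [h7, zero_pow (D.hm κ).ne']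
    rw [h6, mul_zero]

end MotMono.Kum
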