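import Pool.Agent.Lib.MP_4e5fcd_ag.K2

/-! # KUM-E3: torus actions and Euler characteristics -/

open MvPolynomial

namespace MotMono.Kum

theorem E3_regFun_npow {σ : Type} {E : Set (σ → ℂ)} {f : (σ → ℂ) → ℂ} (hf : RegFun E f) (n : ℕ) :
    RegFun E (fun x => f x ^ n) := by
  induction n with
  | zero => simpa using regFun_const E 1
  | succ n ih =>
    refine (ih.mul hf).congr fun x _ => ?_
    rw [pow_succ]

theorem E3_regFun_zpow {σ : Type} {E : Set (σ → ℂ)} {f : (σ → ℂ) → ℂ} (hf : RegFun E f)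
    (h0 : ∀ x ∈ E, f x ≠ 0) (n : ℤ) : RegFun E (fun x => f x ^ n) := by
  cases n with
  | ofNat n =>
    refine (E3_regFun_npow hf n).congr fun x _ => ?_
    simp
  | negSucc n =>
    refine ((E3_regFun_npow hf (n + 1)).inv fun x hx => pow_ne_zero _ (h0 x hx)).congr
      fun x _ => ?_
    rw [zpow_negSucc]

theorem E3_constr_kummer {σ : Type} {E : Set (σ → ℂ)} (hE : Constr E) (h : MvPolynomial σ ℂ)
    (e : ℕ) : Constr (kummerCover E h e) := by
  have h1 := (hE.comp (Sum.inl : σ → σ ⊕ Unit)).inter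
    (constr_eq (X (Sum.inr ()) ^ e : MvPolynomial (σ ⊕ Unit) ℂ) (rename Sum.inl h))
  have e1 : kummerCover E h e = {x : σ ⊕ Unit → ℂ | (fun j => x (Sum.inl j)) ∈ E} ∩
      {x | eval x (X (Sum.inr ()) ^ e : MvPolynomial (σ ⊕ Unit) ℂ) =
        eval x (rename Sum.inl h)} := by
    ext z
    simp only [kummerCover, Set.mem_inter_iff, Set.mem_ofPred_eq, map_pow, eval_X, eval_rename]
    rfl
  rw [e1]
  exact h1

theorem E3_constr_slice {σ : Type} {E : Set (σ → ℂ)} (hE : Constr E) (h : MvPolynomial σ ℂ) :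
    Constr {x | x ∈ E ∧ eval x h = 1} := by
  have h1 := hE.inter (constr_eq h (1 : MvPolynomial σ ℂ))
  have e1 : {x | x ∈ E ∧ eval x h = 1} = E ∩ {x | eval x h = eval x (1 : MvPolynomial σ ℂ)} := by
    ext x
    simp
  rw [e1]
  exact h1

theorem E3_constr_punct : Constr {ρ : Unit → ℂ | ρ () ≠ 0} := by
  have h1 := constr_ne (X () : MvPolynomial Unit ℂ)
  simpa using h1

theorem E3_chi_punct (χ : K0 →+* ℤ) (hχ : IsEulerChar χ) :
    χ (cls {ρ : Unit → ℂ | ρ () ≠ 0}) = 0 := by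
  have h1 : {ρ : Unit → ℂ | ρ () ≠ 0} = Set.univ \ {fun _ => 0} := by
    ext ρ
    simp only [Set.mem_ofPred_eq, Set.mem_sdiff, Set.mem_univ, Set.mem_singleton_iff, true_and]
    refine not_congr ⟨fun h => funext fun u => ?_, fun h => by rw [h]⟩
    cases u
    exact h
  rw [h1, cls_diff constr_univ (constr_singleton _) (Set.subset_univ _), cls_singleton, map_sub,
    map_one]
  have h2 : χ (cls (Set.univ : Set (Unit → ℂ))) = 1 := hχ.line
  rw [h2, sub_self]

/-- an action of the torus with a nonvanishing function of positive weight -/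
theorem chi_torus (χ : K0 →+* ℤ) (hχ : IsEulerChar χ) {σ : Type} [Finite σ]
    (E : Set (σ → ℂ)) (hE : Constr E) (w : σ → ℤ) (h : MvPolynomial σ ℂ) (e : ℕ) (he : 0 < e)
    (hinv : ∀ x ∈ E, ∀ τ : ℂ, τ ≠ 0 → (fun i => τ ^ w i * x i) ∈ E)
    (h0 : ∀ x ∈ E, eval x h ≠ 0)
    (hw : ∀ x ∈ E, ∀ τ : ℂ, τ ≠ 0 → eval (fun i => τ ^ w i * x i) h = τ ^ e * eval x h) :
    χ (cls E) = 0 := by
  have hne : ∀ z ∈ kummerCover E h e, z (Sum.inr ()) ≠ 0 := by
    intro z hz h1
    have h2 := hz.2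
    rw [h1, zero_pow he.ne'] at h2
    exact h0 _ hz.1 h2.symm
  have hiso : RegIso (kummerCover E h e)
      (prodSet {ρ : Unit → ℂ | ρ () ≠ 0} {x | x ∈ E ∧ eval x h = 1}) := by
    refine ⟨fun z => Sum.elim (fun _ => z (Sum.inr ()))
        (fun i => (z (Sum.inr ()))⁻¹ ^ w i * z (Sum.inl i)),
      fun y => Sum.elim (fun i => y (Sum.inl ()) ^ w i * y (Sum.inr i)) (fun _ => y (Sum.inl ())),
      ?_, ?_, ?_, ?_, ?_, ?_⟩
    · intro s
      rcases s with u | i
      · exact regFun_coord _ _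
      · exact (E3_regFun_zpow ((regFun_coord _ (Sum.inr ())).inv hne)
          (fun x hx => inv_ne_zero (hne x hx)) (w i)).mul (regFun_coord _ _)
    · intro s
      rcases s with i | u
      · exact (E3_regFun_zpow (regFun_coord _ (Sum.inl ())) (fun x hx => hx.1) (w i)).mul
          (regFun_coord _ _)
      · exact regFun_coord _ _
    · intro z hz
      refine ⟨hne z hz, hinv _ hz.1 _ (inv_ne_zero (hne z hz)), ?_⟩
      have h1 := hw _ hz.1 _ (inv_ne_zero (hne z hz))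
      simp only [Sum.elim_inr]
      rw [h1, ← hz.2, inv_pow, inv_mul_cancel₀ (pow_ne_zero _ (hne z hz))]
    · intro y hy
      refine ⟨hinv _ hy.2.1 _ hy.1, ?_⟩
      have h1 := hw _ hy.2.1 _ hy.1
      simp only [Sum.elim_inr, Sum.elim_inl]
      rw [h1, hy.2.2, mul_one]
    · intro z hz
      funext s
      rcases s with i | u
      · simp only [Sum.elim_inr, Sum.elim_inl]
        rw [← mul_assoc, ← mul_zpow, mul_inv_cancel₀ (hne z hz), one_zpow, one_mul]
      · rfl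
    · intro y hy
      funext s
      have hy1 : y (Sum.inl ()) ≠ 0 := hy.1
      rcases s with u | i
      · rfl
      · simp only [Sum.elim_inr, Sum.elim_inl]
        rw [← mul_assoc, ← mul_zpow, inv_mul_cancel₀ hy1, one_zpow, one_mul]
  have h1 := hχ.kummer E hE h h0 e he
  rw [cls_iso (E3_constr_kummer hE h e) (E3_constr_punct.prodSet (E3_constr_slice hE h)) hiso,
    cls_prodSet E3_constr_punct (E3_constr_slice hE h), map_mul, E3_chi_punct χ hχ, zero_mul] at h1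
  have h2 : (e : ℤ) ≠ 0 := by exact_mod_cast he.ne'
  exact (mul_eq_zero.mp h1.symm).resolve_left h2

theorem E3_ne {σ : Type} (E : Set (σ → ℂ)) (h F : MvPolynomial σ ℂ) (e : ℕ)
    (he : 0 < e) (h0 : ∀ x ∈ E, eval x h ≠ 0) :
    ∀ z ∈ kummerCover {x | x ∈ E ∧ eval x F = 1} h e, z (Sum.inr ()) ≠ 0 := by
  intro z hz h1
  have h2 := hz.2
  rw [h1, zero_pow he.ne'] at h2
  exact h0 _ hz.1.1 h2.symm

/-- comparison of two slices of a torus action -/
theorem chi_slice (χ : K0 →+* ℤ) (hχ : IsEulerChar χ) {σ : Type} [Finite σ]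
    (E : Set (σ → ℂ)) (hE : Constr E) (w : σ → ℤ) (h F : MvPolynomial σ ℂ) (e e' : ℕ)
    (he : 0 < e) (he' : 0 < e')
    (hinv : ∀ x ∈ E, ∀ τ : ℂ, τ ≠ 0 → (fun i => τ ^ w i * x i) ∈ E)
    (h0 : ∀ x ∈ E, eval x h ≠ 0) (h0' : ∀ x ∈ E, eval x F ≠ 0)
    (hw : ∀ x ∈ E, ∀ τ : ℂ, τ ≠ 0 → eval (fun i => τ ^ w i * x i) h = τ ^ e * eval x h)
    (hw' : ∀ x ∈ E, ∀ τ : ℂ, τ ≠ 0 → eval (fun i => τ ^ w i * x i) F = τ ^ e' * eval x F) :
    (e : ℤ) * χ (cls {x | x ∈ E ∧ eval x F = 1}) =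
      e' * χ (cls {x | x ∈ E ∧ eval x h = 1}) := by
  rw [← hχ.kummer _ (E3_constr_slice hE F) h (fun x hx => h0 x hx.1) e he,
    ← hχ.kummer _ (E3_constr_slice hE h) F (fun x hx => h0' x hx.1) e' he']
  refine congrArg χ (cls_iso (E3_constr_kummer (E3_constr_slice hE F) h e)
    (E3_constr_kummer (E3_constr_slice hE h) F e') ?_)
  have hne := E3_ne E h F e he h0
  have hne' := E3_ne E F h e' he' h0'
  refine ⟨fun z => Sum.elim (fun i => (z (Sum.inr ()))⁻¹ ^ w i * z (Sum.inl i))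
      (fun _ => (z (Sum.inr ()))⁻¹),
    fun z => Sum.elim (fun i => (z (Sum.inr ()))⁻¹ ^ w i * z (Sum.inl i))
      (fun _ => (z (Sum.inr ()))⁻¹), ?_, ?_, ?_, ?_, ?_, ?_⟩
  · intro s
    rcases s with i | u
    · exact (E3_regFun_zpow ((regFun_coord _ (Sum.inr ())).inv hne)
        (fun x hx => inv_ne_zero (hne x hx)) (w i)).mul (regFun_coord _ _)
    · exact (regFun_coord _ _).inv hne
  · intro s
    rcases s with i | u
    · exact (E3_regFun_zpow ((regFun_coord _ (Sum.inr ())).inv hne')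
        (fun x hx => inv_ne_zero (hne' x hx)) (w i)).mul (regFun_coord _ _)
    · exact (regFun_coord _ _).inv hne'
  · intro z hz
    have h1 := hw _ hz.1.1 _ (inv_ne_zero (hne z hz))
    have h2 := hw' _ hz.1.1 _ (inv_ne_zero (hne z hz))
    refine ⟨⟨hinv _ hz.1.1 _ (inv_ne_zero (hne z hz)), ?_⟩, ?_⟩
    · simp only [Sum.elim_inl]
      rw [h1, ← hz.2, inv_pow, inv_mul_cancel₀ (pow_ne_zero _ (hne z hz))]
    · simp only [Sum.elim_inr, Sum.elim_inl]
      have h3 : eval (fun i => z (Sum.inl i)) F = 1 := hz.1.2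
      rw [h2, h3, mul_one]
  · intro z hz
    have h1 := hw _ hz.1.1 _ (inv_ne_zero (hne' z hz))
    have h2 := hw' _ hz.1.1 _ (inv_ne_zero (hne' z hz))
    refine ⟨⟨hinv _ hz.1.1 _ (inv_ne_zero (hne' z hz)), ?_⟩, ?_⟩
    · simp only [Sum.elim_inl]
      rw [h2, ← hz.2, inv_pow, inv_mul_cancel₀ (pow_ne_zero _ (hne' z hz))]
    · simp only [Sum.elim_inr, Sum.elim_inl]
      have h3 : eval (fun i => z (Sum.inl i)) h = 1 := hz.1.2
      rw [h1, h3, mul_one]
  · intro z hz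
    funext s
    rcases s with i | u
    · simp only [Sum.elim_inr, Sum.elim_inl, inv_inv]
      rw [← mul_assoc, ← mul_zpow, mul_inv_cancel₀ (hne z hz), one_zpow, one_mul]
    · simp only [Sum.elim_inr, inv_inv]
  · intro z hz
    funext s
    rcases s with i | u
    · simp only [Sum.elim_inr, Sum.elim_inl, inv_inv]
      rw [← mul_assoc, ← mul_zpow, mul_inv_cancel₀ (hne' z hz), one_zpow, one_mul]
    · simp only [Sum.elim_inr, inv_inv]

end MotMono.Kum
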