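import Pool.Agent.Lib.MP_4e5fcd_ag.K2

/-! # KUM-E3b: iterated cyclic coverings -/

open MvPolynomial

namespace MotMono.Kum

theorem e3b_constr {N : ℕ} (P : Set (Fin N → ℂ)) (hP : Constr P) (d : Fin N → ℕ)
    (K : Finset (Fin N)) :
    Constr {v : Fin N → ℂ | (fun j => if j ∈ K then v j ^ d j else v j) ∈ P} := by
  classical
  have h := hP.preimage (fun j => if j ∈ K then (X j ^ d j : MvPolynomial (Fin N) ℂ) else X j)
  have e : {x : Fin N → ℂ | (fun j => eval x (if j ∈ K then (X j ^ d j : MvPolynomial (Fin N) ℂ)
      else X j)) ∈ P} = {v : Fin N → ℂ | (fun j => if j ∈ K then v j ^ d j else v j) ∈ P} := by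
    ext x
    have : (fun j => eval x (if j ∈ K then (X j ^ d j : MvPolynomial (Fin N) ℂ) else X j)) =
        fun j => if j ∈ K then x j ^ d j else x j := by
      funext j
      split_ifs <;> simp
    simp only [Set.mem_ofPred_eq]
    rw [this]
  rwa [e] at h

theorem e3b_step (χ : K0 →+* ℤ) (hχ : IsEulerChar χ) {N : ℕ} (P : Set (Fin N → ℂ))
    (hP : Constr P) (j : Fin N) (m : ℕ) (hm : 0 < m) (h0 : ∀ y ∈ P, y j ≠ 0) :
    χ (cls {v : Fin N → ℂ | Function.update v j (v j ^ m) ∈ P}) = m * χ (cls P) := by
  classical
  have hk := hχ.kummer P hP (X j) (fun x hx => by simpa using h0 x hx) m hm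
  rw [← hk]
  congr 1
  have hc : Constr {v : Fin N → ℂ | Function.update v j (v j ^ m) ∈ P} := by
    have h := hP.preimage (fun i => if i = j then (X j ^ m : MvPolynomial (Fin N) ℂ) else X i)
    have e : {x : Fin N → ℂ | (fun i => eval x (if i = j then (X j ^ m : MvPolynomial (Fin N) ℂ)
        else X i)) ∈ P} = {v : Fin N → ℂ | Function.update v j (v j ^ m) ∈ P} := by
      ext x
      have : (fun i => eval x (if i = j then (X j ^ m : MvPolynomial (Fin N) ℂ) else X i)) =
          Function.update x j (x j ^ m) := by
        funext i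
        by_cases hi : i = j
        · subst hi; simp
        · rw [if_neg hi, Function.update_of_ne hi]; simp
      simp only [Set.mem_ofPred_eq]
      rw [this]
    rwa [e] at h
  have hc' : Constr (kummerCover P (X j) m) := by
    have h1 : Constr {z : Fin N ⊕ Unit → ℂ | (fun i => z (Sum.inl i)) ∈ P} := hP.comp Sum.inl
    have h2 := constr_eq (X (Sum.inr ()) ^ m : MvPolynomial (Fin N ⊕ Unit) ℂ) (X (Sum.inl j))
    have h3 := h1.inter h2
    have e : kummerCover P (X j) m = {z : Fin N ⊕ Unit → ℂ | (fun i => z (Sum.inl i)) ∈ P} ∩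
        {x | eval x (X (Sum.inr ()) ^ m : MvPolynomial (Fin N ⊕ Unit) ℂ) =
          eval x (X (Sum.inl j))} := by
      ext z
      simp [kummerCover]
    rw [e]
    exact h3
  refine cls_iso hc hc' ?_
  refine ⟨fun v => Sum.elim (Function.update v j (v j ^ m)) (fun _ => v j),
    fun z => Function.update (fun i => z (Sum.inl i)) j (z (Sum.inr ())), ?_, ?_, ?_, ?_, ?_, ?_⟩
  · rintro (i | u)
    · by_cases hi : i = j
      · subst hi
        have := regFun_poly {v : Fin N → ℂ | Function.update v i (v i ^ m) ∈ P}
          (X i ^ m : MvPolynomial (Fin N) ℂ)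
        simpa using this
      · have := regFun_coord {v : Fin N → ℂ | Function.update v j (v j ^ m) ∈ P} i
        simpa [Function.update_of_ne hi] using this
    · exact regFun_coord _ j
  · intro i
    by_cases hi : i = j
    · subst hi
      simpa using regFun_coord (kummerCover P (X i) m) (Sum.inr ())
    · simpa [Function.update_of_ne hi] using regFun_coord (kummerCover P (X j) m) (Sum.inl i)
  · intro v hv
    refine ⟨hv, ?_⟩
    simp
  · rintro z ⟨h1, h2⟩
    simp only [Set.mem_ofPred_eq, Function.update_self, Function.update_idem]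
    have h3 : z (Sum.inr ()) ^ m = z (Sum.inl j) := by simpa using h2
    have h4 : Function.update (fun i => z (Sum.inl i)) j (z (Sum.inr ()) ^ m) =
        fun i => z (Sum.inl i) := by
      rw [h3]
      exact Function.update_eq_self j _
    rw [h4]
    exact h1
  · intro v _
    funext i
    by_cases hi : i = j
    · subst hi; simp
    · simp [Function.update_of_ne hi]
  · rintro z ⟨h1, h2⟩
    have h3 : z (Sum.inr ()) ^ m = z (Sum.inl j) := by simpa using h2
    funext i
    rcases i with i | u
    · by_cases hi : i = j
      · subst hi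
        simp [h3]
      · simp [Function.update_of_ne hi]
    · simp

/-- an iterated cyclic covering -/
theorem chi_kummer_iter (χ : K0 →+* ℤ) (hχ : IsEulerChar χ) {N : ℕ} (P : Set (Fin N → ℂ))
    (hP : Constr P) (d : Fin N → ℕ) (hd : ∀ j, 0 < d j) (K : Finset (Fin N))
    (hK : ∀ y ∈ P, ∀ j ∈ K, y j ≠ 0) :
    χ (cls {v : Fin N → ℂ | (fun j => if j ∈ K then v j ^ d j else v j) ∈ P}) =
      (∏ j ∈ K, (d j : ℤ)) * χ (cls P) := by
  classical
  induction K using Finset.induction_on with
  | empty =>
    rw [Finset.prod_empty, one_mul]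
    congr 2
  | insert j K hj ih =>
    rw [Finset.prod_insert hj, mul_assoc, ← ih fun y hy i hi => hK y hy i (Finset.mem_insert_of_mem hi)]
    rw [← e3b_step χ hχ _ (e3b_constr P hP d K) j (d j) (hd j)]
    · congr 2
      ext v
      simp only [Set.mem_ofPred_eq]
      have : (fun i => if i ∈ insert j K then v i ^ d i else v i) =
          fun i => if i ∈ K then Function.update v j (v j ^ d j) i ^ d i else
            Function.update v j (v j ^ d j) i := by
        funext i
        by_cases hi : i = j
        · subst hi
          rw [if_pos (Finset.mem_insert_self i K), if_neg hj, Function.update_self]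
        · rw [Function.update_of_ne hi]
          simp [Finset.mem_insert, hi]
      rw [this]
    · intro y hy
      have h := hK _ hy j (Finset.mem_insert_self j K)
      simpa [hj] using h

end MotMono.Kum
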