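import Pool.Agent.Lib.MP_4e5fcd_ag.Kum.S2

/-! # KUM-S4a: constructibility -/

open MvPolynomial

namespace MotMono.Kum

variable {N : ℕ} {J : Type} [Fintype J] [DecidableEq J] (D : Data N J)

/-! ### polynomial functions -/

/-- a polynomial function -/
def S4a_Po {σ : Type} (h : (σ → ℂ) → ℂ) : Prop := ∃ P : MvPolynomial σ ℂ, ∀ x, eval x P = h x

theorem S4a_Po.const {σ : Type} (c : ℂ) : S4a_Po (fun _ : σ → ℂ => c) := ⟨C c, fun x => by simp⟩

theorem S4a_Po.coord {σ : Type} (i : σ) : S4a_Po (fun x : σ → ℂ => x i) := ⟨X i, fun x => by simp⟩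

theorem S4a_Po.add {σ : Type} {g h : (σ → ℂ) → ℂ} (hg : S4a_Po g) (hh : S4a_Po h) :
    S4a_Po (fun x => g x + h x) := by
  obtain ⟨P, hP⟩ := hg
  obtain ⟨Q, hQ⟩ := hh
  exact ⟨P + Q, fun x => by rw [map_add, hP, hQ]⟩

theorem S4a_Po.mul {σ : Type} {g h : (σ → ℂ) → ℂ} (hg : S4a_Po g) (hh : S4a_Po h) :
    S4a_Po (fun x => g x * h x) := by
  obtain ⟨P, hP⟩ := hg
  obtain ⟨Q, hQ⟩ := hh
  exact ⟨P * Q, fun x => by rw [map_mul, hP, hQ]⟩

theorem S4a_Po.pow {σ : Type} {g : (σ → ℂ) → ℂ} (hg : S4a_Po g) (k : ℕ) :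
    S4a_Po (fun x => g x ^ k) := by
  obtain ⟨P, hP⟩ := hg
  exact ⟨P ^ k, fun x => by rw [map_pow, hP]⟩

theorem S4a_Po.sum {σ ι : Type} (s : Finset ι) {g : ι → (σ → ℂ) → ℂ}
    (hg : ∀ i ∈ s, S4a_Po (g i)) : S4a_Po (fun x => ∑ i ∈ s, g i x) := by
  classical
  induction s using Finset.induction_on with
  | empty => simpa using S4a_Po.const 0
  | insert i s hi ih =>
    have h1 := (hg i (Finset.mem_insert_self i s)).add
      (ih (fun j hj => hg j (Finset.mem_insert_of_mem hj)))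
    simpa [Finset.sum_insert hi] using h1

theorem S4a_Po.prod {σ ι : Type} (s : Finset ι) {g : ι → (σ → ℂ) → ℂ}
    (hg : ∀ i ∈ s, S4a_Po (g i)) : S4a_Po (fun x => ∏ i ∈ s, g i x) := by
  classical
  induction s using Finset.induction_on with
  | empty => simpa using S4a_Po.const 1
  | insert i s hi ih =>
    have h1 := (hg i (Finset.mem_insert_self i s)).mul
      (ih (fun j hj => hg j (Finset.mem_insert_of_mem hj)))
    simpa [Finset.prod_insert hi] using h1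

theorem S4a_Po.ite {σ : Type} (p : Prop) [Decidable p] {g h : (σ → ℂ) → ℂ} (hg : p → S4a_Po g)
    (hh : ¬ p → S4a_Po h) : S4a_Po (fun x => if p then g x else h x) := by
  by_cases hp : p
  · simpa [hp] using hg hp
  · simpa [hp] using hh hp

theorem S4a_Po.comp {σ τ : Type} {h : (τ → ℂ) → ℂ} (hh : S4a_Po h) (e : τ → σ) :
    S4a_Po (fun x : σ → ℂ => h (fun j => x (e j))) := by
  obtain ⟨P, hP⟩ := hh
  refine ⟨rename e P, fun x => ?_⟩
  rw [eval_rename]
  exact hP _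

/-- a family of polynomials with polynomial coefficients -/
def S4a_Pp {σ : Type} (F : (σ → ℂ) → Polynomial ℂ) : Prop := ∀ i, S4a_Po (fun x => (F x).coeff i)

theorem S4a_Pp.const {σ : Type} (P : Polynomial ℂ) : S4a_Pp (fun _ : σ → ℂ => P) :=
  fun _ => S4a_Po.const _

theorem S4a_Pp.C {σ : Type} {h : (σ → ℂ) → ℂ} (hh : S4a_Po h) :
    S4a_Pp (fun x => Polynomial.C (h x)) := by
  intro i
  simp only [Polynomial.coeff_C]
  exact S4a_Po.ite _ (fun _ => hh) (fun _ => S4a_Po.const 0)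

theorem S4a_Pp.mul {σ : Type} {F G : (σ → ℂ) → Polynomial ℂ} (hF : S4a_Pp F) (hG : S4a_Pp G) :
    S4a_Pp (fun x => F x * G x) := by
  intro i
  simp only [Polynomial.coeff_mul]
  exact S4a_Po.sum _ (fun p _ => (hF p.1).mul (hG p.2))

theorem S4a_Pp.pow {σ : Type} {F : (σ → ℂ) → Polynomial ℂ} (hF : S4a_Pp F) (k : ℕ) :
    S4a_Pp (fun x => F x ^ k) := by
  induction k with
  | zero => simpa using S4a_Pp.const 1
  | succ k ih => simpa [pow_succ] using ih.mul hF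

theorem S4a_Pp.sum {σ ι : Type} (s : Finset ι) {F : ι → (σ → ℂ) → Polynomial ℂ}
    (hF : ∀ i ∈ s, S4a_Pp (F i)) : S4a_Pp (fun x => ∑ i ∈ s, F i x) := by
  intro i
  simp only [Polynomial.finsetSum_coeff]
  exact S4a_Po.sum s (fun j hj => hF j hj i)

theorem S4a_Pp.prod {σ ι : Type} (s : Finset ι) {F : ι → (σ → ℂ) → Polynomial ℂ}
    (hF : ∀ i ∈ s, S4a_Pp (F i)) : S4a_Pp (fun x => ∏ i ∈ s, F i x) := by
  classical
  induction s using Finset.induction_on with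
  | empty => simpa using S4a_Pp.const 1
  | insert i s hi ih =>
    have h1 := (hF i (Finset.mem_insert_self i s)).mul
      (ih (fun j hj => hF j (Finset.mem_insert_of_mem hj)))
    simpa [Finset.prod_insert hi] using h1

theorem S4a_Pp.ite {σ : Type} (p : Prop) [Decidable p] {g h : (σ → ℂ) → Polynomial ℂ}
    (hg : p → S4a_Pp g) (hh : ¬ p → S4a_Pp h) : S4a_Pp (fun x => if p then g x else h x) := by
  by_cases hp : p
  · simpa [hp] using hg hp
  · simpa [hp] using hh hp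

theorem S4a_arc {n : ℕ} (j : Fin N) : S4a_Pp (fun x : Fin N × Fin n → ℂ => arc x j) := by
  unfold arc
  exact S4a_Pp.sum _ (fun l _ => (S4a_Pp.C (S4a_Po.coord (j, l))).mul (S4a_Pp.const _))

theorem S4a_FF (R : Finset (J ⊕ Fin N)) (l n : ℕ) :
    S4a_Pp (fun x : Fin N × Fin n → ℂ => D.FF R l x) := by
  unfold Data.FF
  refine (S4a_Pp.prod _ (fun j _ => ?_)).mul (S4a_Pp.prod _ (fun κ _ => ?_))
  · exact S4a_Pp.ite _ (fun _ => (S4a_arc j).pow _) (fun _ => S4a_Pp.const 1)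
  · refine S4a_Pp.ite _ (fun _ => S4a_Pp.pow (S4a_Pp.sum _ (fun j _ => ?_)) _)
      (fun _ => S4a_Pp.const 1)
    refine (S4a_Pp.const _).mul ?_
    unfold Data.yy
    exact S4a_Pp.ite _ (fun _ => (S4a_Pp.const _).mul ((S4a_arc j).pow _)) (fun _ => S4a_arc j)

omit [Fintype J] in
theorem S4a_yv (R : Finset (J ⊕ Fin N)) (l : ℕ) (c : Fin N → ℂ) :
    S4a_Po (fun v : Fin N → ℂ => c ⬝ᵥ D.yv R l v) := by
  unfold dotProduct
  refine S4a_Po.sum _ (fun j _ => (S4a_Po.const _).mul ?_)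
  unfold Data.yv
  exact S4a_Po.ite _ (fun _ => S4a_Po.ite _ (fun _ => (S4a_Po.coord j).pow _)
    (fun _ => S4a_Po.const 0)) (fun _ => S4a_Po.coord j)

theorem S4a_u0 (R R' : Finset (J ⊕ Fin N)) (l : ℕ) :
    S4a_Po (fun v : Fin N → ℂ => D.u0 R R' l v) := by
  unfold Data.u0
  refine (S4a_Po.prod _ (fun j _ => ?_)).mul (S4a_Po.prod _ (fun κ _ => ?_))
  · exact S4a_Po.ite _ (fun _ => (S4a_Po.coord j).pow _) (fun _ => S4a_Po.const 1)
  · exact S4a_Po.ite _ (fun _ => (S4a_yv D R l _).pow _) (fun _ => S4a_Po.const 1)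

theorem S4a_Fv (R : Finset (J ⊕ Fin N)) (l : ℕ) : S4a_Po (fun v : Fin N → ℂ => D.Fv R l v) := by
  unfold Data.Fv
  refine (S4a_Po.prod _ (fun j _ => ?_)).mul (S4a_Po.prod _ (fun κ _ => ?_))
  · exact S4a_Po.ite _ (fun _ => (S4a_Po.coord j).pow _) (fun _ => S4a_Po.const 1)
  · exact S4a_Po.ite _ (fun _ => (S4a_yv D R l _).pow _) (fun _ => S4a_Po.const 1)

/-! ### constructible sets -/

theorem S4a_Po.zero {σ : Type} {h : (σ → ℂ) → ℂ} (hh : S4a_Po h) : Constr {x | h x = 0} := by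
  obtain ⟨P, hP⟩ := hh
  have h1 := Constr.zeroSet P
  simpa only [hP] using h1

theorem S4a_Po.eq_const {σ : Type} {h : (σ → ℂ) → ℂ} (hh : S4a_Po h) (c : ℂ) :
    Constr {x | h x = c} := by
  obtain ⟨P, hP⟩ := hh
  have h1 := constr_eq P (MvPolynomial.C c)
  simpa only [hP, eval_C] using h1

theorem S4a_Po.ne_zero {σ : Type} {h : (σ → ℂ) → ℂ} (hh : S4a_Po h) : Constr {x | h x ≠ 0} :=
  hh.zero.compl

theorem S4a_Po.mem {σ : Type} {h : (σ → ℂ) → ℂ} (hh : S4a_Po h) {A : Set ℂ} (hA : CV A) :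
    Constr {x | h x ∈ A} := by
  obtain ⟨P, hP⟩ := hh
  have h1 := hA σ P
  simpa only [hP] using h1

theorem cv_ne_zero : CV ({0}ᶜ : Set ℂ) := by
  intro σ P
  exact constr_ne P

theorem cv_singleton (c : ℂ) : CV ({c} : Set ℂ) := by
  intro σ P
  have h : S4a_Po (fun x => eval x P) := ⟨P, fun _ => rfl⟩
  exact h.eq_const c

/-- the coefficients of `FF` are polynomials -/
theorem exists_FF_poly (R : Finset (J ⊕ Fin N)) (l n i : ℕ) :
    ∃ P : MvPolynomial (Fin N × Fin n) ℂ, ∀ x, eval x P = (D.FF R l x).coeff i :=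
  S4a_FF D R l n i

/-- the coordinates of `yv` are polynomials -/
theorem exists_yv_poly (R : Finset (J ⊕ Fin N)) (l : ℕ) (c : Fin N → ℂ) :
    ∃ P : MvPolynomial (Fin N) ℂ, ∀ v, eval v P = c ⬝ᵥ D.yv R l v := S4a_yv D R l c

theorem exists_u0_poly (R R' : Finset (J ⊕ Fin N)) (l : ℕ) :
    ∃ P : MvPolynomial (Fin N) ℂ, ∀ v, eval v P = D.u0 R R' l v := S4a_u0 D R R' l

theorem exists_Fv_poly (R : Finset (J ⊕ Fin N)) (l : ℕ) :
    ∃ P : MvPolynomial (Fin N) ℂ, ∀ v, eval v P = D.Fv R l v := S4a_Fv D R l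

theorem constr_gset (R R' : Finset (J ⊕ Fin N)) (l : ℕ) : Constr (D.gset R R' l) := by
  have h : D.gset R R' l = ⋂ i : {i // i ∈ R},
      {v | i.1 ∈ R' ↔ D.lam i.1 ⬝ᵥ D.yv R l v = 0} := by
    ext v
    simp only [Data.gset, Set.mem_ofPred_eq, Set.mem_iInter, Subtype.forall]
  rw [h]
  refine constr_iInter (fun i => ?_)
  by_cases hi : i.1 ∈ R'
  · simpa only [hi, true_iff] using (S4a_yv D R l (D.lam i.1)).zero
  · simpa only [hi, false_iff] using (S4a_yv D R l (D.lam i.1)).ne_zero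

theorem constr_oset (R : Finset (J ⊕ Fin N)) (l n k : ℕ) (A : Set ℂ) (hA : CV A) :
    Constr (D.oset R l n k A) := by
  have h : D.oset R l n k A = (⋂ i : Fin k, {x | (D.FF R l x).coeff i = 0}) ∩
      {x | (D.FF R l x).coeff k ∈ A} := by
    ext v
    simp only [Data.oset, Set.mem_ofPred_eq, Set.mem_iInter, Set.mem_inter_iff, Fin.forall_iff]
  rw [h]
  exact (constr_iInter (fun i : Fin k => (S4a_FF D R l n (i : ℕ)).zero)).inter
    ((S4a_FF D R l n k).mem hA)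

theorem constr_tset (R R' : Finset (J ⊕ Fin N)) (l n k : ℕ) (A : Set ℂ) (hA : CV A) :
    Constr (D.tset R R' l n k A) := by
  have h : D.tset R R' l n k A = {z : Fin N ⊕ Fin N × Fin n → ℂ |
      (fun j => z (Sum.inl j)) ∈ D.gset R R' l} ∩
      ((⋂ i : Fin k, {z | (D.FF R' (l + 1) (fun q => z (Sum.inr q))).coeff i = 0}) ∩
      {z | D.u0 R R' l (fun j => z (Sum.inl j)) *
        (D.FF R' (l + 1) (fun q => z (Sum.inr q))).coeff k ∈ A}) := by
    ext v
    simp only [Data.tset, Data.oset, Set.mem_ofPred_eq, Set.mem_iInter, Set.mem_inter_iff,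
      Fin.forall_iff]
  rw [h]
  refine ((constr_gset D R R' l).comp Sum.inl).inter
    ((constr_iInter (fun i => ?_)).inter (S4a_Po.mem ?_ hA))
  · exact ((S4a_FF D R' (l + 1) n i).comp Sum.inr).zero
  · exact ((S4a_u0 D R R' l).comp Sum.inl).mul ((S4a_FF D R' (l + 1) n k).comp Sum.inr)

theorem constr_Fv (R : Finset (J ⊕ Fin N)) (l : ℕ) : Constr {v | D.Fv R l v = 1} :=
  (S4a_Fv D R l).eq_const 1

theorem S4a_dot (c : Fin N → ℂ) : S4a_Po (fun v : Fin N → ℂ => c ⬝ᵥ v) := by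
  unfold dotProduct
  exact S4a_Po.sum _ (fun j _ => (S4a_Po.const _).mul (S4a_Po.coord j))

theorem constr_hset (R : Finset (J ⊕ Fin N)) (i₁ : J ⊕ Fin N) (K : Finset (Fin N)) :
    Constr (D.hset R i₁ K) := by
  have h : D.hset R i₁ K = {y | D.lam i₁ ⬝ᵥ y = 1} ∩
      ((⋂ κ : J, {y | Sum.inl κ ∈ R → D.a κ ⬝ᵥ y ≠ 0}) ∩
      ⋂ j : Fin N, {y | Sum.inr j ∈ R → (j ∈ K ↔ y j ≠ 0)}) := by
    ext v
    simp only [Data.hset, Set.mem_ofPred_eq, Set.mem_iInter, Set.mem_inter_iff]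
  rw [h]
  refine ((S4a_dot (D.lam i₁)).eq_const 1).inter ((constr_iInter (fun κ => ?_)).inter
    (constr_iInter (fun j => ?_)))
  · by_cases hκ : Sum.inl κ ∈ R
    · simpa only [hκ, forall_const] using (S4a_dot (D.a κ)).ne_zero
    · have e : {y : Fin N → ℂ | Sum.inl κ ∈ R → D.a κ ⬝ᵥ y ≠ 0} = Set.univ := by
        ext y
        simp [hκ]
      rw [e]
      exact constr_univ
  · by_cases hj : Sum.inr j ∈ R
    · by_cases hK : j ∈ K
      · simpa only [hj, hK, forall_const, true_iff] using (S4a_Po.coord j).ne_zero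
      · simpa only [hj, hK, forall_const, false_iff, not_not, ne_eq] using (S4a_Po.coord j).zero
    · have e : {y : Fin N → ℂ | Sum.inr j ∈ R → (j ∈ K ↔ y j ≠ 0)} = Set.univ := by
        ext y
        simp [hj]
      rw [e]
      exact constr_univ

end MotMono.Kum
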