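import Pool.Agent.Lib.MP_4e5fcd_ag.Kum.Z3
import Pool.Agent.Lib.MP_4e5fcd_ag.Kum.S4a

/-! # KUM-E4: weighted homogeneity -/

open MvPolynomial

namespace MotMono.Kum

variable {N : ℕ} {J : Type} [Fintype J] [DecidableEq J] (D : Data N J)

/-- the weights of the coordinates of a vector, in the state `(R, l)` -/
def Data.wv (R : Finset (J ⊕ Fin N)) (l : ℕ) (j : Fin N) : ℕ :=
  if Sum.inr j ∈ R then (if D.d j ∣ l then D.M / D.d j else 0) else D.M

/-- the weights of the coordinates of a jet, in the state `R` -/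
def Data.wx (R : Finset (J ⊕ Fin N)) (j : Fin N) : ℕ :=
  if Sum.inr j ∈ R then D.M / D.d j else D.M

theorem E4_prod {ι α : Type*} [Fintype ι] [CommMonoid α] (t : α) (p : ι → Prop) [DecidablePred p]
    (b u : ι → ℕ) (A B : ι → α) (h : ∀ j, p j → B j ^ b j = t ^ (b j * u j) * A j ^ b j) :
    (∏ j, if p j then B j ^ b j else 1) =
      t ^ (∑ j, if p j then b j * u j else 0) * ∏ j, if p j then A j ^ b j else 1 := by
  rw [← Finset.prod_pow_eq_pow_sum, ← Finset.prod_mul_distrib]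
  refine Finset.prod_congr rfl fun j _ => ?_
  by_cases hp : p j
  · rw [if_pos hp, if_pos hp, if_pos hp, h j hp]
  · rw [if_neg hp, if_neg hp, if_neg hp, pow_zero, one_mul]

theorem yv_scale (R : Finset (J ⊕ Fin N)) (l : ℕ) (v : Fin N → ℂ) (τ : ℂ) (j : Fin N) :
    D.yv R l (fun j => τ ^ D.wv R l j * v j) j = τ ^ D.M * D.yv R l v j := by
  unfold Data.yv Data.wv
  by_cases h : Sum.inr j ∈ R
  · by_cases hd : D.d j ∣ l
    · simp only [if_pos h, if_pos hd]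
      rw [mul_pow, ← pow_mul, Nat.div_mul_cancel (dvd_M D j)]
    · simp only [if_pos h, if_neg hd, mul_zero]
  · simp only [if_neg h]

theorem dot_yv_scale (R : Finset (J ⊕ Fin N)) (l : ℕ) (v : Fin N → ℂ) (τ : ℂ)
    (c : Fin N → ℂ) :
    c ⬝ᵥ D.yv R l (fun j => τ ^ D.wv R l j * v j) = τ ^ D.M * (c ⬝ᵥ D.yv R l v) := by
  simp only [dotProduct, Finset.mul_sum]
  refine Finset.sum_congr rfl fun j _ => ?_
  rw [yv_scale]
  ring

theorem E4_arc {n : ℕ} (x : Fin N × Fin n → ℂ) (τ : ℂ) (w : Fin N → ℕ) (j : Fin N) :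
    arc (fun q => τ ^ w q.1 * x q) j = Polynomial.C τ ^ w j * arc x j := by
  unfold arc
  rw [Finset.mul_sum]
  refine Finset.sum_congr rfl fun l _ => ?_
  rw [Polynomial.C_mul, Polynomial.C_pow, mul_assoc]

theorem E4_yy (R : Finset (J ⊕ Fin N)) (l : ℕ) {n : ℕ} (x : Fin N × Fin n → ℂ) (τ : ℂ)
    (j : Fin N) :
    D.yy R l (fun q => τ ^ D.wx R q.1 * x q) j = Polynomial.C τ ^ D.M * D.yy R l x j := by
  unfold Data.yy
  rw [E4_arc]
  unfold Data.wx
  by_cases h : Sum.inr j ∈ R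
  · simp only [if_pos h]
    rw [mul_pow, ← pow_mul, Nat.div_mul_cancel (dvd_M D j)]
    ring
  · simp only [if_neg h]

theorem FF_scale (R : Finset (J ⊕ Fin N)) (l : ℕ) {n : ℕ} (x : Fin N × Fin n → ℂ) (τ : ℂ) :
    D.FF R l (fun q => τ ^ D.wx R q.1 * x q) = Polynomial.C (τ ^ D.Nn R) * D.FF R l x := by
  unfold Data.FF Data.Nn
  have h1 := E4_prod (Polynomial.C τ) (fun j : Fin N => Sum.inr j ∈ R) D.b
    (fun j => D.M / D.d j) (fun j => arc x j) (fun j => arc (fun q => τ ^ D.wx R q.1 * x q) j)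
    (fun j hj => by
      rw [E4_arc, mul_pow, ← pow_mul, Data.wx, if_pos hj, mul_comm (D.b j)])
  have h2 := E4_prod (Polynomial.C τ) (fun κ : J => Sum.inl κ ∈ R) D.m
    (fun _ => D.M) (fun κ => ∑ j, Polynomial.C (D.a κ j) * D.yy R l x j)
    (fun κ => ∑ j, Polynomial.C (D.a κ j) * D.yy R l (fun q => τ ^ D.wx R q.1 * x q) j)
    (fun κ _ => by
      have h3 : ∑ j, Polynomial.C (D.a κ j) * D.yy R l (fun q => τ ^ D.wx R q.1 * x q) j =
          Polynomial.C τ ^ D.M * ∑ j, Polynomial.C (D.a κ j) * D.yy R l x j := by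
        rw [Finset.mul_sum]
        refine Finset.sum_congr rfl fun j _ => ?_
        rw [E4_yy]
        ring
      rw [h3, mul_pow, ← pow_mul, mul_comm (D.m κ)])
  have h4 : D.M * (∑ κ, if Sum.inl κ ∈ R then D.m κ else 0) =
      ∑ κ, if Sum.inl κ ∈ R then D.m κ * D.M else 0 := by
    rw [Finset.mul_sum]
    refine Finset.sum_congr rfl fun κ _ => ?_
    split_ifs
    · ring
    · ring
  rw [h1, h2, h4, Polynomial.C_pow, pow_add]
  ring

/-- the weight of `u0` -/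
def Data.eu (R R' : Finset (J ⊕ Fin N)) : ℕ :=
  (∑ j, if Sum.inr j ∈ R \ R' then D.b j * (D.M / D.d j) else 0) +
    D.M * ∑ κ, if Sum.inl κ ∈ R \ R' then D.m κ else 0

theorem E4_dvd (R R' : Finset (J ⊕ Fin N)) (l : ℕ) (v : Fin N → ℂ)
    (hv : v ∈ D.gset R R' l) (j : Fin N) (hj : Sum.inr j ∈ R \ R') : D.d j ∣ l := by
  by_contra hd
  rw [Finset.mem_sdiff] at hj
  refine hj.2 ((hv _ hj.1).mpr ?_)
  unfold Data.lam Data.yv
  simp only [Sum.elim_inr, single_dotProduct, if_pos hj.1, if_neg hd, mul_zero]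

theorem u0_scale (R R' : Finset (J ⊕ Fin N)) (l : ℕ) (v : Fin N → ℂ)
    (hv : v ∈ D.gset R R' l) (τ : ℂ) :
    D.u0 R R' l (fun j => τ ^ D.wv R l j * v j) = τ ^ D.eu R R' * D.u0 R R' l v := by
  unfold Data.u0 Data.eu
  have h1 := E4_prod τ (fun j : Fin N => Sum.inr j ∈ R \ R') D.b
    (fun j => D.M / D.d j) (fun j => v j) (fun j => τ ^ D.wv R l j * v j)
    (fun j hj => by
      rw [mul_pow, ← pow_mul, Data.wv, if_pos (Finset.mem_sdiff.mp hj).1,
        if_pos (E4_dvd D R R' l v hv j hj), mul_comm (D.b j)])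
  have h2 := E4_prod τ (fun κ : J => Sum.inl κ ∈ R \ R') D.m
    (fun _ => D.M) (fun κ => D.a κ ⬝ᵥ D.yv R l v)
    (fun κ => D.a κ ⬝ᵥ D.yv R l (fun j => τ ^ D.wv R l j * v j))
    (fun κ _ => by
      rw [dot_yv_scale, mul_pow, ← pow_mul, mul_comm (D.m κ)])
  have h4 : D.M * (∑ κ, if Sum.inl κ ∈ R \ R' then D.m κ else 0) =
      ∑ κ, if Sum.inl κ ∈ R \ R' then D.m κ * D.M else 0 := by
    rw [Finset.mul_sum]
    refine Finset.sum_congr rfl fun κ _ => ?_
    split_ifs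
    · ring
    · ring
  rw [h1, h2, h4, pow_add]
  ring

/-- the weight of `Fv` -/
theorem Fv_scale (R : Finset (J ⊕ Fin N)) (l : ℕ)
    (hl : ∀ j, Sum.inr j ∈ R → 1 ≤ D.b j → D.d j ∣ l) (v : Fin N → ℂ) (τ : ℂ) :
    D.Fv R l (fun j => τ ^ D.wv R l j * v j) = τ ^ D.Nn R * D.Fv R l v := by
  unfold Data.Fv Data.Nn
  have h1 := E4_prod τ (fun j : Fin N => Sum.inr j ∈ R) D.b
    (fun j => D.M / D.d j) (fun j => v j) (fun j => τ ^ D.wv R l j * v j)
    (fun j hj => by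
      rcases Nat.eq_zero_or_pos (D.b j) with h0 | h0
      · rw [h0]
        simp
      · rw [mul_pow, ← pow_mul, Data.wv, if_pos hj, if_pos (hl j hj h0), mul_comm (D.b j)])
  have h2 := E4_prod τ (fun κ : J => Sum.inl κ ∈ R) D.m
    (fun _ => D.M) (fun κ => D.a κ ⬝ᵥ D.yv R l v)
    (fun κ => D.a κ ⬝ᵥ D.yv R l (fun j => τ ^ D.wv R l j * v j))
    (fun κ _ => by
      rw [dot_yv_scale, mul_pow, ← pow_mul, mul_comm (D.m κ)])
  have h4 : D.M * (∑ κ, if Sum.inl κ ∈ R then D.m κ else 0) =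
      ∑ κ, if Sum.inl κ ∈ R then D.m κ * D.M else 0 := by
    rw [Finset.mul_sum]
    refine Finset.sum_congr rfl fun κ _ => ?_
    split_ifs
    · ring
    · ring
  rw [h1, h2, h4, pow_add]
  ring

end MotMono.Kum
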