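import Pool.Agent.Lib.MP_4e5fcd_ag.Kum.E3
import Pool.Agent.Lib.MP_4e5fcd_ag.Kum.E4

/-! # KUM-E4b: vanishing of Euler characteristics by torus actions -/

open MvPolynomial

namespace MotMono.Kum

variable {N : ℕ} {J : Type} [Fintype J] [DecidableEq J] (D : Data N J)

theorem chi_tset (χ : K0 →+* ℤ) (hχ : IsEulerChar χ) (R R' : Finset (J ⊕ Fin N))
    (hR : R' ⊆ R) (hne : R' ≠ R) (hN : 0 < D.Nn R') (l n k : ℕ) :
    χ (cls (D.tset R R' l n k {1})) = 0 := by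
  obtain ⟨i, hi, hi'⟩ : ∃ i ∈ R, i ∉ R' := by
    by_contra hcon
    push Not at hcon
    exact hne (Finset.Subset.antisymm hR hcon)
  obtain ⟨P, hP⟩ := exists_yv_poly D R l (D.lam i)
  let W : Fin N ⊕ Fin N × Fin n → ℤ :=
    Sum.elim (fun j => ((D.Nn R' * D.wv R l j : ℕ) : ℤ))
      (fun q => -((D.eu R R' * D.wx R' q.1 : ℕ) : ℤ))
  have hW1 : ∀ (τ : ℂ) (z : Fin N ⊕ Fin N × Fin n → ℂ),
      (fun j => τ ^ W (Sum.inl j) * z (Sum.inl j)) =
        fun j => (τ ^ D.Nn R') ^ D.wv R l j * z (Sum.inl j) := by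
    intro τ z
    funext j
    simp only [W, Sum.elim_inl]
    rw [zpow_natCast, pow_mul]
  have hW2 : ∀ (τ : ℂ) (z : Fin N ⊕ Fin N × Fin n → ℂ),
      (fun q => τ ^ W (Sum.inr q) * z (Sum.inr q)) =
        fun q => (τ⁻¹ ^ D.eu R R') ^ D.wx R' q.1 * z (Sum.inr q) := by
    intro τ z
    funext q
    simp only [W, Sum.elim_inr]
    rw [zpow_neg, zpow_natCast, ← inv_pow, pow_mul]
  refine chi_torus χ hχ _ (constr_tset D R R' l n k {1} (cv_singleton 1)) W (rename Sum.inl P)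
    (D.Nn R' * D.M) (Nat.mul_pos hN (M_pos D)) ?_ ?_ ?_
  · intro z hz τ hτ
    obtain ⟨hz1, hz2, hz3⟩ := hz
    have hσ : τ ^ D.Nn R' ≠ 0 := pow_ne_zero _ hτ
    refine ⟨?_, ?_, ?_⟩
    · have e1 : (fun j => (fun i => τ ^ W i * z i) (Sum.inl j)) =
          fun j => (τ ^ D.Nn R') ^ D.wv R l j * z (Sum.inl j) := hW1 τ z
      rw [e1]
      intro i' hi'
      rw [hz1 i' hi', dot_yv_scale]
      simp [hσ]
    · have e2 : (fun q => (fun i => τ ^ W i * z i) (Sum.inr q)) =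
          fun q => (τ⁻¹ ^ D.eu R R') ^ D.wx R' q.1 * z (Sum.inr q) := hW2 τ z
      rw [e2]
      intro a ha
      rw [FF_scale, Polynomial.coeff_C_mul]
      rw [hz2 a ha, mul_zero]
    · have e1 : (fun j => (fun i => τ ^ W i * z i) (Sum.inl j)) =
          fun j => (τ ^ D.Nn R') ^ D.wv R l j * z (Sum.inl j) := hW1 τ z
      have e2 : (fun q => (fun i => τ ^ W i * z i) (Sum.inr q)) =
          fun q => (τ⁻¹ ^ D.eu R R') ^ D.wx R' q.1 * z (Sum.inr q) := hW2 τ z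
      rw [e1, e2]
      have h3 : D.u0 R R' l (fun j => z (Sum.inl j)) *
          (D.FF R' (l + 1) (fun q => z (Sum.inr q))).coeff k = 1 := hz3
      show D.u0 R R' l (fun j => (τ ^ D.Nn R') ^ D.wv R l j * z (Sum.inl j)) *
          (D.FF R' (l + 1) (fun q => (τ⁻¹ ^ D.eu R R') ^ D.wx R' q.1 *
            z (Sum.inr q))).coeff k = 1
      rw [FF_scale, Polynomial.coeff_C_mul, u0_scale D R R' l _ hz1]
      have h4 : (τ ^ D.Nn R') ^ D.eu R R' * (τ⁻¹ ^ D.eu R R') ^ D.Nn R' = 1 := by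
        rw [← pow_mul, ← pow_mul, mul_comm (D.eu R R'), ← mul_pow, mul_inv_cancel₀ hτ, one_pow]
      calc (τ ^ D.Nn R') ^ D.eu R R' * D.u0 R R' l (fun j => z (Sum.inl j)) *
            ((τ⁻¹ ^ D.eu R R') ^ D.Nn R' * (D.FF R' (l + 1) (fun q => z (Sum.inr q))).coeff k)
          = ((τ ^ D.Nn R') ^ D.eu R R' * (τ⁻¹ ^ D.eu R R') ^ D.Nn R') *
            (D.u0 R R' l (fun j => z (Sum.inl j)) *
              (D.FF R' (l + 1) (fun q => z (Sum.inr q))).coeff k) := by ring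
        _ = 1 := by rw [h4, h3, one_mul]
  · intro z hz
    rw [eval_rename, hP]
    intro h0
    exact hi' ((hz.1 i hi).mpr h0)
  · intro z hz τ hτ
    rw [eval_rename, eval_rename]
    have e1 : ((fun i => τ ^ W i * z i) ∘ Sum.inl) =
        fun j => (τ ^ D.Nn R') ^ D.wv R l j * z (Sum.inl j) := hW1 τ z
    rw [e1, hP, hP, dot_yv_scale, pow_mul]
    rfl

end MotMono.Kum
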