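import Pool.Agent.Lib.MP_4e5fcd_ag.Kum.S4

/-! # KUM-S5: independence of the number of levels -/

open MvPolynomial

namespace MotMono.Kum

variable {N : ℕ} {J : Type} [Fintype J] [DecidableEq J] (D : Data N J)

/-- truncation of a jet -/
def s5_tr {n : ℕ} (x : Fin N × Fin (n + 1) → ℂ) (q : Fin N × Fin n) : ℂ := x (q.1, q.2.castSucc)

theorem s5_arc {n : ℕ} (x : Fin N × Fin (n + 1) → ℂ) (j : Fin N) :
    Polynomial.X ^ n ∣ arc x j - arc (s5_tr x) j := by
  have h : arc x j - arc (s5_tr x) j =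
      Polynomial.X ^ n * Polynomial.C (x (j, Fin.last n)) := by
    unfold arc
    rw [Fin.sum_univ_castSucc]
    simp only [s5_tr, Fin.val_castSucc, Fin.val_last]
    ring
  rw [h]
  exact dvd_mul_right _ _

theorem s5_yy (R : Finset (J ⊕ Fin N)) (l : ℕ) {n : ℕ} (x : Fin N × Fin (n + 1) → ℂ)
    (j : Fin N) : Polynomial.X ^ n ∣ D.yy R l x j - D.yy R l (s5_tr x) j := by
  unfold Data.yy
  split_ifs with h
  · rw [← mul_sub]
    exact Dvd.dvd.mul_left (dvd_pow_sub n _ _ _ (s5_arc x j)) _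
  · exact s5_arc x j

theorem s5_sum {ι : Type} (s : Finset ι) (n : ℕ) (P Q : ι → Polynomial ℂ)
    (h : ∀ i ∈ s, Polynomial.X ^ n ∣ P i - Q i) :
    Polynomial.X ^ n ∣ ∑ i ∈ s, P i - ∑ i ∈ s, Q i := by
  rw [← Finset.sum_sub_distrib]
  exact Finset.dvd_sum h

theorem s5_FF (R : Finset (J ⊕ Fin N)) (l : ℕ) {n : ℕ} (x : Fin N × Fin (n + 1) → ℂ) :
    Polynomial.X ^ n ∣ D.FF R l x - D.FF R l (s5_tr x) := by
  unfold Data.FF
  refine dvd_mul_sub n _ _ _ _ ?_ ?_
  · refine dvd_prod_sub _ n _ _ fun j _ => ?_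
    split_ifs with h
    · exact dvd_pow_sub n _ _ _ (s5_arc x j)
    · simp
  · refine dvd_prod_sub _ n _ _ fun κ _ => ?_
    split_ifs with h
    · refine dvd_pow_sub n _ _ _ (s5_sum _ n _ _ fun j _ => ?_)
      rw [← mul_sub]
      exact Dvd.dvd.mul_left (s5_yy D R l x j) _
    · simp

theorem s5_coeff (R : Finset (J ⊕ Fin N)) (l : ℕ) {n : ℕ} (x : Fin N × Fin (n + 1) → ℂ)
    (i : ℕ) (hi : i < n) : (D.FF R l x).coeff i = (D.FF R l (s5_tr x)).coeff i := by
  have h := Polynomial.X_pow_dvd_iff.mp (s5_FF D R l x) i hi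
  rw [Polynomial.coeff_sub] at h
  exact sub_eq_zero.mp h

/-- splitting off the last level -/
def s5_equiv (N n : ℕ) : Fin N × Fin (n + 1) ≃ (Fin N × Fin n) ⊕ Fin N where
  toFun q := if h : q.2.val < n then Sum.inl (q.1, ⟨q.2.val, h⟩) else Sum.inr q.1
  invFun := Sum.elim (fun q => (q.1, q.2.castSucc)) (fun j => (j, Fin.last n))
  left_inv := by
    rintro ⟨j, i⟩
    by_cases h : i.val < n
    · simp only [h, dif_pos, Sum.elim_inl]
      rfl
    · simp only [h, dif_neg, not_false_eq_true, Sum.elim_inr]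
      congr 1
      apply Fin.ext
      have := i.2
      simp only [Fin.val_last]
      omega
  right_inv := by
    rintro (⟨j, i⟩ | j)
    · simp
    · simp

theorem cls_oset_succ (R : Finset (J ⊕ Fin N)) (l n k : ℕ) (hk : k < n) (A : Set ℂ)
    (hA' : CV A) : cls (D.oset R l (n + 1) k A) = LL ^ N * cls (D.oset R l n k A) := by
  have h1 : cls (D.oset R l (n + 1) k A) =
      cls (prodSet (D.oset R l n k A) (Set.univ : Set (Fin N → ℂ))) := by
    refine cls_iso (constr_oset D R l (n + 1) k A hA')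
      ((constr_oset D R l n k A hA').prodSet constr_univ) ?_
    have h2 := RegIso.reindex (s5_equiv N n) (D.oset R l (n + 1) k A)
    have h3 : {y : (Fin N × Fin n) ⊕ Fin N → ℂ |
        (fun i => y (s5_equiv N n i)) ∈ D.oset R l (n + 1) k A} =
        prodSet (D.oset R l n k A) (Set.univ : Set (Fin N → ℂ)) := by
      ext y
      have h4 : s5_tr (fun i => y (s5_equiv N n i)) = fun i => y (Sum.inl i) := by
        funext q
        simp [s5_tr, s5_equiv]
      simp only [Data.oset, prodSet, Set.mem_ofPred_eq, Set.mem_univ, and_true]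
      rw [← h4, s5_coeff D R l _ k hk]
      refine and_congr_left fun _ => ?_
      refine forall₂_congr fun i hi => ?_
      rw [s5_coeff D R l _ i (hi.trans hk)]
    rw [h3] at h2
    exact h2
  rw [h1, cls_prodSet (constr_oset D R l n k A hA') constr_univ, cls_univ, Fintype.card_fin,
    mul_comm]

theorem cls_oset_add (R : Finset (J ⊕ Fin N)) (l n k e : ℕ) (hk : k < n) (A : Set ℂ)
    (hA' : CV A) : cls (D.oset R l (n + e) k A) = LL ^ (N * e) * cls (D.oset R l n k A) := by
  induction e with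
  | zero => simp
  | succ e ih =>
    have h1 : cls (D.oset R l (n + (e + 1)) k A) = LL ^ N * cls (D.oset R l (n + e) k A) :=
      cls_oset_succ D R l (n + e) k (by omega) A hA'
    rw [h1, ih]
    ring

theorem s5_chi (χ : K0 →+* ℤ) (hχ : IsEulerChar χ) (R : Finset (J ⊕ Fin N))
    (l n e k : ℕ) (hk : k < n) (A : Set ℂ) (hA' : CV A) :
    χ (cls (D.oset R l (n + e) k A)) = χ (cls (D.oset R l n k A)) := by
  rw [cls_oset_add D R l n k e hk A hA', map_mul, map_pow, hχ.line, one_pow, one_mul]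

/-- the Euler characteristics do not depend on the number of levels -/
theorem chi_oset_eq (χ : K0 →+* ℤ) (hχ : IsEulerChar χ) (R : Finset (J ⊕ Fin N))
    (l n n' k : ℕ) (hk : k < n) (hk' : k < n') (A : Set ℂ) (hA' : CV A) :
    χ (cls (D.oset R l n k A)) = χ (cls (D.oset R l n' k A)) := by
  rcases le_total n n' with h | h
  · obtain ⟨e, rfl⟩ := Nat.exists_eq_add_of_le h
    exact (s5_chi D χ hχ R l n e k hk A hA').symm
  · obtain ⟨e, rfl⟩ := Nat.exists_eq_add_of_le h
    exact s5_chi D χ hχ R l n' e k hk' A hA'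

/-- constant terms -/
theorem s5_FF_zero (R : Finset (J ⊕ Fin N)) (l : ℕ) (x : Fin N × Fin 1 → ℂ) :
    (D.FF R l x).coeff 0 = D.Fv R l (fun j => x (j, 0)) := by
  have hstep : D.stepV R l x = fun j => x (j, 0) := by
    funext j
    unfold Data.stepV
    split_ifs
    · rfl
    · rfl
  have harc : ∀ j, (arc x j).coeff 0 = x (j, 0) := by
    intro j
    rw [arc_eq_pol, pol_coeff]
    simp
  have hyy : ∀ j, (D.yy R l x j).coeff 0 = D.yv R l (fun j => x (j, 0)) j := by
    intro j
    rw [yy_coeff_zero, hstep]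
  have hc : ∀ P : Polynomial ℂ, P.coeff 0 = Polynomial.constantCoeff P := fun P => rfl
  unfold Data.FF Data.Fv
  rw [hc, map_mul, map_prod, map_prod]
  congr 1
  · refine Finset.prod_congr rfl fun j _ => ?_
    split_ifs
    · rw [map_pow, ← hc, harc]
    · exact map_one _
  · refine Finset.prod_congr rfl fun κ _ => ?_
    split_ifs
    · rw [map_pow, map_sum]
      congr 1
      refine Finset.sum_congr rfl fun j _ => ?_
      rw [map_mul, ← hc (D.yy R l x j), hyy]
      simp
    · exact map_one _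

/-- order zero -/
theorem chi_oset_zero (χ : K0 →+* ℤ) (hχ : IsEulerChar χ) (R : Finset (J ⊕ Fin N))
    (l n : ℕ) (hn : 0 < n) :
    χ (cls (D.oset R l n 0 {1})) = χ (cls {v | D.Fv R l v = 1}) := by
  rw [chi_oset_eq D χ hχ R l n 1 0 hn one_pos {1} (cv_singleton 1)]
  congr 1
  have h2 := RegIso.reindex (Equiv.prodUnique (Fin N) (Fin 1)) (D.oset R l 1 0 {1})
  have h3 : {y : Fin N → ℂ | (fun i => y (Equiv.prodUnique (Fin N) (Fin 1) i)) ∈
      D.oset R l 1 0 {1}} = {v | D.Fv R l v = 1} := by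
    ext y
    simp only [Data.oset, Set.mem_ofPred_eq, Set.mem_singleton_iff, s5_FF_zero]
    constructor
    · exact fun h => h.2
    · exact fun h => ⟨fun i hi => absurd hi (by omega), h⟩
  rw [h3] at h2
  exact cls_iso (constr_oset D R l 1 0 {1} (cv_singleton 1)) (constr_Fv D R l) h2

end MotMono.Kum
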