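import Pool.Agent.Lib.MP_4e5fcd_ag.Kum.S4
import Pool.Agent.Lib.MP_4e5fcd_ag.P4
import Pool.Agent.Lib.MP_4e5fcd_ag.H3

/-! # KUM-Z1: the classes of the linear strata -/

open MvPolynomial

namespace MotMono.Kum

variable {N : ℕ} {J : Type} [Fintype J] [DecidableEq J] (D : Data N J)

theorem r_eq (R : Finset (J ⊕ Fin N)) :
    D.r R + Module.finrank ℂ (KK D.lam R) = N := by
  have h1 : Module.finrank ℂ (KK D.lam R) ≤ N := by
    have := Submodule.finrank_le (KK D.lam R)
    rwa [Module.finrank_fin_fun] at this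
  have h2 : D.r R = N - Module.finrank ℂ (KK D.lam R) := by
    unfold Data.r rk
    rw [finrank_top, Module.finrank_fin_fun, top_inf_eq]
  omega

theorem z1_lam_inr (j : Fin N) (v : Fin N → ℂ) : D.lam (Sum.inr j) ⬝ᵥ v = v j := by
  unfold Data.lam
  rw [Sum.elim_inr, single_dotProduct, one_mul]

/-- the map which deletes the delayed coordinates -/
noncomputable def z1T (R : Finset (J ⊕ Fin N)) (l : ℕ) : (Fin N → ℂ) →ₗ[ℂ] (Fin N → ℂ) where
  toFun := fun v j => if Sum.inr j ∈ R ∧ ¬ D.d j ∣ l then 0 else v j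
  map_add' := by
    intro v w
    funext j
    by_cases h : Sum.inr j ∈ R ∧ ¬ D.d j ∣ l
    · simp only [Pi.add_apply, if_pos h, add_zero]
    · simp only [Pi.add_apply, if_neg h]
  map_smul' := by
    intro c v
    funext j
    by_cases h : Sum.inr j ∈ R ∧ ¬ D.d j ∣ l
    · simp only [Pi.smul_apply, if_pos h, smul_zero]
    · simp only [Pi.smul_apply, if_neg h, RingHom.id_apply]

theorem z1T_apply (R : Finset (J ⊕ Fin N)) (l : ℕ) (v : Fin N → ℂ) (j : Fin N) :
    z1T D R l v j = if Sum.inr j ∈ R ∧ ¬ D.d j ∣ l then 0 else v j := rfl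

theorem z1_yv_eq (R : Finset (J ⊕ Fin N)) (l : ℕ) (v : Fin N → ℂ)
    (h : ∀ j, Sum.inr j ∈ R → D.d j ∣ l → v j = 0) : D.yv R l v = z1T D R l v := by
  funext j
  rw [z1T_apply]
  unfold Data.yv
  by_cases hR : Sum.inr j ∈ R
  · by_cases hd : D.d j ∣ l
    · rw [if_pos hR, if_pos hd, if_neg (fun hc => hc.2 hd), h j hR hd,
        zero_pow (D.hd j).ne']
    · rw [if_pos hR, if_neg hd, if_pos ⟨hR, hd⟩]
  · rw [if_neg hR, if_neg (fun hc => hR hc.1)]

theorem z1_gset_iff (R : Finset (J ⊕ Fin N)) (l : ℕ) (v : Fin N → ℂ) :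
    v ∈ D.gset R R l ↔ z1T D R l v ∈ KK D.lam R := by
  constructor
  · intro h
    have h1 : ∀ i ∈ R, D.lam i ⬝ᵥ D.yv R l v = 0 := fun i hi => (h i hi).mp hi
    have h2 : ∀ j, Sum.inr j ∈ R → D.d j ∣ l → v j = 0 := by
      intro j hj hd
      have h3 := h1 _ hj
      rw [z1_lam_inr] at h3
      unfold Data.yv at h3
      rw [if_pos hj, if_pos hd] at h3
      exact pow_eq_zero_iff (D.hd j).ne' |>.mp h3
    rw [z1_yv_eq D R l v h2] at h1
    exact h1
  · intro h
    have h1 : ∀ i ∈ R, D.lam i ⬝ᵥ z1T D R l v = 0 := h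
    have h2 : ∀ j, Sum.inr j ∈ R → D.d j ∣ l → v j = 0 := by
      intro j hj hd
      have h3 := h1 _ hj
      rw [z1_lam_inr, z1T_apply, if_neg (fun hc => hc.2 hd)] at h3
      exact h3
    intro i hi
    rw [z1_yv_eq D R l v h2]
    exact ⟨fun _ => h1 i hi, fun _ => hi⟩

/-- `gset R R l` is a linear subspace -/
theorem exists_gset_self (R : Finset (J ⊕ Fin N)) (l : ℕ) :
    ∃ U : Submodule ℂ (Fin N → ℂ), D.gset R R l = U ∧
      (Module.finrank ℂ U : ℤ) = N - D.cod R l := by
  classical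
  refine ⟨(KK D.lam R).comap (z1T D R l), ?_, ?_⟩
  · ext v
    rw [z1_gset_iff]
    rfl
  · set U : Submodule ℂ (Fin N → ℂ) := (KK D.lam R).comap (z1T D R l) with hU
    have hKK : ∀ w ∈ KK D.lam R, ∀ j, Sum.inr j ∈ R → w j = 0 := by
      intro w hw j hj
      have h1 : D.lam (Sum.inr j) ⬝ᵥ w = 0 := hw _ hj
      rwa [z1_lam_inr] at h1
    have hTi : ∀ (w : KK D.lam R) (u : {j : Fin N // Sum.inr j ∈ R ∧ ¬ D.d j ∣ l} → ℂ),
        z1T D R l (fun j => if h : Sum.inr j ∈ R ∧ ¬ D.d j ∣ l then u ⟨j, h⟩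
          else (w : Fin N → ℂ) j) = w := by
      intro w u
      funext j
      rw [z1T_apply]
      by_cases h : Sum.inr j ∈ R ∧ ¬ D.d j ∣ l
      · rw [if_pos h, hKK w w.2 j h.1]
      · rw [if_neg h, dif_neg h]
    let e : U ≃ₗ[ℂ] (KK D.lam R) × ({j : Fin N // Sum.inr j ∈ R ∧ ¬ D.d j ∣ l} → ℂ) :=
      { toFun := fun v => (⟨z1T D R l v, v.2⟩, fun j => (v : Fin N → ℂ) j)
        map_add' := by
          intro v w
          ext j
          · simp
          · rfl
        map_smul' := by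
          intro c v
          ext j
          · simp
          · rfl
        invFun := fun p => ⟨fun j => if h : Sum.inr j ∈ R ∧ ¬ D.d j ∣ l then p.2 ⟨j, h⟩
          else (p.1 : Fin N → ℂ) j, by
            change z1T D R l _ ∈ KK D.lam R
            rw [hTi p.1 p.2]
            exact p.1.2⟩
        left_inv := by
          intro v
          apply Subtype.ext
          funext j
          by_cases h : Sum.inr j ∈ R ∧ ¬ D.d j ∣ l
          · simp only [dif_pos h]
          · simp only [dif_neg h, z1T_apply, if_neg h]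
        right_inv := by
          rintro ⟨w, u⟩
          apply Prod.ext
          · apply Subtype.ext
            exact hTi w u
          · funext j
            simp only
            rw [dif_pos j.2] }
    have h1 : Module.finrank ℂ U = Module.finrank ℂ (KK D.lam R) +
        Fintype.card {j : Fin N // Sum.inr j ∈ R ∧ ¬ D.d j ∣ l} := by
      rw [e.finrank_eq, Module.finrank_prod, Module.finrank_fintype_fun_eq_card]
    have h2 : (∑ j : Fin N, if Sum.inr j ∈ R ∧ ¬ D.d j ∣ l then (1 : ℤ) else 0) =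
        (Fintype.card {j : Fin N // Sum.inr j ∈ R ∧ ¬ D.d j ∣ l} : ℤ) := by
      rw [Finset.sum_boole, Fintype.card_subtype]
    have h3 := r_eq D R
    unfold Data.cod
    rw [h2, h1]
    push_cast
    omega

theorem gh_self (R : Finset (J ⊕ Fin N)) (l : ℕ) :
    D.gh R R l = ((Lu ^ (-D.cod R l) : MCˣ) : MC) := by
  obtain ⟨U, hU, hf⟩ := exists_gset_self D R l
  have hLL : algebraMap K0 MC LL = ((Lu : MCˣ) : MC) := by
    unfold Lu
    rw [IsUnit.unit_spec]
  unfold Data.gh
  rw [hU, cls_submodule, map_pow, hLL, ← Units.val_pow_eq_pow_val, ← Units.val_mul,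
    ← zpow_natCast Lu, ← zpow_add, hf]
  congr 2
  ring

theorem chi_gset_self (χ : K0 →+* ℤ) (hχ : IsEulerChar χ) (R : Finset (J ⊕ Fin N)) (l : ℕ) :
    χ (cls (D.gset R R l)) = 1 := by
  obtain ⟨U, hU, -⟩ := exists_gset_self D R l
  rw [hU, cls_submodule, map_pow, hχ.line, one_pow]

end MotMono.Kum
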