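import Pool.Agent.Lib.MP_4e5fcd_ag.Kum.E4b
import Pool.Agent.Lib.MP_4e5fcd_ag.Kum.Z1
import Pool.Agent.Lib.MP_4e5fcd_ag.Kum.S5

/-! # KUM-E5: the recursion of the Euler characteristics -/

open MvPolynomial

namespace MotMono.Kum

variable {N : ℕ} {J : Type} [Fintype J] [DecidableEq J] (D : Data N J)

theorem chi_step (χ : K0 →+* ℤ) (hχ : IsEulerChar χ) (R : Finset (J ⊕ Fin N))
    (l n k : ℕ) (hk : 0 < k) (hn : k < n) :
    χ (cls (D.oset R l (n + 1) k {1})) =
      if D.wt R l ≤ k then χ (cls (D.oset R (l + 1) n (k - D.wt R l) {1})) else 0 := by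
  rw [cls_oset_step D R l n k (Or.inl hn) {1} (by simp) (cv_singleton 1), map_sum]
  rw [Finset.sum_eq_single R]
  · by_cases h : D.wt R l ≤ k
    · rw [if_pos h, if_pos h, cls_tset_self D R l n _ {1} (cv_singleton 1), map_mul,
        chi_gset_self D χ hχ, one_mul]
    · rw [if_neg h, if_neg h, map_zero]
  · intro R' hR' hne
    rw [Finset.mem_powerset] at hR'
    by_cases h : D.wt R' l ≤ k
    · rw [if_pos h]
      rcases Nat.eq_zero_or_pos (D.Nn R') with h0 | hpos
      · have hw : D.wt R' l = 0 := wt_of_Nn_eq_zero D R' h0 l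
        have he : D.tset R R' l n (k - D.wt R' l) {1} = ∅ := by
          rw [Set.eq_empty_iff_forall_notMem]
          rintro z ⟨-, hz, -⟩
          have h1 := hz 0 (by omega)
          rw [FF_of_Nn_eq_zero D R' h0, Polynomial.coeff_one_zero] at h1
          exact one_ne_zero h1
        rw [he, cls_empty, map_zero]
      · exact chi_tset D χ hχ R R' hR' hne hpos l n _
    · rw [if_neg h, map_zero]
  · intro h
    exact absurd (Finset.mem_powerset_self R) h

end MotMono.Kum
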