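import Pool.Agent.Lib.MP_4e5fcd_ag.Kum.E5

/-! # KUM-E5b: unrolling the recursion -/

open MvPolynomial

namespace MotMono.Kum

variable {N : ℕ} {J : Type} [Fintype J] [DecidableEq J] (D : Data N J)

theorem e5b_wt_pos (R : Finset (J ⊕ Fin N)) (κ : J) (hκ : Sum.inl κ ∈ R) (l : ℕ) :
    0 < D.wt R l := by
  have h1 : D.m κ ≤ ∑ κ, if Sum.inl κ ∈ R then D.m κ else 0 := by
    have h2 := Finset.single_le_sum (f := fun κ => if Sum.inl κ ∈ R then D.m κ else 0)
      (fun _ _ => Nat.zero_le _) (Finset.mem_univ κ)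
    simp only [if_pos hκ] at h2
    exact h2
  have h3 := D.hm κ
  unfold Data.wt
  omega

theorem e5b_sum (R : Finset (J ⊕ Fin N)) (l q : ℕ) :
    ∑ i ∈ Finset.range (q + 1), D.wt R (l + i) =
      D.wt R l + ∑ i ∈ Finset.range q, D.wt R (l + 1 + i) := by
  rw [Finset.sum_range_succ', add_comm, Nat.add_zero]
  congr 1
  refine Finset.sum_congr rfl fun i _ => ?_
  rw [show l + (i + 1) = l + 1 + i by ring]

/-- unrolling the recursion: reaching order zero at level `l + q` -/
theorem chi_reach (χ : K0 →+* ℤ) (hχ : IsEulerChar χ) (R : Finset (J ⊕ Fin N))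
    (κ : J) (hκ : Sum.inl κ ∈ R) (q l n k : ℕ) (hn : k < n)
    (hq : k = ∑ i ∈ Finset.range q, D.wt R (l + i)) :
    χ (cls (D.oset R l n k {1})) = χ (cls {v | D.Fv R (l + q) v = 1}) := by
  induction q generalizing l n k with
  | zero =>
    rw [Finset.range_zero, Finset.sum_empty] at hq
    subst hq
    exact chi_oset_zero D χ hχ R l n hn
  | succ q ih =>
    rw [e5b_sum] at hq
    have hw := e5b_wt_pos D R κ hκ l
    rw [chi_oset_eq D χ hχ R l n (k + 1 + 1) k hn (by omega) {1} (cv_singleton 1),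
      chi_step D χ hχ R l (k + 1) k (by omega) (by omega), if_pos (by omega),
      ih (l + 1) (k + 1) (k - D.wt R l) (by omega) (by omega)]
    rw [show l + 1 + q = l + (q + 1) by ring]

/-- unrolling the recursion: not reaching order zero -/
theorem chi_miss (χ : K0 →+* ℤ) (hχ : IsEulerChar χ) (R : Finset (J ⊕ Fin N))
    (κ : J) (hκ : Sum.inl κ ∈ R) (l n k : ℕ) (hn : k < n)
    (hq : ∀ q, k ≠ ∑ i ∈ Finset.range q, D.wt R (l + i)) :
    χ (cls (D.oset R l n k {1})) = 0 := by
  induction k using Nat.strong_induction_on generalizing l n with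
  | _ k ih =>
    have hk : 0 < k := by
      rcases Nat.eq_zero_or_pos k with h | h
      · exfalso
        apply hq 0
        rw [h, Finset.range_zero, Finset.sum_empty]
      · exact h
    have hw := e5b_wt_pos D R κ hκ l
    rw [chi_oset_eq D χ hχ R l n (k + 1 + 1) k hn (by omega) {1} (cv_singleton 1),
      chi_step D χ hχ R l (k + 1) k hk (by omega)]
    by_cases h : D.wt R l ≤ k
    · rw [if_pos h]
      refine ih (k - D.wt R l) (by omega) (l + 1) (k + 1) (by omega) fun q hq' => ?_
      apply hq (q + 1)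
      rw [e5b_sum]
      omega
    · rw [if_neg h]

end MotMono.Kum
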