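import Pool.Agent.Lib.MP_4e5fcd_ag.Kum.E3
import Pool.Agent.Lib.MP_4e5fcd_ag.Kum.E3b
import Pool.Agent.Lib.MP_4e5fcd_ag.Kum.E4

/-! # KUM-E6: the Euler characteristics of the generalised Milnor fibres -/

open MvPolynomial

namespace MotMono.Kum

variable {N : ℕ} {J : Type} [Fintype J] [DecidableEq J] (D : Data N J)

/-- the stratum of `K` in the state `(R, l)` -/
def Data.estr (R : Finset (J ⊕ Fin N)) (l : ℕ) (K : Finset (Fin N)) : Set (Fin N → ℂ) :=
  {v | (∀ κ, Sum.inl κ ∈ R → D.a κ ⬝ᵥ D.yv R l v ≠ 0) ∧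
    ∀ j, Sum.inr j ∈ R → D.d j ∣ l → (j ∈ K ↔ v j ≠ 0)}

theorem constr_estr (R : Finset (J ⊕ Fin N)) (l : ℕ) (K : Finset (Fin N)) :
    Constr (D.estr R l K) := by
  classical
  have h1 : ∀ κ : J, Constr {v : Fin N → ℂ | Sum.inl κ ∈ R → D.a κ ⬝ᵥ D.yv R l v ≠ 0} := by
    intro κ
    obtain ⟨P, hP⟩ := exists_yv_poly D R l (D.a κ)
    by_cases h : Sum.inl κ ∈ R
    · have e : {v : Fin N → ℂ | Sum.inl κ ∈ R → D.a κ ⬝ᵥ D.yv R l v ≠ 0} =
          {v | eval v P ≠ 0} := by
        ext v
        simp only [Set.mem_ofPred_eq, hP]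
        exact ⟨fun hh => hh h, fun hh _ => hh⟩
      rw [e]
      exact constr_ne P
    · have e : {v : Fin N → ℂ | Sum.inl κ ∈ R → D.a κ ⬝ᵥ D.yv R l v ≠ 0} = Set.univ := by
        ext v
        simp only [Set.mem_ofPred_eq, Set.mem_univ, iff_true]
        exact fun hh => absurd hh h
      rw [e]
      exact constr_univ
  have h2 : ∀ j : Fin N, Constr {v : Fin N → ℂ | Sum.inr j ∈ R → D.d j ∣ l →
      (j ∈ K ↔ v j ≠ 0)} := by
    intro j
    by_cases h : Sum.inr j ∈ R ∧ D.d j ∣ l
    · by_cases hj : j ∈ K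
      · have e : {v : Fin N → ℂ | Sum.inr j ∈ R → D.d j ∣ l → (j ∈ K ↔ v j ≠ 0)} =
            {v | eval v (X j : MvPolynomial (Fin N) ℂ) ≠ 0} := by
          ext v
          simp only [Set.mem_ofPred_eq, eval_X]
          exact ⟨fun hh => (hh h.1 h.2).1 hj, fun hh _ _ => ⟨fun _ => hh, fun _ => hj⟩⟩
        rw [e]
        exact constr_ne _
      · have e : {v : Fin N → ℂ | Sum.inr j ∈ R → D.d j ∣ l → (j ∈ K ↔ v j ≠ 0)} =
            {v | eval v (X j : MvPolynomial (Fin N) ℂ) = 0} := by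
          ext v
          simp only [Set.mem_ofPred_eq, eval_X]
          constructor
          · intro hh
            by_contra hne
            exact hj ((hh h.1 h.2).2 hne)
          · intro hh _ _
            exact ⟨fun h' => absurd h' hj, fun h' => absurd hh h'⟩
        rw [e]
        exact Constr.zeroSet _
    · have e : {v : Fin N → ℂ | Sum.inr j ∈ R → D.d j ∣ l → (j ∈ K ↔ v j ≠ 0)} = Set.univ := by
        ext v
        simp only [Set.mem_ofPred_eq, Set.mem_univ, iff_true]
        exact fun h1 h2 => absurd ⟨h1, h2⟩ h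
      rw [e]
      exact constr_univ
  have e : D.estr R l K = (⋂ κ : J, {v : Fin N → ℂ | Sum.inl κ ∈ R →
      D.a κ ⬝ᵥ D.yv R l v ≠ 0}) ∩ ⋂ j : Fin N, {v : Fin N → ℂ | Sum.inr j ∈ R → D.d j ∣ l →
      (j ∈ K ↔ v j ≠ 0)} := by
    ext v
    simp only [Data.estr, Set.mem_ofPred_eq, Set.mem_inter_iff, Set.mem_iInter]
  rw [e]
  exact (constr_iInter h1).inter (constr_iInter h2)

/-- the vector with the delayed coordinates replaced by zero -/
noncomputable def e6_cut (R : Finset (J ⊕ Fin N)) (l : ℕ) (w : Fin N → ℂ) (j : Fin N) : ℂ :=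
  if Sum.inr j ∈ R ∧ ¬ D.d j ∣ l then 0 else w j

theorem e6_constr_cut (R : Finset (J ⊕ Fin N)) (l : ℕ) {E : Set (Fin N → ℂ)} (hE : Constr E) :
    Constr {w : Fin N → ℂ | e6_cut D R l w ∈ E} := by
  have h := hE.preimage (fun j => if Sum.inr j ∈ R ∧ ¬ D.d j ∣ l then
    (0 : MvPolynomial (Fin N) ℂ) else X j)
  have e : {w : Fin N → ℂ | e6_cut D R l w ∈ E} = {x : Fin N → ℂ | (fun j => eval x
      (if Sum.inr j ∈ R ∧ ¬ D.d j ∣ l then (0 : MvPolynomial (Fin N) ℂ) else X j)) ∈ E} := by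
    ext w
    have e2 : e6_cut D R l w = fun j => eval w
      (if Sum.inr j ∈ R ∧ ¬ D.d j ∣ l then (0 : MvPolynomial (Fin N) ℂ) else X j) := by
      funext j
      unfold e6_cut
      split_ifs <;> simp
    rw [Set.mem_ofPred_eq, Set.mem_ofPred_eq, e2]
  rw [e]
  exact h

/-- a set which is a product with the space of the delayed coordinates -/
theorem e6_chi_cut (χ : K0 →+* ℤ) (hχ : IsEulerChar χ) (R : Finset (J ⊕ Fin N)) (l : ℕ)
    {E : Set (Fin N → ℂ)} (hE : Constr E)
    (h0 : ∀ y ∈ E, ∀ j, Sum.inr j ∈ R → ¬ D.d j ∣ l → y j = 0) :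
    χ (cls {w : Fin N → ℂ | e6_cut D R l w ∈ E}) = χ (cls E) := by
  classical
  set del : Fin N → Prop := fun j => Sum.inr j ∈ R ∧ ¬ D.d j ∣ l with hdel
  have hiso : RegIso {w : Fin N → ℂ | e6_cut D R l w ∈ E}
      (prodSet E (Set.univ : Set ({j : Fin N // del j} → ℂ))) := by
    refine ⟨fun w => Sum.elim (e6_cut D R l w) (fun j => w j.1),
      fun z j => if h : del j then z (Sum.inr ⟨j, h⟩) else z (Sum.inl j), ?_, ?_, ?_, ?_, ?_, ?_⟩
    · intro i
      rcases i with j | j
      · by_cases h : del j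
        · refine (regFun_const _ 0).congr fun w _ => ?_
          simp only [Sum.elim_inl, e6_cut]
          rw [if_pos h]
        · refine (regFun_coord _ j).congr fun w _ => ?_
          simp only [Sum.elim_inl, e6_cut]
          rw [if_neg h]
      · exact regFun_coord _ j.1
    · intro j
      by_cases h : del j
      · refine (regFun_coord _ (Sum.inr ⟨j, h⟩)).congr fun z _ => ?_
        beta_reduce
        rw [dif_pos h]
      · refine (regFun_coord _ (Sum.inl j)).congr fun z _ => ?_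
        beta_reduce
        rw [dif_neg h]
    · intro w hw
      exact ⟨hw, Set.mem_univ _⟩
    · intro z hz
      have e : e6_cut D R l (fun j => if h : del j then z (Sum.inr ⟨j, h⟩) else z (Sum.inl j)) =
          fun j => z (Sum.inl j) := by
        funext j
        unfold e6_cut
        by_cases h : del j
        · rw [if_pos h]
          exact (h0 _ hz.1 j h.1 h.2).symm
        · rw [if_neg h]
          beta_reduce
          rw [dif_neg h]
      rw [Set.mem_ofPred_eq, e]
      exact hz.1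
    · intro w hw
      funext j
      by_cases h : del j
      · simp only [dif_pos h, Sum.elim_inr]
      · simp only [dif_neg h, Sum.elim_inl, e6_cut]
        rw [if_neg h]
    · intro z hz
      funext i
      rcases i with j | j
      · simp only [Sum.elim_inl, e6_cut]
        by_cases h : del j
        · rw [if_pos h]
          exact (h0 _ hz.1 j h.1 h.2).symm
        · rw [if_neg h]
          beta_reduce
          rw [dif_neg h]
      · simp only [Sum.elim_inr]
        rw [dif_pos j.2]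
  rw [cls_iso (e6_constr_cut D R l hE) (hE.prodSet constr_univ) hiso,
    cls_prodSet hE constr_univ, cls_univ, map_mul, map_pow, hχ.line, one_pow, mul_one]

/-- the slice of a stratum is an iterated cyclic covering -/
theorem chi_estr_slice (χ : K0 →+* ℤ) (hχ : IsEulerChar χ) (R : Finset (J ⊕ Fin N))
    (κ : J) (hκ : Sum.inl κ ∈ R) (l : ℕ) (K : Finset (Fin N)) (hK : K ⊆ ZR R)
    (hKl : ∀ j ∈ K, D.d j ∣ l) :
    χ (cls {v | v ∈ D.estr R l K ∧ D.a κ ⬝ᵥ D.yv R l v = 1}) =
      (∏ j ∈ K, (D.d j : ℤ)) * χ (cls (D.hset R (Sum.inl κ) K)) := by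
  classical
  have hKR : ∀ j ∈ K, Sum.inr j ∈ R := by
    intro j hj
    have := hK hj
    simpa [ZR] using this
  have hH : Constr (D.hset R (Sum.inl κ) K) := constr_hset D R _ K
  have hset_eq : {v | v ∈ D.estr R l K ∧ D.a κ ⬝ᵥ D.yv R l v = 1} =
      {v : Fin N → ℂ | (fun j => if j ∈ K then v j ^ D.d j else v j) ∈
        {w : Fin N → ℂ | e6_cut D R l w ∈ D.hset R (Sum.inl κ) K}} := by
    ext v
    rw [Set.mem_ofPred_eq, Set.mem_ofPred_eq, Set.mem_ofPred_eq]
    set w : Fin N → ℂ := fun j => if j ∈ K then v j ^ D.d j else v j with hw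
    -- comparison of `yv` and `cut w`
    have key : (∀ j, Sum.inr j ∈ R → D.d j ∣ l → (j ∈ K ↔ v j ≠ 0)) →
        D.yv R l v = e6_cut D R l w := by
      intro hv
      funext j
      unfold Data.yv e6_cut
      by_cases h1 : Sum.inr j ∈ R
      · by_cases h2 : D.d j ∣ l
        · rw [if_pos h1, if_pos h2, if_neg (fun h => h.2 h2)]
          simp only [hw]
          by_cases h3 : j ∈ K
          · rw [if_pos h3]
          · rw [if_neg h3]
            have h4 : v j = 0 := by
              by_contra hne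
              exact h3 ((hv j h1 h2).2 hne)
            rw [h4, zero_pow (D.hd j).ne']
        · rw [if_pos h1, if_neg h2, if_pos ⟨h1, h2⟩]
      · rw [if_neg h1, if_neg (fun h => h1 h.1)]
        simp only [hw]
        rw [if_neg (fun h => h1 (hKR j h))]
    constructor
    · rintro ⟨⟨hv1, hv2⟩, hv3⟩
      have hy := key hv2
      refine ⟨?_, ?_, ?_⟩
      · rw [← hy]
        exact hv3
      · intro κ' hκ'
        rw [← hy]
        exact hv1 κ' hκ'
      · intro j hj
        by_cases h2 : D.d j ∣ l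
        · unfold e6_cut
          rw [if_neg (fun h => h.2 h2)]
          simp only [hw]
          by_cases h3 : j ∈ K
          · rw [if_pos h3]
            exact ⟨fun _ => pow_ne_zero _ ((hv2 j hj h2).1 h3), fun _ => h3⟩
          · rw [if_neg h3]
            exact hv2 j hj h2
        · have h3 : j ∉ K := fun h => h2 (hKl j h)
          unfold e6_cut
          rw [if_pos ⟨hj, h2⟩]
          exact ⟨fun h => absurd h h3, fun h => absurd rfl h⟩
    · rintro ⟨hy1, hy2, hy3⟩
      have hv2 : ∀ j, Sum.inr j ∈ R → D.d j ∣ l → (j ∈ K ↔ v j ≠ 0) := by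
        intro j hj h2
        have h4 := hy3 j hj
        unfold e6_cut at h4
        rw [if_neg (fun h => h.2 h2)] at h4
        simp only [hw] at h4
        by_cases h3 : j ∈ K
        · rw [if_pos h3] at h4
          refine ⟨fun _ hv0 => ?_, fun _ => h3⟩
          have := h4.1 h3
          rw [hv0, zero_pow (D.hd j).ne'] at this
          exact this rfl
        · rw [if_neg h3] at h4
          exact h4
      have hy := key hv2
      refine ⟨⟨?_, hv2⟩, ?_⟩
      · intro κ' hκ'
        rw [hy]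
        exact hy2 κ' hκ'
      · rw [hy]
        exact hy1
  rw [hset_eq, chi_kummer_iter χ hχ _ (e6_constr_cut D R l hH) D.d D.hd K ?_,
    e6_chi_cut D χ hχ R l hH ?_]
  · intro y hy j hj h2
    by_contra hne
    exact h2 (hKl j ((hy.2.2 j hj).2 hne))
  · intro y hy j hj
    have h1 := (hy.2.2 j (hKR j hj)).1 hj
    unfold e6_cut at h1
    rw [if_neg (fun h => h.2 (hKl j hj))] at h1
    exact h1

theorem e6_zpow_sum {ι : Type} (s : Finset ι) (f : ι → ℤ) {τ : ℂ} (hτ : τ ≠ 0) :
    ∏ i ∈ s, τ ^ f i = τ ^ ∑ i ∈ s, f i := by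
  classical
  induction s using Finset.induction_on with
  | empty => simp
  | insert i s hi ih => rw [Finset.prod_insert hi, Finset.sum_insert hi, ih, zpow_add₀ hτ]

theorem chi_Fv_zero (χ : K0 →+* ℤ) (hχ : IsEulerChar χ) (R : Finset (J ⊕ Fin N))
    (κ : J) (hκ : Sum.inl κ ∈ R) (l : ℕ) (j : Fin N) (hj : Sum.inr j ∈ R) (hb : 1 ≤ D.b j)
    (hl : ¬ D.d j ∣ l) : χ (cls {v | D.Fv R l v = 1}) = 0 := by
  classical
  obtain ⟨P, hP⟩ := exists_yv_poly D R l (D.a κ)
  set e' : ℤ := (∑ i, if i ≠ j ∧ Sum.inr i ∈ R then (D.b i : ℤ) * D.wv R l i else 0) +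
    D.M * ∑ κ', if Sum.inl κ' ∈ R then (D.m κ' : ℤ) else 0 with he'
  set w : Fin N → ℤ := fun i => if i = j then -e' else (D.b j : ℤ) * D.wv R l i with hw
  -- scaling of `yv`
  have hyv : ∀ (v : Fin N → ℂ) (τ : ℂ), τ ≠ 0 → ∀ i, D.yv R l (fun i => τ ^ w i * v i) i =
      τ ^ (D.b j * D.M) * D.yv R l v i := by
    intro v τ hτ i
    have hwi : i ≠ j → τ ^ w i = τ ^ (D.b j * D.wv R l i) := by
      intro hij
      simp only [hw, if_neg hij]
      rw [← Nat.cast_mul, zpow_natCast]
    unfold Data.yv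
    by_cases h1 : Sum.inr i ∈ R
    · rw [if_pos h1, if_pos h1]
      by_cases h2 : D.d i ∣ l
      · rw [if_pos h2, if_pos h2]
        have hij : i ≠ j := by
          rintro rfl
          exact hl h2
        simp only [hwi hij, mul_pow, ← pow_mul]
        congr 2
        unfold Data.wv
        rw [if_pos h1, if_pos h2, mul_assoc, Nat.div_mul_cancel (dvd_M D i)]
      · rw [if_neg h2, if_neg h2, mul_zero]
    · rw [if_neg h1, if_neg h1]
      have hij : i ≠ j := by
        rintro rfl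
        exact h1 hj
      simp only [hwi hij]
      congr 2
      unfold Data.wv
      rw [if_neg h1]
  have hdot : ∀ (v : Fin N → ℂ) (τ : ℂ), τ ≠ 0 → ∀ c : Fin N → ℂ,
      c ⬝ᵥ D.yv R l (fun i => τ ^ w i * v i) = τ ^ (D.b j * D.M) * (c ⬝ᵥ D.yv R l v) := by
    intro v τ hτ c
    unfold dotProduct
    rw [Finset.mul_sum]
    refine Finset.sum_congr rfl fun i _ => ?_
    rw [hyv v τ hτ i]
    ring
  have hFv : ∀ (v : Fin N → ℂ) (τ : ℂ), τ ≠ 0 →
      D.Fv R l (fun i => τ ^ w i * v i) = D.Fv R l v := by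
    intro v τ hτ
    unfold Data.Fv
    have e1 : ∀ i, (if Sum.inr i ∈ R then (τ ^ w i * v i) ^ D.b i else 1) =
        τ ^ (if Sum.inr i ∈ R then w i * D.b i else 0) *
          (if Sum.inr i ∈ R then v i ^ D.b i else 1) := by
      intro i
      split_ifs
      · rw [mul_pow, zpow_mul, zpow_natCast]
      · simp
    have e2 : ∀ κ', (if Sum.inl κ' ∈ R then (D.a κ' ⬝ᵥ D.yv R l fun i => τ ^ w i * v i) ^ D.m κ'
        else 1) = τ ^ (if Sum.inl κ' ∈ R then ((D.b j : ℤ) * D.M) * D.m κ' else 0) *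
          (if Sum.inl κ' ∈ R then (D.a κ' ⬝ᵥ D.yv R l v) ^ D.m κ' else 1) := by
      intro κ'
      split_ifs
      · have e3 : τ ^ ((D.b j : ℤ) * D.M) = τ ^ (D.b j * D.M) := by
          rw [← Nat.cast_mul, zpow_natCast]
        rw [hdot v τ hτ, mul_pow, zpow_mul, zpow_natCast, e3]
      · simp
    rw [Finset.prod_congr rfl fun i _ => e1 i, Finset.prod_congr rfl fun i _ => e2 i,
      Finset.prod_mul_distrib, Finset.prod_mul_distrib, e6_zpow_sum _ _ hτ, e6_zpow_sum _ _ hτ]
    have hsum : (∑ i, if Sum.inr i ∈ R then w i * (D.b i : ℤ) else 0) +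
        ∑ κ', (if Sum.inl κ' ∈ R then ((D.b j : ℤ) * D.M) * D.m κ' else 0) = 0 := by
      have h1 : ∀ i, (if Sum.inr i ∈ R then w i * (D.b i : ℤ) else 0) =
          (if i = j then -e' * D.b j else 0) +
            D.b j * (if i ≠ j ∧ Sum.inr i ∈ R then (D.b i : ℤ) * D.wv R l i else 0) := by
        intro i
        by_cases hij : i = j
        · subst hij
          rw [if_pos hj, if_pos rfl, if_neg (fun h => h.1 rfl)]
          simp only [hw, if_true]
          ring
        · rw [if_neg hij]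
          by_cases h2 : Sum.inr i ∈ R
          · rw [if_pos h2, if_pos ⟨hij, h2⟩]
            simp only [hw, if_neg hij]
            ring
          · rw [if_neg h2, if_neg (fun h => h2 h.2)]
            ring
      have h2 : ∀ κ', (if Sum.inl κ' ∈ R then ((D.b j : ℤ) * D.M) * D.m κ' else 0) =
          (D.b j : ℤ) * D.M * (if Sum.inl κ' ∈ R then (D.m κ' : ℤ) else 0) := by
        intro κ'
        split_ifs <;> ring
      rw [Finset.sum_congr rfl fun i _ => h1 i, Finset.sum_congr rfl fun i _ => h2 i,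
        Finset.sum_add_distrib, ← Finset.mul_sum, ← Finset.mul_sum, Finset.sum_ite_eq'
        Finset.univ j, if_pos (Finset.mem_univ _), he']
      ring
    have hone : τ ^ (∑ i, if Sum.inr i ∈ R then w i * (D.b i : ℤ) else 0) *
        τ ^ (∑ κ', (if Sum.inl κ' ∈ R then ((D.b j : ℤ) * D.M) * D.m κ' else 0)) = 1 := by
      rw [← zpow_add₀ hτ, hsum, zpow_zero]
    calc _ = (τ ^ (∑ i, if Sum.inr i ∈ R then w i * (D.b i : ℤ) else 0) *
        τ ^ (∑ κ', (if Sum.inl κ' ∈ R then ((D.b j : ℤ) * D.M) * D.m κ' else 0))) *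
        ((∏ i, if Sum.inr i ∈ R then v i ^ D.b i else 1) *
        ∏ κ', if Sum.inl κ' ∈ R then (D.a κ' ⬝ᵥ D.yv R l v) ^ D.m κ' else 1) := by ring
      _ = _ := by rw [hone, one_mul]
  refine chi_torus χ hχ {v | D.Fv R l v = 1} (constr_Fv D R l) w P (D.b j * D.M)
    (Nat.mul_pos hb (M_pos D)) ?_ ?_ ?_
  · intro v hv τ hτ
    rw [Set.mem_ofPred_eq, hFv v τ hτ]
    exact hv
  · intro v hv
    rw [hP]
    intro h0
    rw [Set.mem_ofPred_eq] at hv
    unfold Data.Fv at hv
    have hz : ∏ κ', (if Sum.inl κ' ∈ R then (D.a κ' ⬝ᵥ D.yv R l v) ^ D.m κ' else 1) = 0 := by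
      apply Finset.prod_eq_zero (Finset.mem_univ κ)
      rw [if_pos hκ, h0, zero_pow (D.hm κ).ne']
    rw [hz, mul_zero] at hv
    exact zero_ne_one hv
  · intro v _ τ hτ
    rw [hP, hP, hdot v τ hτ]

end MotMono.Kum
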