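import Pool.Agent.Lib.MP_4e5fcd_ag.Kum.E6

/-! # KUM-E6b: the Euler characteristics of the generalised Milnor fibres -/

open MvPolynomial

namespace MotMono.Kum

variable {N : ℕ} {J : Type} [Fintype J] [DecidableEq J] (D : Data N J)

theorem e6b_mem_ZR (R : Finset (J ⊕ Fin N)) (j : Fin N) : j ∈ ZR R ↔ Sum.inr j ∈ R := by
  unfold ZR
  simp

theorem e6b_mem_Zb (R : Finset (J ⊕ Fin N)) (j : Fin N) :
    j ∈ D.Zb R ↔ Sum.inr j ∈ R ∧ 1 ≤ D.b j := by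
  unfold Data.Zb
  simp

/-- the support of a vector in the state `(R, l)` -/
noncomputable def e6b_K (R : Finset (J ⊕ Fin N)) (l : ℕ) (v : Fin N → ℂ) : Finset (Fin N) := by
  classical
  exact Finset.univ.filter fun j => Sum.inr j ∈ R ∧ D.d j ∣ l ∧ v j ≠ 0

theorem e6b_mem_K (R : Finset (J ⊕ Fin N)) (l : ℕ) (v : Fin N → ℂ) (j : Fin N) :
    j ∈ e6b_K D R l v ↔ Sum.inr j ∈ R ∧ D.d j ∣ l ∧ v j ≠ 0 := by
  unfold e6b_K
  simp

theorem e6b_Fv_factors (R : Finset (J ⊕ Fin N)) (l : ℕ) (v : Fin N → ℂ) (h : D.Fv R l v ≠ 0) :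
    (∀ κ, Sum.inl κ ∈ R → D.a κ ⬝ᵥ D.yv R l v ≠ 0) ∧
      ∀ j, Sum.inr j ∈ R → 1 ≤ D.b j → v j ≠ 0 := by
  unfold Data.Fv at h
  have h1 := left_ne_zero_of_mul h
  have h2 := right_ne_zero_of_mul h
  constructor
  · intro κ hκ h0
    have h3 := Finset.prod_ne_zero_iff.mp h2 κ (Finset.mem_univ _)
    rw [if_pos hκ, h0, zero_pow (D.hm κ).ne'] at h3
    exact h3 rfl
  · intro j hj hb h0
    have h3 := Finset.prod_ne_zero_iff.mp h1 j (Finset.mem_univ _)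
    rw [if_pos hj, h0, zero_pow (by omega)] at h3
    exact h3 rfl

theorem e6b_Fv_ne_zero (R : Finset (J ⊕ Fin N)) (l : ℕ)
    (hl : ∀ j, Sum.inr j ∈ R → 1 ≤ D.b j → D.d j ∣ l) (K : Finset (Fin N)) (hK : D.Zb R ⊆ K)
    (v : Fin N → ℂ) (hv : v ∈ D.estr R l K) : D.Fv R l v ≠ 0 := by
  unfold Data.Fv
  refine mul_ne_zero (Finset.prod_ne_zero_iff.mpr fun j _ => ?_)
    (Finset.prod_ne_zero_iff.mpr fun κ _ => ?_)
  · split_ifs with h
    · rcases Nat.eq_zero_or_pos (D.b j) with hb | hb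
      · rw [hb, pow_zero]; exact one_ne_zero
      · exact pow_ne_zero _ ((hv.2 j h (hl j h hb)).mp (hK ((e6b_mem_Zb D R j).mpr ⟨h, hb⟩)))
    · exact one_ne_zero
  · split_ifs with h
    · exact pow_ne_zero _ (hv.1 κ h)
    · exact one_ne_zero

theorem chi_Fv (χ : K0 →+* ℤ) (hχ : IsEulerChar χ) (R : Finset (J ⊕ Fin N))
    (κ : J) (hκ : Sum.inl κ ∈ R) (l : ℕ)
    (hl : ∀ j, Sum.inr j ∈ R → 1 ≤ D.b j → D.d j ∣ l) :
    (D.M : ℤ) * χ (cls {v | D.Fv R l v = 1}) =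
      D.Nn R * ∑ K ∈ (ZR R).powerset.filter (fun K => D.Zb R ⊆ K ∧ ∀ j ∈ K, D.d j ∣ l),
        (∏ j ∈ K, (D.d j : ℤ)) * χ (cls (D.hset R (Sum.inl κ) K)) := by
  set S := (ZR R).powerset.filter (fun K => D.Zb R ⊆ K ∧ ∀ j ∈ K, D.d j ∣ l) with hS
  have hSm : ∀ K, K ∈ S ↔ K ⊆ ZR R ∧ D.Zb R ⊆ K ∧ ∀ j ∈ K, D.d j ∣ l := by
    intro K
    rw [hS, Finset.mem_filter, Finset.mem_powerset]
  let E : Finset (Fin N) → Set (Fin N → ℂ) := fun K => {v | v ∈ D.estr R l K ∧ D.Fv R l v = 1}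
  have hEc : ∀ K, Constr (E K) := fun K => (constr_estr D R l K).inter (constr_Fv D R l)
  have hunion : {v | D.Fv R l v = 1} = ⋃ K ∈ S, E K := by
    ext v
    simp only [Set.mem_iUnion, exists_prop, Set.mem_ofPred_eq, E]
    constructor
    · intro hv
      have hne : D.Fv R l v ≠ 0 := by rw [hv]; exact one_ne_zero
      obtain ⟨h1, h2⟩ := e6b_Fv_factors D R l v hne
      refine ⟨e6b_K D R l v, (hSm _).mpr ⟨fun j hj => ?_, fun j hj => ?_, fun j hj => ?_⟩, ⟨h1, ?_⟩,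
        hv⟩
      · exact (e6b_mem_ZR R j).mpr ((e6b_mem_K D R l v j).mp hj).1
      · obtain ⟨h3, h4⟩ := (e6b_mem_Zb D R j).mp hj
        exact (e6b_mem_K D R l v j).mpr ⟨h3, hl j h3 h4, h2 j h3 h4⟩
      · exact ((e6b_mem_K D R l v j).mp hj).2.1
      · intro j hj hd
        rw [e6b_mem_K]
        exact ⟨fun h => h.2.2, fun h => ⟨hj, hd, h⟩⟩
    · rintro ⟨K, -, -, hv⟩
      exact hv
  have hdisj : ∀ K ∈ S, ∀ K' ∈ S, K ≠ K' → Disjoint (E K) (E K') := by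
    intro K hK K' hK' hne
    rw [Set.disjoint_left]
    rintro v ⟨hv, -⟩ ⟨hv', -⟩
    apply hne
    obtain ⟨a1, -, a3⟩ := (hSm K).mp hK
    obtain ⟨b1, -, b3⟩ := (hSm K').mp hK'
    ext j
    constructor
    · intro hj
      have h1 := (e6b_mem_ZR R j).mp (a1 hj)
      exact (hv'.2 j h1 (a3 j hj)).mpr ((hv.2 j h1 (a3 j hj)).mp hj)
    · intro hj
      have h1 := (e6b_mem_ZR R j).mp (b1 hj)
      exact (hv.2 j h1 (b3 j hj)).mpr ((hv'.2 j h1 (b3 j hj)).mp hj)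
  rw [hunion, cls_biUnion S (fun K _ => hEc K) hdisj, map_sum, Finset.mul_sum, Finset.mul_sum]
  refine Finset.sum_congr rfl fun K hK => ?_
  obtain ⟨k1, k2, k3⟩ := (hSm K).mp hK
  rw [← chi_estr_slice D χ hχ R κ hκ l K k1 k3]
  obtain ⟨h, hh⟩ := exists_yv_poly D R l (D.a κ)
  obtain ⟨F, hF⟩ := exists_Fv_poly D R l
  have hNn : 0 < D.Nn R := by
    rw [Nat.pos_iff_ne_zero]
    intro h0
    exact ((Nn_eq_zero_iff D R).mp h0).1 κ hκ
  have hw1 : ∀ (x : Fin N → ℂ) (τ : ℂ), (fun i => τ ^ ((D.wv R l i : ℕ) : ℤ) * x i) =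
      fun j => τ ^ D.wv R l j * x j := by
    intro x τ
    funext i
    rw [zpow_natCast]
  have key := chi_slice χ hχ (D.estr R l K) (constr_estr D R l K) (fun i => (D.wv R l i : ℤ)) h F
    D.M (D.Nn R) (M_pos D) hNn ?_ ?_ ?_ ?_ ?_
  · have e1 : {x | x ∈ D.estr R l K ∧ eval x F = 1} = E K := by
      ext x
      simp only [Set.mem_ofPred_eq, hF, E]
    have e2 : {x | x ∈ D.estr R l K ∧ eval x h = 1} =
        {v | v ∈ D.estr R l K ∧ D.a κ ⬝ᵥ D.yv R l v = 1} := by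
      ext x
      simp only [Set.mem_ofPred_eq, hh]
    rw [e1, e2] at key
    exact key
  · intro x hx τ hτ
    rw [hw1]
    refine ⟨fun κ' hκ' => ?_, fun j hj hd => ?_⟩
    · rw [dot_yv_scale]
      exact mul_ne_zero (pow_ne_zero _ hτ) (hx.1 κ' hκ')
    · rw [hx.2 j hj hd]
      constructor
      · intro h1
        exact mul_ne_zero (pow_ne_zero _ hτ) h1
      · intro h1
        exact right_ne_zero_of_mul h1
  · intro x hx
    rw [hh]
    exact hx.1 κ hκ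
  · intro x hx
    rw [hF]
    exact e6b_Fv_ne_zero D R l hl K k2 x hx
  · intro x _ τ _
    rw [hw1, hh, hh, dot_yv_scale]
  · intro x _ τ _
    rw [hw1, hF, hF, Fv_scale D R l hl]

end MotMono.Kum
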