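import Pool.Agent.Lib.MP_4e5fcd_ag.Kum.Z3

/-! # KUM-E7a: arithmetic of the orders -/

open MvPolynomial

namespace MotMono.Kum

variable {N : ℕ} {J : Type} [Fintype J] [DecidableEq J] (D : Data N J)

theorem MK_dvd_iff (K : Finset (Fin N)) (l : ℕ) : D.MK K ∣ l ↔ ∀ j ∈ K, D.d j ∣ l :=
  Finset.lcm_dvd_iff

theorem MK_dvd_prod (K : Finset (Fin N)) : D.MK K ∣ ∏ j ∈ K, D.d j :=
  (MK_dvd_iff D K _).mpr fun _ hj => Finset.dvd_prod_of_mem D.d hj

theorem MK_pos (K : Finset (Fin N)) : 0 < D.MK K :=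
  Nat.pos_of_dvd_of_pos (MK_dvd_prod D K) (Finset.prod_pos fun j _ => D.hd j)

theorem E7a_div (M K d : ℕ) (hM : d ∣ M) (hK : d ∣ K) : M * (K / d) = M / d * K := by
  rw [← Nat.mul_div_assoc _ hK, Nat.div_mul_right_comm hM]

theorem M_mul_nK (R : Finset (J ⊕ Fin N)) (K : Finset (Fin N)) (hK : D.Zb R ⊆ K) :
    D.M * D.nK R K = D.Nn R * D.MK K := by
  unfold Data.nK Data.Nn
  rw [mul_add, add_mul, ← mul_assoc]
  congr 1
  rw [Finset.mul_sum, Finset.sum_mul]
  apply Finset.sum_congr rfl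
  intro j _
  by_cases hj : Sum.inr j ∈ R
  · rw [if_pos hj, if_pos hj]
    rcases Nat.eq_zero_or_pos (D.b j) with hb | hb
    · rw [hb]
      simp
    · have hjK : j ∈ K := hK (by
        unfold Data.Zb
        rw [Finset.mem_filter]
        exact ⟨Finset.mem_univ _, hj, hb⟩)
      have h1 : D.d j ∣ D.MK K := Finset.dvd_lcm hjK
      have h2 := E7a_div D.M (D.MK K) (D.d j) (dvd_M D j) h1
      calc D.M * (D.b j * (D.MK K / D.d j)) = D.b j * (D.M * (D.MK K / D.d j)) := by ring
        _ = D.b j * (D.M / D.d j * D.MK K) := by rw [h2]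
        _ = D.b j * (D.M / D.d j) * D.MK K := by ring
  · rw [if_neg hj, if_neg hj, mul_zero, zero_mul]

theorem nK_pos (R : Finset (J ⊕ Fin N)) (hR : 0 < D.Nn R) (K : Finset (Fin N))
    (hK : D.Zb R ⊆ K) : 0 < D.nK R K := by
  have h1 := M_mul_nK D R K hK
  have h2 : 0 < D.M * D.nK R K := by
    rw [h1]
    exact Nat.mul_pos hR (MK_pos D K)
  exact Nat.pos_of_mul_pos_left h2

/-- the sum of the weights below a level divisible by all `d_j`, `b_j ≥ 1` -/
theorem M_mul_sum_wt (R : Finset (J ⊕ Fin N)) (l : ℕ)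
    (hl : ∀ j, Sum.inr j ∈ R → 1 ≤ D.b j → D.d j ∣ l) :
    D.M * ∑ i ∈ Finset.range l, D.wt R i = D.Nn R * l := by
  unfold Data.wt Data.Nn
  rw [Finset.sum_add_distrib, Finset.sum_const, Finset.card_range, smul_eq_mul, Finset.sum_comm,
    mul_add, add_mul]
  congr 1
  · ring
  · rw [Finset.mul_sum, Finset.sum_mul]
    apply Finset.sum_congr rfl
    intro j _
    by_cases hj : Sum.inr j ∈ R
    · rw [if_pos hj]
      rcases Nat.eq_zero_or_pos (D.b j) with hb | hb
      · rw [hb, zero_mul, zero_mul]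
        simp
      · have h1 : ∀ i ∈ Finset.range l, (if Sum.inr j ∈ R ∧ D.d j ∣ i then D.b j else 0) =
            if D.d j ∣ 0 + i then D.b j else 0 := by
          intro i _
          rw [zero_add]
          by_cases h : D.d j ∣ i
          · rw [if_pos h, if_pos ⟨hj, h⟩]
          · rw [if_neg h, if_neg (fun h' => h h'.2)]
        have h2 := hl j hj hb
        rw [Finset.sum_congr rfl h1, ← Finset.sum_filter, Finset.sum_const, Z3_count _ _ _ h2,
          smul_eq_mul]
        have h3 := E7a_div D.M l (D.d j) (dvd_M D j) h2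
        calc D.M * (l / D.d j * D.b j) = D.b j * (D.M * (l / D.d j)) := by ring
          _ = D.b j * (D.M / D.d j * l) := by rw [h3]
          _ = D.b j * (D.M / D.d j) * l := by ring
    · rw [if_neg hj, zero_mul]
      have h1 : ∀ i ∈ Finset.range l, (if Sum.inr j ∈ R ∧ D.d j ∣ i then D.b j else 0) = 0 := by
        intro i _
        rw [if_neg (fun h' => hj h'.1)]
      rw [Finset.sum_eq_zero h1, mul_zero]

end MotMono.Kum
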