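import Pool.Agent.Lib.MP_4e5fcd_ag.Kum.E5b
import Pool.Agent.Lib.MP_4e5fcd_ag.Kum.E6b
import Pool.Agent.Lib.MP_4e5fcd_ag.Kum.E7a

/-! # KUM-E7: the Lefschetz numbers -/

open MvPolynomial

namespace MotMono.Kum

variable {N : ℕ} {J : Type} [Fintype J] [DecidableEq J] (D : Data N J)

theorem E7_wt_pos (R : Finset (J ⊕ Fin N)) (κ : J) (hκ : Sum.inl κ ∈ R) (l : ℕ) :
    1 ≤ D.wt R l := by
  unfold Data.wt
  have h1 : (if Sum.inl κ ∈ R then D.m κ else 0) ≤ ∑ κ, if Sum.inl κ ∈ R then D.m κ else 0 :=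
    Finset.single_le_sum (f := fun κ => if Sum.inl κ ∈ R then D.m κ else 0)
      (fun _ _ => Nat.zero_le _) (Finset.mem_univ κ)
  rw [if_pos hκ] at h1
  have h2 := D.hm κ
  omega

theorem E7_mono (R : Finset (J ⊕ Fin N)) (κ : J) (hκ : Sum.inl κ ∈ R) :
    StrictMono fun q => ∑ i ∈ Finset.range q, D.wt R i := by
  apply strictMono_nat_of_lt_succ
  intro q
  rw [Finset.sum_range_succ]
  have := E7_wt_pos D R κ hκ q
  omega

/-- a divisor condition gives a level -/
theorem E7_level (R : Finset (J ⊕ Fin N)) (K : Finset (Fin N)) (hK : D.Zb R ⊆ K) (dd : ℕ)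
    (h : D.nK R K ∣ dd) : ∃ q, ∑ i ∈ Finset.range q, D.wt R i = dd ∧
      ∀ j, Sum.inr j ∈ R → 1 ≤ D.b j → D.d j ∣ q := by
  obtain ⟨c, rfl⟩ := h
  have hd : ∀ j, Sum.inr j ∈ R → 1 ≤ D.b j → D.d j ∣ D.MK K * c := by
    intro j hj hb
    have hjK : j ∈ K := hK (by
      unfold Data.Zb
      rw [Finset.mem_filter]
      exact ⟨Finset.mem_univ _, hj, hb⟩)
    exact Dvd.dvd.mul_right (Finset.dvd_lcm hjK) c
  refine ⟨D.MK K * c, ?_, hd⟩
  have h1 := M_mul_sum_wt D R (D.MK K * c) hd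
  rw [← mul_assoc, ← M_mul_nK D R K hK, mul_assoc] at h1
  exact Nat.eq_of_mul_eq_mul_left (M_pos D) h1

theorem lefschetz_inl (χ : K0 →+* ℤ) (hχ : IsEulerChar χ) (R : Finset (J ⊕ Fin N))
    (κ : J) (hκ : Sum.inl κ ∈ R) (dd : ℕ) (hdd : 0 < dd) :
    (if D.wt R 0 ≤ dd then χ (cls (D.oset R 1 dd (dd - D.wt R 0) {1})) else 0) =
      ∑ K ∈ (ZR R).powerset.filter (fun K => D.Zb R ⊆ K),
        if D.nK R K ∣ dd then
          (((∏ j ∈ K, D.d j) / D.MK K : ℕ) : ℤ) * χ (cls (D.hset R (Sum.inl κ) K)) *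
            D.nK R K else 0 := by
  have hwt := E7_wt_pos D R κ hκ
  have hmono := E7_mono D R κ hκ
  have hNn : 0 < D.Nn R := by
    rw [Nat.pos_iff_ne_zero]
    intro h
    exact ((Nn_eq_zero_iff D R).mp h).1 κ hκ
  have hM := M_pos D
  by_cases hq : ∃ q, ∑ i ∈ Finset.range q, D.wt R i = dd
  · obtain ⟨q, hq⟩ := hq
    have hq0 : q ≠ 0 := by
      rintro rfl
      rw [Finset.range_zero, Finset.sum_empty] at hq
      omega
    obtain ⟨p, rfl⟩ := Nat.exists_eq_succ_of_ne_zero hq0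
    have hsplit : ∑ i ∈ Finset.range (p + 1), D.wt R i =
        D.wt R 0 + ∑ i ∈ Finset.range p, D.wt R (1 + i) := by
      rw [Finset.sum_range_succ', add_comm]
      congr 1
      apply Finset.sum_congr rfl
      intro i _
      rw [add_comm]
    have hle : D.wt R 0 ≤ dd := by
      rw [← hq, Nat.succ_eq_add_one, hsplit]
      omega
    have hLHS : χ (cls (D.oset R 1 dd (dd - D.wt R 0) {1})) =
        χ (cls {v | D.Fv R (1 + p) v = 1}) := by
      apply chi_reach D χ hχ R κ hκ p 1 dd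
      · have := hwt 0
        omega
      · rw [← hq, Nat.succ_eq_add_one, hsplit]
        omega
    rw [if_pos hle, hLHS, add_comm 1 p]
    by_cases hdiv : ∀ j, Sum.inr j ∈ R → 1 ≤ D.b j → D.d j ∣ p + 1
    · -- multiply by M
      have hMZ : (D.M : ℤ) ≠ 0 := by exact_mod_cast hM.ne'
      apply mul_left_cancel₀ hMZ
      rw [chi_Fv D χ hχ R κ hκ (p + 1) hdiv, Finset.mul_sum, Finset.mul_sum]
      have hMdd := M_mul_sum_wt D R (p + 1) hdiv
      rw [Nat.succ_eq_add_one] at hq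
      rw [hq] at hMdd
      have hfil : ((ZR R).powerset.filter fun K => D.Zb R ⊆ K ∧ ∀ j ∈ K, D.d j ∣ p + 1) =
          ((ZR R).powerset.filter fun K => D.Zb R ⊆ K).filter fun K => ∀ j ∈ K, D.d j ∣ p + 1 := by
        rw [Finset.filter_filter]
      rw [hfil, Finset.sum_filter]
      apply Finset.sum_congr rfl
      intro K hK
      rw [Finset.mem_filter] at hK
      have hMnK := M_mul_nK D R K hK.2
      have hiff : (∀ j ∈ K, D.d j ∣ p + 1) ↔ D.nK R K ∣ dd := by
        rw [← MK_dvd_iff D K (p + 1), ← Nat.mul_dvd_mul_iff_left hNn,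
          ← Nat.mul_dvd_mul_iff_left (a := D.M) (b := D.nK R K) hM, hMnK, hMdd]
      by_cases hc : D.nK R K ∣ dd
      · rw [if_pos (hiff.mpr hc), if_pos hc]
        have h1 : (D.M : ℤ) * D.nK R K = D.Nn R * D.MK K := by exact_mod_cast hMnK
        have h2 : (∏ j ∈ K, (D.d j : ℤ)) =
            (((∏ j ∈ K, D.d j) / D.MK K : ℕ) : ℤ) * D.MK K := by
          have h3 := Nat.div_mul_cancel (MK_dvd_prod D K)
          calc (∏ j ∈ K, (D.d j : ℤ)) = ((∏ j ∈ K, D.d j : ℕ) : ℤ) := by push_cast; rfl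
            _ = (((∏ j ∈ K, D.d j) / D.MK K * D.MK K : ℕ) : ℤ) := by rw [h3]
            _ = _ := by push_cast; rfl
        rw [h2]
        linear_combination (-(((∏ j ∈ K, D.d j) / D.MK K : ℕ) : ℤ) *
          χ (cls (D.hset R (Sum.inl κ) K))) * h1
      · rw [if_neg (fun h => hc (hiff.mp h)), if_neg hc, mul_zero]
    · push Not at hdiv
      obtain ⟨j, hj, hb, hnd⟩ := hdiv
      rw [chi_Fv_zero D χ hχ R κ hκ (p + 1) j hj hb hnd]
      symm
      apply Finset.sum_eq_zero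
      intro K hK
      rw [Finset.mem_filter] at hK
      rw [if_neg]
      intro hc
      obtain ⟨q', h1, h2⟩ := E7_level D R K hK.2 dd hc
      have h3 : q' = p + 1 := hmono.injective (h1.trans hq.symm)
      rw [h3] at h2
      exact hnd (h2 j hj hb)
  · have hRHS : (∑ K ∈ (ZR R).powerset.filter (fun K => D.Zb R ⊆ K),
        if D.nK R K ∣ dd then
          (((∏ j ∈ K, D.d j) / D.MK K : ℕ) : ℤ) * χ (cls (D.hset R (Sum.inl κ) K)) *
            D.nK R K else 0) = 0 := by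
      apply Finset.sum_eq_zero
      intro K hK
      rw [Finset.mem_filter] at hK
      rw [if_neg]
      intro hc
      obtain ⟨q', h1, -⟩ := E7_level D R K hK.2 dd hc
      exact hq ⟨q', h1⟩
    rw [hRHS]
    by_cases hle : D.wt R 0 ≤ dd
    · rw [if_pos hle]
      apply chi_miss D χ hχ R κ hκ 1 dd
      · have := hwt 0
        omega
      · intro q h
        apply hq
        refine ⟨q + 1, ?_⟩
        rw [Finset.sum_range_succ', add_comm]
        have h1 : ∑ i ∈ Finset.range q, D.wt R (i + 1) = ∑ i ∈ Finset.range q, D.wt R (1 + i) := by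
          apply Finset.sum_congr rfl
          intro i _
          rw [add_comm]
        rw [h1, ← h]
        omega
    · rw [if_neg hle]

end MotMono.Kum
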