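import Pool.Agent.Lib.MP_4e5fcd_ag.Kum.E5
import Pool.Agent.Lib.MP_4e5fcd_ag.Kum.S4a
import Pool.Agent.Lib.MP_4e5fcd_ag.Kum.E7a

/-! # KUM-E7b: the Lefschetz numbers for a coordinate hyperplane -/

open MvPolynomial

namespace MotMono.Kum

variable {N : ℕ} {J : Type} [Fintype J] [DecidableEq J] (D : Data N J)

theorem e7b_mem (i j : Fin N) :
    (Sum.inr i : J ⊕ Fin N) ∈ ({Sum.inr j} : Finset (J ⊕ Fin N)) ↔ i = j := by
  rw [Finset.mem_singleton]
  exact ⟨fun h => Sum.inr.inj h, fun h => by rw [h]⟩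

theorem e7b_nmem (κ : J) (j : Fin N) :
    (Sum.inl κ : J ⊕ Fin N) ∉ ({Sum.inr j} : Finset (J ⊕ Fin N)) := by
  rw [Finset.mem_singleton]
  exact fun h => by cases h

theorem e7b_wt (j : Fin N) : D.wt ({Sum.inr j} : Finset (J ⊕ Fin N)) 0 = D.b j := by
  unfold Data.wt
  simp only [e7b_mem, e7b_nmem, if_false, Finset.sum_const_zero, zero_add, dvd_zero, and_true]
  rw [Finset.sum_ite_eq' Finset.univ j]
  simp

theorem e7b_FF (j : Fin N) (l : ℕ) {n : ℕ} (x : Fin N × Fin n → ℂ) :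
    D.FF ({Sum.inr j} : Finset (J ⊕ Fin N)) l x = arc x j ^ D.b j := by
  unfold Data.FF
  simp only [e7b_mem, e7b_nmem, if_false, Finset.prod_const_one, mul_one]
  rw [Finset.prod_ite_eq' Finset.univ j]
  simp

theorem e7b_Fv (j : Fin N) (l : ℕ) (v : Fin N → ℂ) :
    D.Fv ({Sum.inr j} : Finset (J ⊕ Fin N)) l v = v j ^ D.b j := by
  unfold Data.Fv
  simp only [e7b_mem, e7b_nmem, if_false, Finset.prod_const_one, mul_one]
  rw [Finset.prod_ite_eq' Finset.univ j]
  simp

theorem e7b_oset (j : Fin N) (l n k : ℕ) (A : Set ℂ) :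
    D.oset ({Sum.inr j} : Finset (J ⊕ Fin N)) l n k A = D.oset {Sum.inr j} 0 n k A := by
  unfold Data.oset
  simp only [e7b_FF]

/-- splitting off a coordinate -/
def e7b_equiv (j : Fin N) : ({i : Fin N // i ≠ j} ⊕ Unit) ≃ Fin N where
  toFun := Sum.elim (fun i => i.1) (fun _ => j)
  invFun i := if h : i = j then Sum.inr () else Sum.inl ⟨i, h⟩
  left_inv := by
    rintro (⟨i, hi⟩ | ⟨⟩)
    · simp [hi]
    · simp
  right_inv := by
    intro i
    by_cases h : i = j
    · simp [h]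
    · simp [h]

theorem e7b_roots (χ : K0 →+* ℤ) (hχ : IsEulerChar χ) (j : Fin N) (b : ℕ) (hb : 0 < b) :
    χ (cls {v : Fin N → ℂ | v j ^ b = 1}) = b := by
  have hc1 : Constr (kummerCover (Set.univ : Set ({i : Fin N // i ≠ j} → ℂ)) 1 b) := by
    have h1 : kummerCover (Set.univ : Set ({i : Fin N // i ≠ j} → ℂ)) 1 b =
        {z | eval z ((X (Sum.inr ()) : MvPolynomial ({i : Fin N // i ≠ j} ⊕ Unit) ℂ) ^ b) =
          eval z 1} := by
      ext z
      simp [kummerCover]
    rw [h1]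
    exact constr_eq _ _
  have hc2 : Constr {v : Fin N → ℂ | v j ^ b = 1} := by
    have h1 : {v : Fin N → ℂ | v j ^ b = 1} =
        {z | eval z ((X j : MvPolynomial (Fin N) ℂ) ^ b) = eval z 1} := by
      ext z
      simp
    rw [h1]
    exact constr_eq _ _
  have h2 := RegIso.reindex (e7b_equiv j)
    (kummerCover (Set.univ : Set ({i : Fin N // i ≠ j} → ℂ)) 1 b)
  have h3 : {y : Fin N → ℂ | (fun i => y (e7b_equiv j i)) ∈
      kummerCover (Set.univ : Set ({i : Fin N // i ≠ j} → ℂ)) 1 b} =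
      {v : Fin N → ℂ | v j ^ b = 1} := by
    ext y
    simp [kummerCover, e7b_equiv]
  rw [h3] at h2
  have h4 := hχ.kummer (Set.univ : Set ({i : Fin N // i ≠ j} → ℂ)) constr_univ 1
    (fun x _ => by simp) b hb
  rw [← cls_iso hc1 hc2 h2, h4, cls_univ, map_pow, hχ.line, one_pow, mul_one]

theorem e7b_affine (χ : K0 →+* ℤ) (hχ : IsEulerChar χ) (j : Fin N) :
    χ (cls {v : Fin N → ℂ | v j = 1}) = 1 := by
  have h := e7b_roots χ hχ j 1 one_pos
  simpa using h

theorem e7b_chi (χ : K0 →+* ℤ) (hχ : IsEulerChar χ) (j : Fin N) (hj : 1 ≤ D.b j) (k : ℕ) :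
    ∀ n, k < n → χ (cls (D.oset ({Sum.inr j} : Finset (J ⊕ Fin N)) 0 n k {1})) =
      if D.b j ∣ k then (D.b j : ℤ) else 0 := by
  induction k using Nat.strong_induction_on with
  | _ k ih =>
    intro n hn
    rcases Nat.eq_zero_or_pos k with hk | hk
    · subst hk
      rw [chi_oset_zero D χ hχ _ 0 n hn, if_pos (dvd_zero _)]
      simp only [e7b_Fv]
      exact e7b_roots χ hχ j (D.b j) hj
    · rw [chi_oset_eq D χ hχ _ 0 n (k + 1 + 1) k hn (by omega) {1} (cv_singleton 1),
        chi_step D χ hχ _ 0 (k + 1) k hk (Nat.lt_succ_self k), e7b_wt, e7b_oset]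
      by_cases h : D.b j ≤ k
      · rw [if_pos h, ih (k - D.b j) (by omega) (k + 1) (by omega)]
        have h1 : D.b j ∣ k - D.b j ↔ D.b j ∣ k := by
          constructor
          · intro h2
            have h3 := Nat.dvd_add h2 (dvd_refl (D.b j))
            rwa [Nat.sub_add_cancel h] at h3
          · intro h2
            exact Nat.dvd_sub h2 (dvd_refl _)
        simp [h1]
      · rw [if_neg h, if_neg]
        intro h1
        exact h (Nat.le_of_dvd hk h1)

theorem lefschetz_inr (χ : K0 →+* ℤ) (hχ : IsEulerChar χ) (j : Fin N) (hj : 1 ≤ D.b j)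
    (dd : ℕ) (hdd : 0 < dd) :
    (if D.wt ({Sum.inr j} : Finset (J ⊕ Fin N)) 0 ≤ dd then
      χ (cls (D.oset {Sum.inr j} 1 dd (dd - D.wt {Sum.inr j} 0) {1})) else 0) =
      ∑ K ∈ (ZR ({Sum.inr j} : Finset (J ⊕ Fin N))).powerset.filter (fun K => D.Zb {Sum.inr j} ⊆ K),
        if D.nK {Sum.inr j} K ∣ dd then
          (((∏ j ∈ K, D.d j) / D.MK K : ℕ) : ℤ) *
            χ (cls (D.hset {Sum.inr j} (Sum.inr j) K)) * D.nK {Sum.inr j} K else 0 := by
  have hZR : ZR ({Sum.inr j} : Finset (J ⊕ Fin N)) = {j} := by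
    ext i
    unfold ZR
    simp
  have hZb : D.Zb ({Sum.inr j} : Finset (J ⊕ Fin N)) = {j} := by
    ext i
    unfold Data.Zb
    simp only [Finset.mem_filter, Finset.mem_univ, true_and, Finset.mem_singleton,
      Sum.inr.injEq]
    constructor
    · exact fun h => h.1
    · intro h
      exact ⟨h, by rw [h]; exact hj⟩
  have hfil : (ZR ({Sum.inr j} : Finset (J ⊕ Fin N))).powerset.filter
      (fun K => D.Zb {Sum.inr j} ⊆ K) = {{j}} := by
    ext K
    rw [hZR, hZb, Finset.mem_filter, Finset.mem_powerset, Finset.mem_singleton]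
    constructor
    · rintro ⟨h1, h2⟩
      exact Finset.Subset.antisymm h1 h2
    · rintro rfl
      exact ⟨Finset.Subset.refl _, Finset.Subset.refl _⟩
  have hMK : D.MK {j} = D.d j := by
    unfold Data.MK
    rw [Finset.lcm_singleton, normalize_eq]
  have hnK : D.nK ({Sum.inr j} : Finset (J ⊕ Fin N)) {j} = D.b j := by
    unfold Data.nK
    simp only [e7b_mem, e7b_nmem, if_false, Finset.sum_const_zero, zero_mul, zero_add, hMK]
    rw [Finset.sum_ite_eq' Finset.univ j]
    simp [Nat.div_self (D.hd j)]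
  have hh : D.hset ({Sum.inr j} : Finset (J ⊕ Fin N)) (Sum.inr j) {j} =
      {v : Fin N → ℂ | v j = 1} := by
    ext y
    simp only [Data.hset, Data.lam, Sum.elim_inr, Set.mem_ofPred_eq,
      Finset.mem_singleton, single_one_dotProduct, Sum.inr.injEq, reduceCtorEq]
    constructor
    · exact fun h => h.1
    · intro h
      refine ⟨h, fun κ hκ => hκ.elim, fun i hi => ?_⟩
      subst hi
      rw [h]
      simp
  rw [hfil, Finset.sum_singleton, hnK, hMK, Finset.prod_singleton, Nat.div_self (D.hd j), hh,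
    e7b_affine χ hχ j, e7b_wt, e7b_oset]
  by_cases h : D.b j ≤ dd
  · rw [if_pos h, e7b_chi D χ hχ j hj (dd - D.b j) dd (by omega)]
    have h1 : D.b j ∣ dd - D.b j ↔ D.b j ∣ dd := by
      constructor
      · intro h2
        have h3 := Nat.dvd_add h2 (dvd_refl (D.b j))
        rwa [Nat.sub_add_cancel h] at h3
      · intro h2
        exact Nat.dvd_sub h2 (dvd_refl _)
    simp [h1]
  · rw [if_neg h, if_neg]
    intro h1
    exact h (Nat.le_of_dvd hdd h1)

end MotMono.Kum
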