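import Pool.Agent.Lib.MP_4e5fcd_ag.Kum.Z8
import Pool.Agent.Lib.MP_4e5fcd_ag.Kum.E1
import Pool.Agent.Lib.MP_4e5fcd_ag.Kum.E2
import Pool.Agent.Lib.MP_4e5fcd_ag.Kum.E7
import Pool.Agent.Lib.MP_4e5fcd_ag.Kum.E7b
import Pool.Agent.Lib.MP_4e5fcd_ag.Kum.E11
import Pool.Agent.Lib.MP_4e5fcd_ag.Kum.E12

/-! # KUM: main theorem -/

open MvPolynomial

namespace MotMono.Kum

variable {N : ℕ} {J : Type} [Fintype J] [DecidableEq J] (D : Data N J)

theorem main_exp_pow (s₀ : ℚ) (n : ℕ) :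
    Complex.exp (2 * Real.pi * Complex.I * s₀) ^ n = 1 ↔ ∃ z : ℤ, s₀ * n = z := by
  rw [← Complex.exp_nat_mul, Complex.exp_eq_one_iff]
  have hpi : (2 * (Real.pi : ℂ) * Complex.I) ≠ 0 := Complex.two_pi_I_ne_zero
  constructor
  · rintro ⟨z, hz⟩
    refine ⟨z, ?_⟩
    have h1 : ((s₀ : ℂ) * n) * (2 * (Real.pi : ℂ) * Complex.I) =
        (z : ℂ) * (2 * (Real.pi : ℂ) * Complex.I) := by
      rw [← hz]; ring
    have h2 := mul_right_cancel₀ hpi h1
    exact_mod_cast h2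
  · rintro ⟨z, hz⟩
    refine ⟨z, ?_⟩
    have h1 : (s₀ : ℂ) * n = z := by exact_mod_cast hz
    rw [← h1]; ring

theorem main (hw : 0 < D.wt D.act 0) (s₀ : ℚ) (hs : IsPole (Zmot D.I) s₀) (ε : ℝ)
    (hε : 0 < ε) :
    ∃ p : Fin N → ℂ, ‖p‖ < ε ∧ (∀ g ∈ D.I, eval p g = 0) ∧
      ∃ y : ConePoint D.I p, y.Nonzero ∧
        ∀ χ : K0 →+* ℤ, IsEulerChar χ →
          ∃ Z, IsZeta (fun d => χ (cls (contactArcs D.I p y d))) Z ∧
            ZeroOrPole Z (Complex.exp (2 * Real.pi * Complex.I * s₀)) := by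
  classical
  obtain ⟨R, hR, hc, hN, hs0⟩ := exists_flat_of_isPole D hw s₀ hs
  obtain ⟨R₁, hR₁, hN₁, i₁, hi₁, hmult⟩ := mult_ne_zero D R hR hc hN s₀ hs0
  obtain ⟨p, hpε, hp⟩ := exists_pt D R₁ hR₁ ε hε
  have hu : D.u0 D.act R₁ 0 p ≠ 0 := u0_ne_zero D D.act R₁ 0 p hp
  obtain ⟨y, hy⟩ := exists_cone D.f (f_ne_zero D) p (D.u0 D.act R₁ 0 p)
  refine ⟨p, hpε, ?_, y, ?_, ?_⟩
  · intro g hg
    obtain ⟨h, rfl⟩ := Ideal.mem_span_singleton'.1 hg
    rw [map_mul, eval_f_eq_zero D R₁ hR₁.1 p hp hN₁, mul_zero]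
  · refine ⟨1 * D.f, Ideal.mem_span_singleton'.2 ⟨1, rfl⟩, ?_⟩
    rw [hy, map_one, one_mul]
    exact hu
  · intro χ hχ
    refine exists_zeta_prod ((ZR R₁).powerset.filter (fun K => D.Zb R₁ ⊆ K)) (fun K => D.nK R₁ K)
      (fun K => (((∏ j ∈ K, D.d j) / D.MK K : ℕ) : ℤ) * χ (cls (D.hset R₁ i₁ K)))
      (fun K hK => nK_pos D R₁ hN₁ K (Finset.mem_filter.1 hK).2) _ ?_ _ ?_
    · intro dd hdd
      have h1 : χ (cls (contactArcs D.I p y dd)) =
          if D.wt R₁ 0 ≤ dd then χ (cls (D.oset R₁ 1 dd (dd - D.wt R₁ 0) {1})) else 0 := by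
        have h2 := contactArcs_eq D.f p (D.u0 D.act R₁ 0 p) y hy dd
        have h3 := cls_start D R₁ hR₁.1 p hp dd dd le_rfl {D.u0 D.act R₁ 0 p}
          (by simpa using hu.symm) (cv_singleton _)
        have h4 : {c | D.u0 D.act R₁ 0 p * c ∈ ({D.u0 D.act R₁ 0 p} : Set ℂ)} = {1} := by
          ext c
          simp only [Set.mem_ofPred_eq, Set.mem_singleton_iff]
          constructor
          · intro h
            exact mul_left_cancel₀ hu (by rw [h, mul_one])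
          · rintro rfl
            rw [mul_one]
        rw [h4] at h3
        have h5 : contactArcs D.I p y dd = contactArcs (Ideal.span {D.f}) p y dd := rfl
        rw [h5, h2, h3]
        split_ifs
        · rfl
        · exact map_zero χ
      rw [h1]
      rcases hi₁ with ⟨κ, rfl, hκ⟩ | ⟨j, rfl, rfl, hj⟩
      · exact lefschetz_inl D χ hχ R₁ κ hκ dd hdd
      · exact lefschetz_inr D χ hχ j hj dd hdd
    · have h6 := hmult χ hχ
      rw [← Finset.sum_filter] at h6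
      convert h6 using 2
      refine Finset.filter_congr fun K _ => ?_
      exact main_exp_pow s₀ _

end MotMono.Kum
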