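import Pool.Agent.Lib.MP_4e5fcd_ag.Kum.Base
import Pool.Agent.Lib.MP_4e5fcd_ag.C2

/-! # KUM-R1: roots of power series, regular in families -/

open MvPolynomial

namespace MotMono.Kum

/-- the polynomial with the given coefficients -/
noncomputable def pol {n : ℕ} (x : Fin n → ℂ) : Polynomial ℂ :=
  ∑ l : Fin n, Polynomial.C (x l) * Polynomial.X ^ (l : ℕ)

theorem arc_eq_pol {N n : ℕ} (γ : Fin N × Fin n → ℂ) (i : Fin N) :
    arc γ i = pol fun l => γ (i, l) := rfl

theorem pol_coeff {n : ℕ} (x : Fin n → ℂ) (l : ℕ) :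
    (pol x).coeff l = if h : l < n then x ⟨l, h⟩ else 0 := by
  unfold pol
  rw [Polynomial.finsetSum_coeff]
  simp only [Polynomial.coeff_C_mul, Polynomial.coeff_X_pow, mul_ite, mul_one, mul_zero]
  by_cases h : l < n
  · rw [dif_pos h, Finset.sum_eq_single_of_mem ⟨l, h⟩ (Finset.mem_univ _)]
    · simp
    · intro b _ hb
      rw [if_neg]
      intro h'
      exact hb (Fin.ext h'.symm)
  · rw [dif_neg h]
    refine Finset.sum_eq_zero fun b _ => ?_
    rw [if_neg]
    intro h'
    exact h (h' ▸ b.2)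

theorem R1_sum {σ ι : Type} (E : Set (σ → ℂ)) (s : Finset ι) (f : ι → (σ → ℂ) → ℂ)
    (hf : ∀ i ∈ s, RegFun E (f i)) : RegFun E fun x => ∑ i ∈ s, f i x := by
  classical
  induction s using Finset.induction_on with
  | empty =>
    simp only [Finset.sum_empty]
    exact regFun_const E 0
  | insert a s ha ih =>
    simp only [Finset.sum_insert ha]
    exact RegFun.add (hf a (Finset.mem_insert_self _ _))
      (ih fun i hi => hf i (Finset.mem_insert_of_mem hi))

theorem R1_pow {σ : Type} (E : Set (σ → ℂ)) (f : (σ → ℂ) → ℂ) (hf : RegFun E f) (k : ℕ) :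
    RegFun E fun x => f x ^ k := by
  induction k with
  | zero =>
    simp only [pow_zero]
    exact regFun_const E 1
  | succ k ih =>
    simp only [pow_succ]
    exact RegFun.mul ih hf

/-- a polynomial expression of regular coefficients has regular coefficients -/
theorem regFun_coeff_pow {σ : Type} (E : Set (σ → ℂ)) {n : ℕ} (x : (σ → ℂ) → Fin n → ℂ)
    (hx : ∀ i, RegFun E fun s => x s i) (dd l : ℕ) :
    RegFun E fun s => ((pol (x s)) ^ dd).coeff l := by
  induction dd generalizing l with
  | zero =>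
    simp only [pow_zero]
    exact regFun_const E _
  | succ k ih =>
    simp only [pow_succ, Polynomial.coeff_mul]
    refine R1_sum E _ _ fun ab _ => ?_
    refine RegFun.mul (ih ab.1) ?_
    simp only [pol_coeff]
    by_cases h : ab.2 < n
    · simp only [dif_pos h]
      exact hx _
    · simp only [dif_neg h]
      exact regFun_const E 0

theorem R1_snoc {n : ℕ} (x : Fin n → ℂ) (c : ℂ) :
    pol (Fin.snoc x c : Fin (n + 1) → ℂ) = pol x + Polynomial.C c * Polynomial.X ^ n := by
  unfold pol
  rw [Fin.sum_univ_castSucc]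
  simp

theorem R1_key (P : Polynomial ℂ) (c : ℂ) (m dd i : ℕ) (hm : 0 < m) (hi : i ≤ m) :
    ((P + Polynomial.C c * Polynomial.X ^ m) ^ dd).coeff i =
      (P ^ dd).coeff i + if i = m then dd * (P.coeff 0) ^ (dd - 1) * c else 0 := by
  obtain ⟨k, hk⟩ := Polynomial.powAddExpansion P (Polynomial.C c * Polynomial.X ^ m) dd
  rw [hk, Polynomial.coeff_add, Polynomial.coeff_add]
  have h1 : (k * (Polynomial.C c * Polynomial.X ^ m) ^ 2).coeff i = 0 := by
    have : k * (Polynomial.C c * Polynomial.X ^ m) ^ 2 =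
        (k * Polynomial.C c ^ 2) * Polynomial.X ^ (2 * m) := by
      rw [mul_pow, ← pow_mul, mul_comm m 2]; ring
    rw [this, Polynomial.coeff_mul_X_pow', if_neg (by omega)]
  have h2 : ((dd : Polynomial ℂ) * P ^ (dd - 1) * (Polynomial.C c * Polynomial.X ^ m)).coeff i =
      if i = m then dd * (P.coeff 0) ^ (dd - 1) * c else 0 := by
    have : (dd : Polynomial ℂ) * P ^ (dd - 1) * (Polynomial.C c * Polynomial.X ^ m) =
        ((dd : Polynomial ℂ) * P ^ (dd - 1) * Polynomial.C c) * Polynomial.X ^ m := by ring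
    rw [this, Polynomial.coeff_mul_X_pow']
    by_cases h : i = m
    · subst h
      rw [if_pos (le_refl _), if_pos rfl, Nat.sub_self, Polynomial.mul_coeff_zero,
        Polynomial.mul_coeff_zero, Polynomial.coeff_C_zero, Polynomial.coeff_zero_eq_eval_zero
        (P ^ (dd - 1)), Polynomial.eval_pow, ← Polynomial.coeff_zero_eq_eval_zero]
      congr 2
      rw [← Polynomial.C_eq_natCast, Polynomial.coeff_C_zero]
    · rw [if_neg h, if_neg (by omega)]
  rw [h1, h2, add_zero]

theorem exists_root (dd n : ℕ) (hd : 0 < dd) :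
    ∃ g : ℂ → (Fin n → ℂ) → Fin (n + 1) → ℂ,
      (∀ v z, v ≠ 0 → g v z 0 = v ∧
        ∀ i : Fin n, ((pol (g v z)) ^ dd).coeff ((i : ℕ) + 1) = z i) ∧
      (∀ x : Fin (n + 1) → ℂ, x 0 ≠ 0 →
        g (x 0) (fun i => ((pol x) ^ dd).coeff ((i : ℕ) + 1)) = x) ∧
      (∀ {σ : Type} (E : Set (σ → ℂ)) (v : (σ → ℂ) → ℂ) (z : (σ → ℂ) → Fin n → ℂ),
        RegFun E v → (∀ i, RegFun E fun s => z s i) → (∀ s ∈ E, v s ≠ 0) →
          ∀ i, RegFun E fun s => g (v s) (z s) i) := by
  have hdd : (dd : ℂ) ≠ 0 := by exact_mod_cast hd.ne'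
  induction n with
  | zero =>
    refine ⟨fun v _ _ => v, fun v z _ => ⟨rfl, fun i => i.elim0⟩, fun x _ => ?_, ?_⟩
    · funext i
      have hi : i = 0 := Fin.ext (by have := i.2; simp only [Fin.val_zero]; omega)
      rw [hi]
    · intro σ E v z hv _ _ i
      exact hv
  | succ n ih =>
    obtain ⟨g, h1, h2, h3⟩ := ih
    set g' : ℂ → (Fin (n + 1) → ℂ) → Fin (n + 1 + 1) → ℂ := fun v z =>
      Fin.snoc (g v (fun i => z i.castSucc))
        ((z (Fin.last n) - ((pol (g v (fun i => z i.castSucc))) ^ dd).coeff (n + 1)) *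
          (dd * v ^ (dd - 1))⁻¹) with hg'
    have hp0 : ∀ x : Fin (n + 1) → ℂ, (pol x).coeff 0 = x 0 := by
      intro x
      rw [pol_coeff, dif_pos (Nat.succ_pos n)]
      rfl
    refine ⟨g', ?_, ?_, ?_⟩
    · intro v z hv
      obtain ⟨ha, hb⟩ := h1 v (fun i => z i.castSucc) hv
      refine ⟨?_, ?_⟩
      · show (Fin.snoc (g v (fun i => z i.castSucc)) _ : Fin (n + 1 + 1) → ℂ) 0 = v
        have : (0 : Fin (n + 1 + 1)) = Fin.castSucc 0 := rfl
        rw [this, Fin.snoc_castSucc]
        exact ha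
      · intro i
        rw [hg']
        simp only
        rw [R1_snoc, R1_key _ _ _ _ _ (Nat.succ_pos n) (by omega)]
        refine Fin.lastCases ?_ (fun j => ?_) i
        · rw [Fin.val_last, if_pos rfl, hp0, ha]
          have : (dd : ℂ) * v ^ (dd - 1) ≠ 0 := mul_ne_zero hdd (pow_ne_zero _ hv)
          field_simp
          ring
        · rw [Fin.val_castSucc, if_neg (by omega), add_zero]
          exact hb j
    · intro x hx
      have hx' : x = Fin.snoc (Fin.init x) (x (Fin.last _)) := (Fin.snoc_init_self x).symm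
      have hcoef : ∀ i : ℕ, i ≤ n + 1 → ((pol x) ^ dd).coeff i =
          ((pol (Fin.init x : Fin (n + 1) → ℂ)) ^ dd).coeff i +
            if i = n + 1 then dd * (x 0) ^ (dd - 1) * x (Fin.last _) else 0 := by
        intro i hi
        nth_rewrite 1 [hx']
        rw [R1_snoc, R1_key _ _ _ _ _ (Nat.succ_pos n) hi, hp0]
        rfl
      have hinit : g (x 0) (fun i : Fin n => ((pol x) ^ dd).coeff ((i : ℕ) + 1)) =
          (Fin.init x : Fin (n + 1) → ℂ) := by
        have := h2 (Fin.init x : Fin (n + 1) → ℂ) hx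
        have h4 : (fun i : Fin n => ((pol x) ^ dd).coeff ((i : ℕ) + 1)) =
            fun i : Fin n => ((pol (Fin.init x : Fin (n + 1) → ℂ)) ^ dd).coeff ((i : ℕ) + 1) := by
          funext i
          rw [hcoef _ (by omega), if_neg (by omega), add_zero]
        rw [h4]
        exact this
      rw [hg']
      simp only [Fin.val_castSucc, Fin.val_last]
      rw [hinit]
      conv_rhs => rw [hx']
      congr 1
      rw [hcoef (n + 1) (le_refl _), if_pos rfl]
      have : (dd : ℂ) * (x 0) ^ (dd - 1) ≠ 0 := mul_ne_zero hdd (pow_ne_zero _ hx)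
      field_simp
      ring
    · intro σ E v z hv hz hne i
      have h4 := h3 E v (fun s i => z s i.castSucc) hv (fun i => hz i.castSucc) hne
      rw [hg']
      simp only
      refine Fin.lastCases ?_ (fun j => ?_) i
      · simp only [Fin.snoc_last]
        refine RegFun.mul (RegFun.sub (hz _) (regFun_coeff_pow E _ h4 dd (n + 1))) ?_
        refine RegFun.inv (RegFun.mul (regFun_const E _) (R1_pow E v hv _)) fun s hs => ?_
        exact mul_ne_zero hdd (pow_ne_zero _ (hne s hs))
      · simp only [Fin.snoc_castSucc]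
        exact h4 j

end MotMono.Kum
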