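import Pool.Agent.Lib.MP_4e5fcd_ag.Kum.R1

/-! # KUM-S1: the step from level `l` to level `l + 1` is a regular isomorphism -/

open MvPolynomial

namespace MotMono.Kum

variable {N : ℕ} {J : Type} [Fintype J] [DecidableEq J] (D : Data N J)

/-- the step map -/
noncomputable def Data.stepf (R R' : Finset (J ⊕ Fin N)) (l : ℕ) {n : ℕ}
    (x : Fin N × Fin (n + 1) → ℂ) : Fin N ⊕ Fin N × Fin n → ℂ :=
  Sum.elim (D.stepV R l x) (D.stepX R R' l x)

theorem S1_lam_dot (j : Fin N) (y : Fin N → ℂ) : D.lam (Sum.inr j : J ⊕ Fin N) ⬝ᵥ y = y j := by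
  simp [Data.lam]

/-- in the root case the constant term does not vanish -/
theorem S1_ne (R R' : Finset (J ⊕ Fin N)) (l : ℕ) (v : Fin N → ℂ) (hv : v ∈ D.gset R R' l)
    (j : Fin N) (h1 : ¬ (Sum.inr j ∈ R ∧ ¬ D.d j ∣ l)) (h2 : Sum.inr j ∈ R ∧ Sum.inr j ∉ R') :
    v j ≠ 0 := by
  have h3 := hv _ h2.1
  rw [S1_lam_dot] at h3
  have hd : D.d j ∣ l := by
    by_contra hc
    exact h1 ⟨h2.1, hc⟩
  intro h0
  refine h2.2 (h3.mpr ?_)
  rw [Data.yv, if_pos h2.1, if_pos hd, h0, zero_pow (D.hd j).ne']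

/-- the inverse of the step map -/
noncomputable def Data.stepg (R R' : Finset (J ⊕ Fin N)) (l : ℕ) {n : ℕ}
    (G : Fin N → ℂ → (Fin n → ℂ) → Fin (n + 1) → ℂ)
    (z : Fin N ⊕ Fin N × Fin n → ℂ) (q : Fin N × Fin (n + 1)) : ℂ :=
  if Sum.inr q.1 ∈ R ∧ ¬ D.d q.1 ∣ l then
    (Fin.snoc (fun i : Fin n => z (Sum.inr (q.1, i))) (z (Sum.inl q.1)) : Fin (n + 1) → ℂ) q.2
  else if Sum.inr q.1 ∈ R ∧ Sum.inr q.1 ∉ R' then
    G q.1 (z (Sum.inl q.1)) (fun i => z (Sum.inr (q.1, i))) q.2
  else (Fin.cons (z (Sum.inl q.1)) (fun i : Fin n => z (Sum.inr (q.1, i))) : Fin (n + 1) → ℂ) q.2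

theorem step_iso (R R' : Finset (J ⊕ Fin N)) (hR : R' ⊆ R) (l n : ℕ)
    (Q : Set (Fin N ⊕ Fin N × Fin n → ℂ))
    (hQ : ∀ z ∈ Q, (fun j => z (Sum.inl j)) ∈ D.gset R R' l) :
    RegIso {x | D.stepf R R' l x ∈ Q} Q := by
  choose G hG1 hG2 hG3 using fun j : Fin N => exists_root (D.d j) n (D.hd j)
  have hgf : ∀ x : Fin N × Fin (n + 1) → ℂ, D.stepf R R' l x ∈ Q →
      D.stepg R R' l G (D.stepf R R' l x) = x := by
    intro x hx
    funext q
    obtain ⟨j, i⟩ := q
    simp only [Data.stepg, Data.stepf, Sum.elim_inl, Sum.elim_inr]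
    split_ifs with h1 h2
    · simp only [Data.stepV, Data.stepX, if_pos h1]
      induction i using Fin.lastCases with
      | last => rw [Fin.snoc_last]
      | cast i => rw [Fin.snoc_castSucc]
    · have h0 : x (j, 0) ≠ 0 := by
        have h3 := S1_ne D R R' l _ (hQ _ hx) j h1 h2
        simp only [Data.stepf, Sum.elim_inl, Data.stepV, if_neg h1] at h3
        exact h3
      simp only [Data.stepV, Data.stepX, if_neg h1, if_pos h2]
      have h4 := hG2 j (fun i => x (j, i)) h0
      simp only [arc_eq_pol]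
      exact congrFun h4 i
    · simp only [Data.stepV, Data.stepX, if_neg h1, if_neg h2]
      induction i using Fin.cases with
      | zero => rw [Fin.cons_zero]
      | succ i => rw [Fin.cons_succ]
  have hfg : ∀ z ∈ Q, D.stepf R R' l (D.stepg R R' l G z) = z := by
    intro z hz
    funext q
    rcases q with j | ⟨j, i⟩
    · simp only [Data.stepf, Sum.elim_inl, Data.stepV]
      by_cases h1 : Sum.inr j ∈ R ∧ ¬ D.d j ∣ l
      · rw [if_pos h1]
        simp only [Data.stepg, if_pos h1]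
        rw [Fin.snoc_last]
      · rw [if_neg h1]
        simp only [Data.stepg, if_neg h1]
        by_cases h2 : Sum.inr j ∈ R ∧ Sum.inr j ∉ R'
        · rw [if_pos h2]
          exact (hG1 j _ _ (S1_ne D R R' l _ (hQ _ hz) j h1 h2)).1
        · rw [if_neg h2, Fin.cons_zero]
    · simp only [Data.stepf, Sum.elim_inr, Data.stepX]
      by_cases h1 : Sum.inr j ∈ R ∧ ¬ D.d j ∣ l
      · rw [if_pos h1]
        simp only [Data.stepg, if_pos h1]
        rw [Fin.snoc_castSucc]
      · rw [if_neg h1]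
        by_cases h2 : Sum.inr j ∈ R ∧ Sum.inr j ∉ R'
        · rw [if_pos h2, arc_eq_pol]
          simp only [Data.stepg, if_neg h1, if_pos h2]
          exact (hG1 j _ _ (S1_ne D R R' l _ (hQ _ hz) j h1 h2)).2 i
        · rw [if_neg h2]
          simp only [Data.stepg, if_neg h1, if_neg h2]
          rw [Fin.cons_succ]
  refine ⟨D.stepf R R' l, D.stepg R R' l G, ?_, ?_, fun x hx => hx, ?_, hgf, hfg⟩
  · intro q
    rcases q with j | ⟨j, i⟩
    · simp only [Data.stepf, Sum.elim_inl, Data.stepV]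
      split_ifs with h1
      · exact regFun_coord _ _
      · exact regFun_coord _ _
    · simp only [Data.stepf, Sum.elim_inr, Data.stepX]
      split_ifs with h1 h2
      · exact regFun_coord _ _
      · simp only [arc_eq_pol]
        exact regFun_coeff_pow _ (fun x i => x (j, i)) (fun i => regFun_coord _ _) _ _
      · exact regFun_coord _ _
  · intro q
    obtain ⟨j, i⟩ := q
    simp only [Data.stepg]
    split_ifs with h1 h2
    · induction i using Fin.lastCases with
      | last => simp only [Fin.snoc_last]; exact regFun_coord _ _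
      | cast i => simp only [Fin.snoc_castSucc]; exact regFun_coord _ _
    · exact hG3 j Q (fun z => z (Sum.inl j)) (fun z i => z (Sum.inr (j, i))) (regFun_coord _ _)
        (fun i => regFun_coord _ _) (fun z hz => S1_ne D R R' l _ (hQ _ hz) j h1 h2) i
    · induction i using Fin.cases with
      | zero => simp only [Fin.cons_zero]; exact regFun_coord _ _
      | succ i => simp only [Fin.cons_succ]; exact regFun_coord _ _
  · intro z hz
    show D.stepf R R' l (D.stepg R R' l G z) ∈ Q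
    rw [hfg z hz]
    exact hz

/-- the coefficients of the powers of an arc are polynomials -/
theorem S1_coeff_pow {n : ℕ} (j : Fin N) (d k : ℕ) :
    ∃ P : MvPolynomial (Fin N × Fin n) ℂ, ∀ x, eval x P = (arc x j ^ d).coeff k := by
  induction d generalizing k with
  | zero =>
    refine ⟨C ((1 : Polynomial ℂ).coeff k), fun x => ?_⟩
    rw [eval_C, pow_zero]
  | succ d ih =>
    choose P hP using ih
    refine ⟨∑ p ∈ Finset.HasAntidiagonal.antidiagonal k,
      P p.1 * (if h : p.2 < n then X (j, ⟨p.2, h⟩) else 0), fun x => ?_⟩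
    rw [pow_succ, Polynomial.coeff_mul, map_sum]
    refine Finset.sum_congr rfl fun p _ => ?_
    rw [map_mul, hP, arc_eq_pol, pol_coeff]
    congr 1
    split_ifs with h
    · rw [eval_X]
    · rw [map_zero]

theorem constr_step (R R' : Finset (J ⊕ Fin N)) (l n : ℕ)
    (Q : Set (Fin N ⊕ Fin N × Fin n → ℂ)) (hQ : Constr Q) :
    Constr {x | D.stepf R R' l x ∈ Q} := by
  have h : ∀ q : Fin N ⊕ Fin N × Fin n, ∃ P : MvPolynomial (Fin N × Fin (n + 1)) ℂ,
      ∀ x, eval x P = D.stepf R R' l x q := by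
    intro q
    rcases q with j | ⟨j, i⟩
    · simp only [Data.stepf, Sum.elim_inl, Data.stepV]
      split_ifs with h1
      · exact ⟨X _, fun x => eval_X _⟩
      · exact ⟨X _, fun x => eval_X _⟩
    · simp only [Data.stepf, Sum.elim_inr, Data.stepX]
      split_ifs with h1 h2
      · exact ⟨X _, fun x => eval_X _⟩
      · exact S1_coeff_pow j _ _
      · exact ⟨X _, fun x => eval_X _⟩
  choose P hP using h
  have h2 := hQ.preimage P
  have e : {x : Fin N × Fin (n + 1) → ℂ | (fun q => eval x (P q)) ∈ Q} =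
      {x | D.stepf R R' l x ∈ Q} := by
    ext x
    simp only [Set.mem_ofPred_eq]
    have : (fun q => eval x (P q)) = D.stepf R R' l x := by
      funext q
      exact hP q x
    rw [this]
  rwa [e] at h2

theorem cls_step (R R' : Finset (J ⊕ Fin N)) (hR : R' ⊆ R) (l n : ℕ)
    (Q : Set (Fin N ⊕ Fin N × Fin n → ℂ)) (hc : Constr Q)
    (hQ : ∀ z ∈ Q, (fun j => z (Sum.inl j)) ∈ D.gset R R' l) :
    cls {x | D.stepf R R' l x ∈ Q} = cls Q :=
  cls_iso (constr_step D R R' l n Q hc) hc (step_iso D R R' hR l n Q hQ)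

end MotMono.Kum
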