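import Pool.Agent.Lib.MP_4e5fcd_ag.Kum.R1

/-! # KUM-S2: the product of the factors in one step -/

open MvPolynomial

namespace MotMono.Kum

variable {N : ℕ} {J : Type} [Fintype J] [DecidableEq J] (D : Data N J)

omit [Fintype J] [DecidableEq J] in
theorem rr_zero (l : ℕ) (j : Fin N) (h : D.d j ∣ l) : D.rr l j = 0 := by
  unfold Data.rr
  rw [Nat.mod_eq_zero_of_dvd h, Nat.sub_zero, Nat.mod_self]

theorem S2_aux_pos (d l : ℕ) (hd : 0 < d) (h : ¬ d ∣ l) : 0 < l % d ∧ l % d < d :=
  ⟨Nat.pos_of_ne_zero fun h0 => h (Nat.dvd_of_mod_eq_zero h0), Nat.mod_lt l hd⟩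

theorem S2_aux (d l : ℕ) (hd : 0 < d) (h : ¬ d ∣ l) : (d - l % d) % d = d - l % d := by
  obtain ⟨h1, h2⟩ := S2_aux_pos d l hd h
  exact Nat.mod_eq_of_lt (by omega)

theorem S2_aux_succ (d l : ℕ) (hd : 0 < d) :
    (l + 1) % d = if l % d + 1 = d then 0 else l % d + 1 := by
  have h2 := Nat.mod_lt l hd
  have h3 : (l + 1) % d = (l % d + 1) % d := by
    rw [Nat.mod_add_mod]
  rw [h3]
  split_ifs with h
  · rw [h, Nat.mod_self]
  · exact Nat.mod_eq_of_lt (by omega)

omit [Fintype J] [DecidableEq J] in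
theorem rr_pos (l : ℕ) (j : Fin N) (h : ¬ D.d j ∣ l) : 0 < D.rr l j := by
  unfold Data.rr
  obtain ⟨h1, h2⟩ := S2_aux_pos (D.d j) l (D.hd j) h
  rw [S2_aux (D.d j) l (D.hd j) h]
  omega

omit [Fintype J] [DecidableEq J] in
theorem rr_succ (l : ℕ) (j : Fin N) (h : ¬ D.d j ∣ l) : D.rr l j = D.rr (l + 1) j + 1 := by
  unfold Data.rr
  obtain ⟨h1, h2⟩ := S2_aux_pos (D.d j) l (D.hd j) h
  rw [S2_aux (D.d j) l (D.hd j) h, S2_aux_succ (D.d j) l (D.hd j)]
  split_ifs with h3
  · rw [Nat.sub_zero, Nat.mod_self]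
    omega
  · rw [Nat.mod_eq_of_lt (show D.d j - (l % D.d j + 1) < D.d j by omega)]
    omega

omit [Fintype J] [DecidableEq J] in
theorem rr_succ_dvd (l : ℕ) (j : Fin N) (h : D.d j ∣ l) : D.rr (l + 1) j + 1 = D.d j := by
  unfold Data.rr
  have hd := D.hd j
  rw [S2_aux_succ (D.d j) l hd, Nat.mod_eq_zero_of_dvd h]
  split_ifs with h3
  · rw [Nat.sub_zero, Nat.mod_self]
    omega
  · rw [Nat.mod_eq_of_lt (by omega)]
    omega

omit [Fintype J] [DecidableEq J] in
theorem rr_add (l : ℕ) (j : Fin N) : D.rr (l + D.M) j = D.rr l j := by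
  unfold Data.rr
  have h1 : D.d j ∣ D.M := Finset.dvd_prod_of_mem D.d (Finset.mem_univ j)
  obtain ⟨c, hc⟩ := h1
  rw [hc, Nat.add_mul_mod_self_left]

omit [Fintype J] [DecidableEq J] in
theorem S2_lam_dot (j : Fin N) (y : Fin N → ℂ) : D.lam (Sum.inr j : J ⊕ Fin N) ⬝ᵥ y = y j := by
  show Pi.single j (1 : ℂ) ⬝ᵥ y = y j
  rw [single_one_dotProduct]

theorem S2_pol_coeff_zero {n : ℕ} (x : Fin (n + 1) → ℂ) : (pol x).coeff 0 = x 0 := by
  rw [pol_coeff, dif_pos (Nat.succ_pos n)]
  rfl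

theorem S2_coeff_zero_pow (P : Polynomial ℂ) (m : ℕ) : (P ^ m).coeff 0 = P.coeff 0 ^ m := by
  rw [Polynomial.coeff_zero_eq_eval_zero, Polynomial.coeff_zero_eq_eval_zero,
    Polynomial.eval_pow]

omit [Fintype J] in
/-- the constant terms of the `y_j` -/
theorem yy_coeff_zero (R : Finset (J ⊕ Fin N)) (l : ℕ) {n : ℕ} (x : Fin N × Fin (n + 1) → ℂ)
    (j : Fin N) : (D.yy R l x j).coeff 0 = D.yv R l (D.stepV R l x) j := by
  unfold Data.yy Data.yv Data.stepV
  by_cases hR : Sum.inr j ∈ R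
  · rw [if_pos hR, if_pos hR]
    by_cases hl : D.d j ∣ l
    · rw [if_pos hl, if_neg (fun h => h.2 hl), rr_zero D l j hl, pow_zero, one_mul,
        S2_coeff_zero_pow, arc_eq_pol, S2_pol_coeff_zero]
    · rw [if_neg hl, Polynomial.coeff_X_pow_mul', if_neg]
      have := rr_pos D l j hl
      omega
  · rw [if_neg hR, if_neg hR, if_neg (fun h => hR h.1), arc_eq_pol, S2_pol_coeff_zero]

omit [Fintype J] in
/-- the step for one `y_j` -/
theorem yy_step (R R' : Finset (J ⊕ Fin N)) (hR : R' ⊆ R) (l : ℕ) {n : ℕ}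
    (x : Fin N × Fin (n + 1) → ℂ) (hx : D.stepV R l x ∈ D.gset R R' l) (j : Fin N) :
    Polynomial.X ^ (n + 1) ∣ D.yy R l x j -
      (Polynomial.C (D.yv R l (D.stepV R l x) j) +
        Polynomial.X * D.yy R' (l + 1) (D.stepX R R' l x) j) := by
  rw [Polynomial.X_pow_dvd_iff]
  intro i hi
  rw [Polynomial.coeff_sub, Polynomial.coeff_add, sub_eq_zero]
  rcases Nat.eq_zero_or_pos i with h0 | h0
  · subst h0
    rw [Polynomial.coeff_C_zero, Polynomial.coeff_X_mul_zero, add_zero]
    exact yy_coeff_zero D R l x j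
  obtain ⟨i', rfl⟩ : ∃ i', i = i' + 1 := ⟨i - 1, by omega⟩
  have hi' : i' < n := by omega
  rw [Polynomial.coeff_C_succ, zero_add, Polynomial.coeff_X_mul]
  have hg := hx (Sum.inr j)
  rw [S2_lam_dot] at hg
  by_cases hjR : Sum.inr j ∈ R
  · have hg' := hg hjR
    by_cases hl : D.d j ∣ l
    · -- consumed
      have hyv : D.yv R l (D.stepV R l x) j = x (j, 0) ^ D.d j := by
        unfold Data.yv Data.stepV
        rw [if_pos hjR, if_pos hl, if_neg (fun h => h.2 hl)]
      rw [hyv] at hg'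
      by_cases hjR' : Sum.inr j ∈ R'
      · -- order at least one
        have hx0 : x (j, 0) = 0 := by
          have h1 := hg'.mp hjR'
          exact pow_eq_zero_iff (D.hd j).ne' |>.mp h1
        have harc : arc x j = Polynomial.X * arc (D.stepX R R' l x) j := by
          ext i
          rw [arc_eq_pol, arc_eq_pol, pol_coeff]
          rcases Nat.eq_zero_or_pos i with h0 | h0
          · subst h0
            rw [dif_pos (Nat.succ_pos n), Polynomial.coeff_X_mul_zero]
            exact hx0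
          · obtain ⟨i', rfl⟩ : ∃ i', i = i' + 1 := ⟨i - 1, by omega⟩
            rw [Polynomial.coeff_X_mul, pol_coeff]
            by_cases h1 : i' < n
            · rw [dif_pos (by omega), dif_pos h1]
              unfold Data.stepX
              rw [if_neg (fun h => h.2 hl), if_neg (fun h => h.2 hjR')]
              rfl
            · rw [dif_neg (by omega), dif_neg h1]
        unfold Data.yy
        rw [if_pos hjR, if_pos hjR', rr_zero D l j hl, pow_zero, one_mul, harc, mul_pow,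
          ← rr_succ_dvd D l j hl, pow_succ, mul_comm (Polynomial.X ^ _) Polynomial.X, mul_assoc,
          Polynomial.coeff_X_mul]
      · unfold Data.yy
        rw [if_pos hjR, if_neg hjR', rr_zero D l j hl, pow_zero, one_mul,
          arc_eq_pol (D.stepX R R' l x), pol_coeff, dif_pos hi']
        unfold Data.stepX
        rw [if_neg (fun h => h.2 hl), if_pos ⟨hjR, hjR'⟩]
    · -- delayed
      have hyv : D.yv R l (D.stepV R l x) j = 0 := by
        unfold Data.yv
        rw [if_pos hjR, if_neg hl]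
      have hjR' : Sum.inr j ∈ R' := hg'.mpr hyv
      unfold Data.yy
      rw [if_pos hjR, if_pos hjR', rr_succ D l j hl, pow_succ,
        mul_comm (Polynomial.X ^ _) Polynomial.X, mul_assoc, Polynomial.coeff_X_mul]
      have hdvd : (Polynomial.X : Polynomial ℂ) ^ n ∣
          arc x j - arc (D.stepX R R' l x) j := by
        rw [Polynomial.X_pow_dvd_iff]
        intro i hi
        rw [Polynomial.coeff_sub, sub_eq_zero, arc_eq_pol, arc_eq_pol, pol_coeff, pol_coeff,
          dif_pos (by omega), dif_pos hi]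
        unfold Data.stepX
        rw [if_pos ⟨hjR, hl⟩]
        rfl
      have hdvd2 : (Polynomial.X : Polynomial ℂ) ^ n ∣
          Polynomial.X ^ D.rr (l + 1) j * arc x j ^ D.d j -
            Polynomial.X ^ D.rr (l + 1) j * arc (D.stepX R R' l x) j ^ D.d j := by
        rw [← mul_sub]
        exact (hdvd.trans (sub_dvd_pow_sub_pow _ _ _)).mul_left _
      have h1 := (Polynomial.X_pow_dvd_iff.mp hdvd2) i' hi'
      rw [Polynomial.coeff_sub, sub_eq_zero] at h1
      exact h1
  · have hjR' : Sum.inr j ∉ R' := fun h => hjR (hR h)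
    unfold Data.yy
    rw [if_neg hjR, if_neg hjR', arc_eq_pol, arc_eq_pol, pol_coeff, pol_coeff,
      dif_pos (by omega), dif_pos hi']
    unfold Data.stepX
    rw [if_neg (fun h => hjR h.1), if_neg (fun h => hjR h.1)]
    rfl

theorem u0_ne_zero (R R' : Finset (J ⊕ Fin N)) (l : ℕ) (v : Fin N → ℂ)
    (hv : v ∈ D.gset R R' l) : D.u0 R R' l v ≠ 0 := by
  unfold Data.u0
  refine mul_ne_zero (Finset.prod_ne_zero_iff.mpr fun j _ => ?_)
    (Finset.prod_ne_zero_iff.mpr fun κ _ => ?_)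
  · split_ifs with h
    · rw [Finset.mem_sdiff] at h
      have h1 := hv (Sum.inr j) h.1
      rw [S2_lam_dot] at h1
      refine pow_ne_zero _ fun h0 => h.2 (h1.mpr ?_)
      unfold Data.yv
      rw [if_pos h.1, h0, zero_pow (D.hd j).ne', ite_self]
    · exact one_ne_zero
  · split_ifs with h
    · rw [Finset.mem_sdiff] at h
      exact pow_ne_zero _ fun h0 => h.2 ((hv (Sum.inl κ) h.1).mpr h0)
    · exact one_ne_zero

theorem u0_self (R : Finset (J ⊕ Fin N)) (l : ℕ) (v : Fin N → ℂ) : D.u0 R R l v = 1 := by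
  simp [Data.u0]

end MotMono.Kum
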