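import Pool.Agent.Lib.MP_4e5fcd_ag.Kum.S3b

/-! # KUM-S3: the order condition in one step -/

open MvPolynomial

namespace MotMono.Kum

variable {N : ℕ} {J : Type} [Fintype J] [DecidableEq J] (D : Data N J)

/-- the order condition in one step -/
theorem mem_oset_step (R R' : Finset (J ⊕ Fin N)) (hR : R' ⊆ R) (l : ℕ) {n k : ℕ}
    (x : Fin N × Fin (n + 1) → ℂ) (hx : D.stepV R l x ∈ D.gset R R' l)
    (hk : k < n ∨ k ≤ n ∧ ∀ j, Sum.inr j ∈ R → ¬ D.d j ∣ l → D.b j = 0)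
    (A : Set ℂ) (hA : 0 ∉ A) :
    x ∈ D.oset R l (n + 1) k A ↔ D.wt R' l ≤ k ∧
      D.stepX R R' l x ∈ D.oset R' (l + 1) n (k - D.wt R' l)
        {c | D.u0 R R' l (D.stepV R l x) * c ∈ A} := by
  obtain ⟨u, hu, h1, h2⟩ := FF_step D R R' hR l x hx
  have hu0 : u.coeff 0 ≠ 0 := by rw [hu]; exact u0_ne_zero D R R' l _ hx
  rcases hk with hk | ⟨hk, hb⟩
  · have h3 := coeff_of_congr h1 hk hu0 A hA
    rw [hu] at h3
    exact h3
  · have h3 := coeff_of_congr (h2 hb) (Nat.lt_succ_of_le hk) hu0 A hA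
    rw [hu] at h3
    exact h3

end MotMono.Kum
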