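import Mathlib

/-! # KUM-S3a: congruences of polynomials modulo `X ^ n` -/

namespace MotMono.Kum

/-- congruences modulo `X ^ n` can be multiplied -/
theorem dvd_mul_sub (n : ℕ) (P Q P' Q' : Polynomial ℂ) (h : Polynomial.X ^ n ∣ P - Q)
    (h' : Polynomial.X ^ n ∣ P' - Q') : Polynomial.X ^ n ∣ P * P' - Q * Q' := by
  have h1 : P * P' - Q * Q' = (P - Q) * P' + Q * (P' - Q') := by ring
  rw [h1]
  exact dvd_add (h.mul_right _) (h'.mul_left _)

theorem dvd_prod_sub {ι : Type} (s : Finset ι) (n : ℕ) (P Q : ι → Polynomial ℂ)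
    (h : ∀ i ∈ s, Polynomial.X ^ n ∣ P i - Q i) :
    Polynomial.X ^ n ∣ ∏ i ∈ s, P i - ∏ i ∈ s, Q i := by
  classical
  induction s using Finset.induction_on with
  | empty => simp
  | insert a s ha ih =>
    rw [Finset.prod_insert ha, Finset.prod_insert ha]
    exact dvd_mul_sub n _ _ _ _ (h a (Finset.mem_insert_self a s))
      (ih fun i hi => h i (Finset.mem_insert_of_mem hi))

theorem dvd_pow_sub (n m : ℕ) (P Q : Polynomial ℂ) (h : Polynomial.X ^ n ∣ P - Q) :
    Polynomial.X ^ n ∣ P ^ m - Q ^ m :=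
  h.trans (sub_dvd_pow_sub_pow P Q m)

theorem S3a_coeff_mul {u Q : Polynomial ℂ} {m : ℕ} (h : ∀ b < m, Q.coeff b = 0) :
    (u * Q).coeff m = u.coeff 0 * Q.coeff m := by
  rw [Polynomial.coeff_mul, Finset.sum_eq_single (0, m)]
  · rintro ⟨a, b⟩ hab hne
    rw [Finset.HasAntidiagonal.mem_antidiagonal] at hab
    simp only at hab
    have hb : b < m := by
      rcases Nat.eq_zero_or_pos a with h0 | h0
      · exact absurd (by rw [h0] at hab ⊢; rw [zero_add] at hab; rw [hab]) hne
      · omega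
    simp only
    rw [h b hb, mul_zero]
  · intro hn
    exact absurd (Finset.HasAntidiagonal.mem_antidiagonal.mpr (zero_add m)) hn

/-- leading coefficients and congruences -/
theorem coeff_of_congr {P Q u : Polynomial ℂ} {n w k : ℕ}
    (h : Polynomial.X ^ n ∣ P - Polynomial.X ^ w * u * Q) (hk : k < n) (hu : u.coeff 0 ≠ 0)
    (A : Set ℂ) (hA : 0 ∉ A) :
    ((∀ i < k, P.coeff i = 0) ∧ P.coeff k ∈ A) ↔
      (w ≤ k ∧ (∀ i < k - w, Q.coeff i = 0) ∧ u.coeff 0 * Q.coeff (k - w) ∈ A) := by
  have hP : ∀ i < n, P.coeff i = if w ≤ i then (u * Q).coeff (i - w) else 0 := by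
    intro i hi
    have h1 := (Polynomial.X_pow_dvd_iff.mp h) i hi
    rw [Polynomial.coeff_sub, mul_assoc, Polynomial.coeff_X_pow_mul'] at h1
    exact sub_eq_zero.mp h1
  constructor
  · rintro ⟨h1, h2⟩
    have hwk : w ≤ k := by
      by_contra hcon
      rw [hP k hk, if_neg hcon] at h2
      exact hA h2
    have hQ : ∀ i, i < k - w → Q.coeff i = 0 := by
      intro i
      induction i using Nat.strong_induction_on with
      | _ i ih =>
        intro hi
        have h3 := h1 (w + i) (by omega)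
        rw [hP (w + i) (by omega), if_pos (by omega), Nat.add_sub_cancel_left,
          S3a_coeff_mul fun b hb => ih b hb (by omega)] at h3
        exact (mul_eq_zero.mp h3).resolve_left hu
    refine ⟨hwk, hQ, ?_⟩
    rw [hP k hk, if_pos hwk, S3a_coeff_mul fun b hb => hQ b hb] at h2
    exact h2
  · rintro ⟨hwk, hQ, h2⟩
    refine ⟨fun i hi => ?_, ?_⟩
    · rw [hP i (by omega)]
      split_ifs with hwi
      · rw [S3a_coeff_mul fun b hb => hQ b (by omega), hQ (i - w) (by omega), mul_zero]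
      · rfl
    · rw [hP k hk, if_pos hwk, S3a_coeff_mul fun b hb => hQ b hb]
      exact h2

end MotMono.Kum
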