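import Pool.Agent.Lib.MP_4e5fcd_ag.Kum.S2
import Pool.Agent.Lib.MP_4e5fcd_ag.Kum.S3a

/-! # KUM-S3b: the congruence of the products in one step -/

open MvPolynomial

namespace MotMono.Kum

variable {N : ℕ} {J : Type} [Fintype J] [DecidableEq J] (D : Data N J)

omit [Fintype J] in
/-- a consumed coordinate which stays in the state has order at least one -/
theorem S3b_arc_cons (R R' : Finset (J ⊕ Fin N)) (hR : R' ⊆ R) (l : ℕ) {n : ℕ}
    (x : Fin N × Fin (n + 1) → ℂ) (hx : D.stepV R l x ∈ D.gset R R' l) (j : Fin N)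
    (hjR' : Sum.inr j ∈ R') (hl : D.d j ∣ l) :
    arc x j = Polynomial.X * arc (D.stepX R R' l x) j := by
  have hjR := hR hjR'
  have hg := hx (Sum.inr j)
  rw [S2_lam_dot] at hg
  have hg' := hg hjR
  have hyv : D.yv R l (D.stepV R l x) j = x (j, 0) ^ D.d j := by
    unfold Data.yv Data.stepV
    rw [if_pos hjR, if_pos hl, if_neg (fun h => h.2 hl)]
  rw [hyv] at hg'
  have hx0 : x (j, 0) = 0 := by
    have h1 := hg'.mp hjR'
    exact pow_eq_zero_iff (D.hd j).ne' |>.mp h1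
  ext i
  rw [arc_eq_pol, arc_eq_pol, pol_coeff]
  rcases Nat.eq_zero_or_pos i with h0 | h0
  · subst h0
    rw [dif_pos (Nat.succ_pos n), Polynomial.coeff_X_mul_zero]
    exact hx0
  · obtain ⟨i', rfl⟩ : ∃ i', i = i' + 1 := ⟨i - 1, by omega⟩
    rw [Polynomial.coeff_X_mul, pol_coeff]
    by_cases h1 : i' < n
    · rw [dif_pos (by omega), dif_pos h1]
      unfold Data.stepX
      rw [if_neg (fun h => h.2 hl), if_neg (fun h => h.2 hjR')]
      rfl
    · rw [dif_neg (by omega), dif_neg h1]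

omit [Fintype J] in
/-- a delayed coordinate keeps its first coefficients -/
theorem S3b_arc_delayed (R R' : Finset (J ⊕ Fin N)) (l : ℕ) {n : ℕ}
    (x : Fin N × Fin (n + 1) → ℂ) (j : Fin N) (hjR : Sum.inr j ∈ R) (hl : ¬ D.d j ∣ l) :
    (Polynomial.X : Polynomial ℂ) ^ n ∣ arc x j - arc (D.stepX R R' l x) j := by
  rw [Polynomial.X_pow_dvd_iff]
  intro i hi
  rw [Polynomial.coeff_sub, sub_eq_zero, arc_eq_pol, arc_eq_pol, pol_coeff, pol_coeff,
    dif_pos (by omega), dif_pos hi]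
  unfold Data.stepX
  rw [if_pos ⟨hjR, hl⟩]
  rfl

/-- the linear combination of the `y_j` -/
noncomputable def S3b_L (κ : J) (R : Finset (J ⊕ Fin N)) (l : ℕ) {n : ℕ}
    (x : Fin N × Fin n → ℂ) : Polynomial ℂ :=
  ∑ j, Polynomial.C (D.a κ j) * D.yy R l x j

omit [Fintype J] in
theorem S3b_L_coeff_zero (κ : J) (R : Finset (J ⊕ Fin N)) (l : ℕ) {n : ℕ}
    (x : Fin N × Fin (n + 1) → ℂ) :
    (S3b_L D κ R l x).coeff 0 = D.a κ ⬝ᵥ D.yv R l (D.stepV R l x) := by
  unfold S3b_L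
  rw [Polynomial.finsetSum_coeff, dotProduct]
  refine Finset.sum_congr rfl fun j _ => ?_
  rw [Polynomial.coeff_C_mul, yy_coeff_zero]

omit [Fintype J] in
theorem S3b_L_step (κ : J) (R R' : Finset (J ⊕ Fin N)) (hR : R' ⊆ R) (l : ℕ) {n : ℕ}
    (x : Fin N × Fin (n + 1) → ℂ) (hx : D.stepV R l x ∈ D.gset R R' l)
    (hκ : Sum.inl κ ∈ R') : Polynomial.X ^ (n + 1) ∣ S3b_L D κ R l x -
      Polynomial.X * S3b_L D κ R' (l + 1) (D.stepX R R' l x) := by
  have h0 : D.a κ ⬝ᵥ D.yv R l (D.stepV R l x) = 0 := (hx (Sum.inl κ) (hR hκ)).mp hκ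
  have h1 : S3b_L D κ R l x - Polynomial.X * S3b_L D κ R' (l + 1) (D.stepX R R' l x) =
      ∑ j, Polynomial.C (D.a κ j) * (D.yy R l x j -
        (Polynomial.C (D.yv R l (D.stepV R l x) j) +
          Polynomial.X * D.yy R' (l + 1) (D.stepX R R' l x) j)) := by
    have h2 : ∑ j, Polynomial.C (D.a κ j) * Polynomial.C (D.yv R l (D.stepV R l x) j) = 0 := by
      have h3 : ∑ j, Polynomial.C (D.a κ j) * Polynomial.C (D.yv R l (D.stepV R l x) j) =
          Polynomial.C (D.a κ ⬝ᵥ D.yv R l (D.stepV R l x)) := by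
        rw [dotProduct, map_sum]
        refine Finset.sum_congr rfl fun j _ => ?_
        rw [map_mul]
      rw [h3, h0, map_zero]
    unfold S3b_L
    rw [Finset.mul_sum, ← Finset.sum_sub_distrib]
    have h4 : ∑ j, (Polynomial.C (D.a κ j) * D.yy R l x j -
        Polynomial.X * (Polynomial.C (D.a κ j) * D.yy R' (l + 1) (D.stepX R R' l x) j)) =
        ∑ j, (Polynomial.C (D.a κ j) * (D.yy R l x j -
        (Polynomial.C (D.yv R l (D.stepV R l x) j) +
          Polynomial.X * D.yy R' (l + 1) (D.stepX R R' l x) j)) +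
          Polynomial.C (D.a κ j) * Polynomial.C (D.yv R l (D.stepV R l x) j)) :=
      Finset.sum_congr rfl fun j _ => by ring
    rw [h4, Finset.sum_add_distrib, h2, add_zero]
  rw [h1]
  exact Finset.dvd_sum fun j _ => (yy_step D R R' hR l x hx j).mul_left _

theorem FF_step (R R' : Finset (J ⊕ Fin N)) (hR : R' ⊆ R) (l : ℕ) {n : ℕ}
    (x : Fin N × Fin (n + 1) → ℂ) (hx : D.stepV R l x ∈ D.gset R R' l) :
    ∃ u : Polynomial ℂ, u.coeff 0 = D.u0 R R' l (D.stepV R l x) ∧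
      Polynomial.X ^ n ∣ D.FF R l x -
        Polynomial.X ^ D.wt R' l * u * D.FF R' (l + 1) (D.stepX R R' l x) ∧
      ((∀ j, Sum.inr j ∈ R → ¬ D.d j ∣ l → D.b j = 0) →
        Polynomial.X ^ (n + 1) ∣ D.FF R l x -
          Polynomial.X ^ D.wt R' l * u * D.FF R' (l + 1) (D.stepX R R' l x)) := by
  classical
  obtain ⟨x', hx'⟩ : ∃ x', x' = D.stepX R R' l x := ⟨_, rfl⟩
  refine ⟨(∏ j, if Sum.inr j ∈ R \ R' then arc x j ^ D.b j else 1) *
    ∏ κ, if Sum.inl κ ∈ R \ R' then S3b_L D κ R l x ^ D.m κ else 1, ?_, ?_⟩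
  · have hc : ∀ P : Polynomial ℂ, P.coeff 0 = Polynomial.constantCoeff P := fun P => rfl
    rw [hc, map_mul, map_prod, map_prod]
    unfold Data.u0
    congr 1
    · refine Finset.prod_congr rfl fun j _ => ?_
      split_ifs with h
      · rw [map_pow, ← hc, arc_eq_pol, S2_pol_coeff_zero]
        rw [Finset.mem_sdiff] at h
        have hl : D.d j ∣ l := by
          by_contra hl
          have h1 := hx (Sum.inr j) h.1
          rw [S2_lam_dot] at h1
          refine h.2 (h1.mpr ?_)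
          unfold Data.yv
          rw [if_pos h.1, if_neg hl]
        unfold Data.stepV
        rw [if_neg (fun h => h.2 hl)]
      · rw [map_one]
    · refine Finset.prod_congr rfl fun κ _ => ?_
      split_ifs with h
      · rw [map_pow, ← hc, S3b_L_coeff_zero]
      · rw [map_one]
  -- regrouping
  have hFF : ∀ {n' : ℕ} (S : Finset (J ⊕ Fin N)) (l' : ℕ) (y : Fin N × Fin n' → ℂ),
      D.FF S l' y = (∏ j, if Sum.inr j ∈ S then arc y j ^ D.b j else 1) *
        ∏ κ, if Sum.inl κ ∈ S then S3b_L D κ S l' y ^ D.m κ else 1 := fun S l' y => rfl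
  obtain ⟨Bj, hBj⟩ : ∃ Bj : Fin N → Polynomial ℂ, Bj = fun j =>
    (Polynomial.X ^ (if Sum.inr j ∈ R' ∧ D.d j ∣ l then D.b j else 0)) *
      (if Sum.inr j ∈ R \ R' then arc x j ^ D.b j else 1) *
        (if Sum.inr j ∈ R' then arc x' j ^ D.b j else 1) := ⟨_, rfl⟩
  obtain ⟨Bκ, hBκ⟩ : ∃ Bκ : J → Polynomial ℂ, Bκ = fun κ =>
    (Polynomial.X ^ (if Sum.inl κ ∈ R' then D.m κ else 0)) *
      (if Sum.inl κ ∈ R \ R' then S3b_L D κ R l x ^ D.m κ else 1) *
        (if Sum.inl κ ∈ R' then S3b_L D κ R' (l + 1) x' ^ D.m κ else 1) := ⟨_, rfl⟩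
  have hprod : Polynomial.X ^ D.wt R' l *
      ((∏ j, if Sum.inr j ∈ R \ R' then arc x j ^ D.b j else 1) *
        ∏ κ, if Sum.inl κ ∈ R \ R' then S3b_L D κ R l x ^ D.m κ else 1) *
      D.FF R' (l + 1) x' = (∏ j, Bj j) * ∏ κ, Bκ κ := by
    rw [hBj, hBκ, Finset.prod_mul_distrib, Finset.prod_mul_distrib, Finset.prod_mul_distrib,
      Finset.prod_mul_distrib, Finset.prod_pow_eq_pow_sum, Finset.prod_pow_eq_pow_sum, hFF]
    unfold Data.wt
    rw [pow_add]
    ring
  rw [← hx', hprod, hFF]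
  have hκ : ∀ κ, Polynomial.X ^ (n + 1) ∣
      (if Sum.inl κ ∈ R then S3b_L D κ R l x ^ D.m κ else 1) - Bκ κ := by
    intro κ
    rw [hBκ]
    simp only
    by_cases h1 : Sum.inl κ ∈ R'
    · have h2 := hR h1
      have h3 : Sum.inl κ ∉ R \ R' := fun h => (Finset.mem_sdiff.mp h).2 h1
      rw [if_pos h2, if_pos h1, if_neg h3, if_pos h1, mul_one, ← mul_pow]
      refine dvd_pow_sub (n + 1) (D.m κ) _ _ ?_
      rw [hx']
      exact S3b_L_step D κ R R' hR l x hx h1
    · by_cases h2 : Sum.inl κ ∈ R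
      · rw [if_pos h2, if_neg h1, if_pos (Finset.mem_sdiff.mpr ⟨h2, h1⟩), if_neg h1, pow_zero,
          one_mul, mul_one, sub_self]
        exact dvd_zero _
      · rw [if_neg h2, if_neg h1, if_neg (fun h => h2 (Finset.mem_sdiff.mp h).1), if_neg h1,
          pow_zero, one_mul, mul_one, sub_self]
        exact dvd_zero _
  have hj : ∀ k j, (k = n ∨ k = n + 1 ∧ (Sum.inr j ∈ R → ¬ D.d j ∣ l → D.b j = 0)) →
      Polynomial.X ^ k ∣ (if Sum.inr j ∈ R then arc x j ^ D.b j else 1) - Bj j := by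
    intro k j hk
    rw [hBj]
    simp only
    by_cases h1 : Sum.inr j ∈ R'
    · have h2 := hR h1
      have h3 : Sum.inr j ∉ R \ R' := fun h => (Finset.mem_sdiff.mp h).2 h1
      rw [if_pos h2, if_neg h3, if_pos h1, mul_one]
      by_cases hl : D.d j ∣ l
      · rw [if_pos ⟨h1, hl⟩, S3b_arc_cons D R R' hR l x hx j h1 hl, ← hx', mul_pow, sub_self]
        exact dvd_zero _
      · rw [if_neg (fun h => hl h.2), pow_zero, one_mul]
        rcases hk with rfl | ⟨rfl, hb⟩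
        · refine dvd_pow_sub k (D.b j) _ _ ?_
          rw [hx']
          exact S3b_arc_delayed D R R' l x j h2 hl
        · rw [hb h2 hl, pow_zero, pow_zero, sub_self]
          exact dvd_zero _
    · by_cases h2 : Sum.inr j ∈ R
      · rw [if_pos h2, if_neg (fun h => h1 h.1), if_pos (Finset.mem_sdiff.mpr ⟨h2, h1⟩),
          if_neg h1, pow_zero, one_mul, mul_one, sub_self]
        exact dvd_zero _
      · rw [if_neg h2, if_neg (fun h => h1 h.1), if_neg (fun h => h2 (Finset.mem_sdiff.mp h).1),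
          if_neg h1, pow_zero, one_mul, mul_one, sub_self]
        exact dvd_zero _
  refine ⟨?_, fun hb => ?_⟩
  · refine dvd_mul_sub n _ _ _ _ (dvd_prod_sub _ n _ _ fun j _ => hj n j (Or.inl rfl))
      (dvd_prod_sub _ n _ _ fun κ _ => (pow_dvd_pow _ (Nat.le_succ n)).trans (hκ κ))
  · exact dvd_mul_sub (n + 1) _ _ _ _
      (dvd_prod_sub _ (n + 1) _ _ fun j _ => hj (n + 1) j (Or.inr ⟨rfl, hb j⟩))
      (dvd_prod_sub _ (n + 1) _ _ fun κ _ => hκ κ)

end MotMono.Kum
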