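import Pool.Agent.Lib.MP_4e5fcd_ag.Kum.S1
import Pool.Agent.Lib.MP_4e5fcd_ag.Kum.S3
import Pool.Agent.Lib.MP_4e5fcd_ag.Kum.S4a

/-! # KUM-S4: the classes in one step -/

open MvPolynomial

namespace MotMono.Kum

variable {N : ℕ} {J : Type} [Fintype J] [DecidableEq J] (D : Data N J)

/-- the part of the jets with `stepV` in a given stratum -/
def s4_part (R R' : Finset (J ⊕ Fin N)) (l n k : ℕ) (A : Set ℂ) :
    Set (Fin N × Fin (n + 1) → ℂ) :=
  {x | x ∈ D.oset R l (n + 1) k A ∧ D.stepV R l x ∈ D.gset R R' l}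

theorem s4_part_eq (R R' : Finset (J ⊕ Fin N)) (hR : R' ⊆ R) (l n k : ℕ)
    (hk : k < n ∨ k ≤ n ∧ ∀ j, Sum.inr j ∈ R → ¬ D.d j ∣ l → D.b j = 0)
    (A : Set ℂ) (hA : 0 ∉ A) :
    s4_part D R R' l n k A = if D.wt R' l ≤ k then
      {x | D.stepf R R' l x ∈ D.tset R R' l n (k - D.wt R' l) A} else ∅ := by
  ext x
  constructor
  · rintro ⟨h1, h2⟩
    obtain ⟨h3, h4⟩ := (mem_oset_step D R R' hR l x h2 hk A hA).1 h1
    rw [if_pos h3]
    exact ⟨h2, h4⟩
  · intro h
    by_cases hw : D.wt R' l ≤ k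
    · rw [if_pos hw] at h
      obtain ⟨h2, h4⟩ := h
      have h2' : D.stepV R l x ∈ D.gset R R' l := h2
      exact ⟨(mem_oset_step D R R' hR l x h2' hk A hA).2 ⟨hw, h4⟩, h2'⟩
    · rw [if_neg hw] at h
      exact h.elim

theorem s4_tset_gset (R R' : Finset (J ⊕ Fin N)) (l n k : ℕ) (A : Set ℂ) :
    ∀ z ∈ D.tset R R' l n k A, (fun j => z (Sum.inl j)) ∈ D.gset R R' l :=
  fun _ hz => hz.1

theorem cls_oset_step (R : Finset (J ⊕ Fin N)) (l n k : ℕ)
    (hk : k < n ∨ k ≤ n ∧ ∀ j, Sum.inr j ∈ R → ¬ D.d j ∣ l → D.b j = 0)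
    (A : Set ℂ) (hA : 0 ∉ A) (hA' : CV A) :
    cls (D.oset R l (n + 1) k A) = ∑ R' ∈ R.powerset,
      if D.wt R' l ≤ k then cls (D.tset R R' l n (k - D.wt R' l) A) else 0 := by
  classical
  have hcov : D.oset R l (n + 1) k A = ⋃ R' ∈ R.powerset, s4_part D R R' l n k A := by
    ext x
    constructor
    · intro hx
      rw [Set.mem_iUnion₂]
      refine ⟨R.filter fun i => D.lam i ⬝ᵥ D.yv R l (D.stepV R l x) = 0,
        Finset.mem_powerset.2 (Finset.filter_subset _ _), hx, ?_⟩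
      intro i hi
      rw [Finset.mem_filter]
      exact ⟨fun h => h.2, fun h => ⟨hi, h⟩⟩
    · intro hx
      rw [Set.mem_iUnion₂] at hx
      obtain ⟨R', _, h, _⟩ := hx
      exact h
  have hc : ∀ R' ∈ R.powerset, Constr (s4_part D R R' l n k A) := by
    intro R' hR'
    rw [s4_part_eq D R R' (Finset.mem_powerset.1 hR') l n k hk A hA]
    split_ifs
    · exact constr_step D R R' l n _ (constr_tset D R R' l n _ A hA')
    · exact constr_empty
  rw [hcov, cls_biUnion R.powerset hc]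
  · refine Finset.sum_congr rfl fun R' hR' => ?_
    rw [s4_part_eq D R R' (Finset.mem_powerset.1 hR') l n k hk A hA]
    split_ifs
    · exact cls_step D R R' (Finset.mem_powerset.1 hR') l n _
        (constr_tset D R R' l n _ A hA') (s4_tset_gset D R R' l n _ A)
    · exact cls_empty
  · intro R₁ h1 R₂ h2 hne
    rw [Set.disjoint_left]
    rintro x ⟨_, hx1⟩ ⟨_, hx2⟩
    apply hne
    ext i
    constructor
    · intro hi
      have hiR : i ∈ R := Finset.mem_powerset.1 h1 hi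
      exact (hx2 i hiR).2 ((hx1 i hiR).1 hi)
    · intro hi
      have hiR : i ∈ R := Finset.mem_powerset.1 h2 hi
      exact (hx1 i hiR).2 ((hx2 i hiR).1 hi)

theorem cls_tset_ne_zero (R R' : Finset (J ⊕ Fin N)) (l n k : ℕ) :
    cls (D.tset R R' l n k {0}ᶜ) =
      cls (D.gset R R' l) * cls (D.oset R' (l + 1) n k {0}ᶜ) := by
  rw [← cls_prodSet (constr_gset D R R' l) (constr_oset D R' (l + 1) n k _ cv_ne_zero)]
  congr 1
  ext z
  constructor
  · rintro ⟨h1, h2, h3⟩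
    refine ⟨h1, h2, ?_⟩
    intro h0
    apply h3
    rw [Set.mem_singleton_iff] at h0 ⊢
    rw [h0, mul_zero]
  · rintro ⟨h1, h2, h3⟩
    refine ⟨h1, h2, ?_⟩
    intro h0
    apply h3
    rw [Set.mem_singleton_iff] at h0 ⊢
    exact (mul_eq_zero.1 h0).resolve_left (u0_ne_zero D R R' l _ h1)

theorem cls_tset_self (R : Finset (J ⊕ Fin N)) (l n k : ℕ) (A : Set ℂ) (hA' : CV A) :
    cls (D.tset R R l n k A) = cls (D.gset R R l) * cls (D.oset R (l + 1) n k A) := by
  rw [← cls_prodSet (constr_gset D R R l) (constr_oset D R (l + 1) n k _ hA')]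
  congr 1
  ext z
  constructor
  · rintro ⟨h1, h2, h3⟩
    refine ⟨h1, h2, ?_⟩
    have h4 : D.u0 R R l (fun j => z (Sum.inl j)) * (D.FF R (l + 1) fun q => z (Sum.inr q)).coeff k ∈ A := h3
    rw [u0_self, one_mul] at h4
    exact h4
  · rintro ⟨h1, h2, h3⟩
    refine ⟨h1, h2, ?_⟩
    change D.u0 R R l (fun j => z (Sum.inl j)) * (D.FF R (l + 1) fun q => z (Sum.inr q)).coeff k ∈ A
    rw [u0_self, one_mul]
    exact h3

end MotMono.Kum
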