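import Pool.Agent.Lib.MP_4e5fcd_ag.Kum.S4

/-! # KUM-S6: the first step -/

open MvPolynomial

namespace MotMono.Kum

variable {N : ℕ} {J : Type} [Fintype J] [DecidableEq J] (D : Data N J)

theorem along_f {n : ℕ} (γ : Fin N × Fin n → ℂ) : along D.f γ = D.FF D.act 0 γ := by
  have h1 : ∀ j : Fin N, D.d j ∣ 0 := fun j => dvd_zero _
  have hyy : ∀ j, D.yy D.act 0 γ j = arc γ j ^ D.d j := by
    intro j
    unfold Data.yy
    split_ifs with h
    · rw [rr_zero D 0 j (h1 j), pow_zero, one_mul]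
    · have h2 : ¬ (2 ≤ D.d j ∨ 1 ≤ D.b j) := by
        intro h3
        apply h
        unfold Data.act
        rw [Finset.mem_filter]
        refine ⟨Finset.mem_univ _, fun j' hj' => ?_⟩
        rw [← Sum.inr.inj hj']
        exact h3
      have h4 : D.d j = 1 := by
        have := D.hd j
        omega
      rw [h4, pow_one]
  unfold along Data.f diagPoly Data.FF
  rw [map_mul, map_prod, map_prod]
  congr 1
  · refine Finset.prod_congr rfl fun j _ => ?_
    rw [map_pow, aeval_X]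
    split_ifs with h
    · rfl
    · have h2 : ¬ (2 ≤ D.d j ∨ 1 ≤ D.b j) := by
        intro h3
        apply h
        unfold Data.act
        rw [Finset.mem_filter]
        refine ⟨Finset.mem_univ _, fun j' hj' => ?_⟩
        rw [← Sum.inr.inj hj']
        exact h3
      have h4 : D.b j = 0 := by omega
      rw [h4, pow_zero]
  · refine Finset.prod_congr rfl fun κ _ => ?_
    have h2 : (Sum.inl κ : J ⊕ Fin N) ∈ D.act := by
      unfold Data.act
      rw [Finset.mem_filter]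
      exact ⟨Finset.mem_univ _, fun j' hj' => by cases hj'⟩
    rw [if_pos h2, map_pow, map_sum]
    congr 1
    refine Finset.sum_congr rfl fun j _ => ?_
    rw [map_mul, map_pow, aeval_X, aeval_C, hyy]
    rfl

theorem stepV_zero (R : Finset (J ⊕ Fin N)) {n : ℕ} (γ : Fin N × Fin (n + 1) → ℂ) (j : Fin N) :
    D.stepV R 0 γ j = γ (j, 0) := by
  unfold Data.stepV
  rw [if_neg]
  rintro ⟨-, h⟩
  exact h (dvd_zero _)

theorem s6_CV {A : Set ℂ} (hA : CV A) (u : ℂ) : CV {c | u * c ∈ A} := by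
  intro σ P
  have h := hA σ (C u * P)
  simpa [map_mul] using h

theorem cls_start (R' : Finset (J ⊕ Fin N)) (hR' : R' ⊆ D.act) (p : Fin N → ℂ)
    (hp : p ∈ D.gset D.act R' 0) (n k : ℕ) (hk : k ≤ n) (A : Set ℂ) (hA : 0 ∉ A)
    (hA' : CV A) :
    cls {γ : Fin N × Fin (n + 1) → ℂ | (∀ j, γ (j, 0) = p j) ∧
      (∀ i < k, (along D.f γ).coeff i = 0) ∧ (along D.f γ).coeff k ∈ A} =
      if D.wt R' 0 ≤ k then
        cls (D.oset R' 1 n (k - D.wt R' 0) {c | D.u0 D.act R' 0 p * c ∈ A}) else 0 := by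
  have hstepV : ∀ γ : Fin N × Fin (n + 1) → ℂ, (∀ j, γ (j, 0) = p j) → D.stepV D.act 0 γ = p := by
    intro γ hγ
    funext j
    rw [stepV_zero, hγ j]
  have hmem : ∀ γ : Fin N × Fin (n + 1) → ℂ, (∀ j, γ (j, 0) = p j) →
      (γ ∈ D.oset D.act 0 (n + 1) k A ↔ D.wt R' 0 ≤ k ∧
        D.stepX D.act R' 0 γ ∈ D.oset R' (0 + 1) n (k - D.wt R' 0)
          {c | D.u0 D.act R' 0 p * c ∈ A}) := by
    intro γ hγ
    have h1 := mem_oset_step D D.act R' hR' 0 (n := n) (k := k) γ (by rw [hstepV γ hγ]; exact hp)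
      (Or.inr ⟨hk, fun j _ h => absurd (dvd_zero _) h⟩) A hA
    rw [hstepV γ hγ] at h1
    exact h1
  have hset : {γ : Fin N × Fin (n + 1) → ℂ | (∀ j, γ (j, 0) = p j) ∧
      (∀ i < k, (along D.f γ).coeff i = 0) ∧ (along D.f γ).coeff k ∈ A} =
      {γ | (∀ j, γ (j, 0) = p j) ∧ γ ∈ D.oset D.act 0 (n + 1) k A} := by
    ext γ
    simp only [Set.mem_ofPred_eq, along_f, Data.oset]
  rw [hset]
  split_ifs with h
  · set Q : Set (Fin N ⊕ Fin N × Fin n → ℂ) :=
      prodSet {p} (D.oset R' 1 n (k - D.wt R' 0) {c | D.u0 D.act R' 0 p * c ∈ A}) with hQ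
    have hc1 : Constr (D.oset R' 1 n (k - D.wt R' 0) {c | D.u0 D.act R' 0 p * c ∈ A}) :=
      constr_oset D R' 1 n _ _ (s6_CV hA' _)
    have hQc : Constr Q := (constr_singleton p).prodSet hc1
    have hQg : ∀ z ∈ Q, (fun j => z (Sum.inl j)) ∈ D.gset D.act R' 0 := by
      intro z hz
      have h2 : (fun j => z (Sum.inl j)) = p := hz.1
      rw [h2]
      exact hp
    have h3 : {γ : Fin N × Fin (n + 1) → ℂ | (∀ j, γ (j, 0) = p j) ∧
        γ ∈ D.oset D.act 0 (n + 1) k A} = {x | D.stepf D.act R' 0 x ∈ Q} := by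
      ext γ
      simp only [Set.mem_ofPred_eq, hQ, prodSet, Data.stepf, Sum.elim_inl, Sum.elim_inr,
        Set.mem_singleton_iff]
      constructor
      · rintro ⟨h4, h5⟩
        exact ⟨hstepV γ h4, ((hmem γ h4).mp h5).2⟩
      · rintro ⟨h4, h5⟩
        have h6 : ∀ j, γ (j, 0) = p j := fun j => by
          rw [← stepV_zero D D.act γ j]
          exact congrFun h4 j
        exact ⟨h6, (hmem γ h6).mpr ⟨h, h5⟩⟩
    rw [h3, cls_step D D.act R' hR' 0 n Q hQc hQg, hQ, cls_prodSet (constr_singleton p) hc1,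
      cls_singleton, one_mul]
  · have h3 : {γ : Fin N × Fin (n + 1) → ℂ | (∀ j, γ (j, 0) = p j) ∧
        γ ∈ D.oset D.act 0 (n + 1) k A} = ∅ := by
      ext γ
      simp only [Set.mem_ofPred_eq, Set.mem_empty_iff_false, iff_false, not_and]
      intro h4 h5
      exact h ((hmem γ h4).mp h5).1
    rw [h3, cls_empty]

end MotMono.Kum
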