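import Pool.Agent.Lib.MP_4e5fcd_ag.Kum.S4
import Pool.Agent.Lib.MP_4e5fcd_ag.H3

/-! # KUM-Z2: multiplicativity of the classes of the strata -/

open MvPolynomial

namespace MotMono.Kum

variable {N : ℕ} {J : Type} [Fintype J] [DecidableEq J] (D : Data N J)

theorem sup_eq_top (A B : Finset (J ⊕ Fin N)) (h : D.r A + D.r B ≤ D.r (A ∪ B)) :
    KK D.lam A ⊔ KK D.lam B = ⊤ := by
  have h1 := Submodule.finrank_sup_add_finrank_inf_eq (KK D.lam A) (KK D.lam B)
  rw [← h3_KK_union] at h1
  have hN : Module.finrank ℂ (⊤ : Submodule ℂ (Fin N → ℂ)) = N := by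
    rw [finrank_top, Module.finrank_fin_fun]
  have hle : ∀ R : Finset (J ⊕ Fin N), Module.finrank ℂ (KK D.lam R) ≤ N := fun R => by
    have := Submodule.finrank_le (KK D.lam R)
    rwa [Module.finrank_fin_fun] at this
  have hr : ∀ R : Finset (J ⊕ Fin N), D.r R = N - Module.finrank ℂ (KK D.lam R) := fun R => by
    rw [Data.r, rk, top_inf_eq, hN]
  rw [hr, hr, hr] at h
  have hA := hle A
  have hB := hle B
  have hAB := hle (A ∪ B)
  apply Submodule.eq_top_of_finrank_eq
  rw [Module.finrank_fin_fun]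
  have h2 := Submodule.finrank_le (KK D.lam A ⊔ KK D.lam B)
  rw [Module.finrank_fin_fun] at h2
  omega

omit [Fintype J] [DecidableEq J] in
private theorem Z2_section (lam : J ⊕ Fin N → Fin N → ℂ) (A B : Finset (J ⊕ Fin N))
    (htop : KK lam A ⊔ KK lam B = ⊤) :
    ∃ s : (Fin N → ℂ) →ₗ[ℂ] (Fin N → ℂ), (∀ x, s x ∈ KK lam A) ∧ ∀ x, x - s x ∈ KK lam B := by
  set φ : (KK lam A × KK lam B) →ₗ[ℂ] (Fin N → ℂ) :=
    LinearMap.coprod (KK lam A).subtype (KK lam B).subtype with hφ
  have hr : LinearMap.range φ = ⊤ := by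
    rw [hφ, LinearMap.range_coprod, Submodule.range_subtype, Submodule.range_subtype, htop]
  obtain ⟨g, hg⟩ := φ.exists_rightInverse_of_surjective hr
  refine ⟨(KK lam A).subtype ∘ₗ LinearMap.fst ℂ _ _ ∘ₗ g, fun x => ?_, fun x => ?_⟩
  · exact (g x).1.2
  · have h1 : φ (g x) = x := by
      rw [← LinearMap.comp_apply, hg, LinearMap.id_apply]
    have h2 : ((g x).1 : Fin N → ℂ) + ((g x).2 : Fin N → ℂ) = x := by
      rw [hφ, LinearMap.coprod_apply] at h1
      exact h1
    have h3 : x - ((KK lam A).subtype ∘ₗ LinearMap.fst ℂ _ _ ∘ₗ g) x = ((g x).2 : Fin N → ℂ) := by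
      change x - ((g x).1 : Fin N → ℂ) = _
      rw [sub_eq_iff_eq_add, add_comm]
      exact h2.symm
    rw [h3]
    exact (g x).2.2

omit [Fintype J] [DecidableEq J] in
private theorem Z2_coord (R : Finset (J ⊕ Fin N)) (j : Fin N) (hj : Sum.inr j ∈ R)
    (x : Fin N → ℂ) (hx : x ∈ KK D.lam R) : x j = 0 := by
  have h := hx (Sum.inr j) hj
  have e : D.lam (Sum.inr j) = Pi.single j 1 := rfl
  rw [e, single_one_dotProduct] at h
  exact h

omit [Fintype J] in
/-- the coordinates of `yv` are regular -/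
private theorem Z2_reg_yv {σ : Type} (E : Set (σ → ℂ)) (R : Finset (J ⊕ Fin N)) (l : ℕ)
    (v : (σ → ℂ) → (Fin N → ℂ)) (hv : ∀ j, RegFun E fun z => v z j) (j : Fin N) :
    RegFun E fun z => D.yv R l (v z) j := by
  have hpow : ∀ n : ℕ, RegFun E fun z => v z j ^ n := by
    intro n
    induction n with
    | zero => simpa using regFun_const E 1
    | succ n ih => simpa [pow_succ] using ih.mul (hv j)
  unfold Data.yv
  by_cases h : Sum.inr j ∈ R
  · by_cases h' : D.d j ∣ l
    · simpa [h, h'] using hpow (D.d j)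
    · simpa [h, h'] using regFun_const E 0
  · simpa [h] using hv j

private theorem Z2_reg_lin {σ : Type} (E : Set (σ → ℂ)) (s : (Fin N → ℂ) →ₗ[ℂ] (Fin N → ℂ))
    (v : (σ → ℂ) → (Fin N → ℂ)) (hv : ∀ j, RegFun E fun z => v z j) (j : Fin N) :
    RegFun E fun z => s (v z) j := by
  have h := regFun_lin (Set.univ : Set (Fin N → ℂ)) (LinearMap.proj j ∘ₗ s)
  exact RegFun.comp (f := v) hv h fun x _ => Set.mem_univ _

theorem gset_mul_iso (A B A' B' : Finset (J ⊕ Fin N)) (hAB : Disjoint A B) (hA : A' ⊆ A)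
    (hB : B' ⊆ B) (htop : KK D.lam A ⊔ KK D.lam B = ⊤) (l : ℕ) :
    RegIso (prodSet (D.gset A A' l) (D.gset B B' l))
      (prodSet (D.gset (A ∪ B) (A' ∪ B') l) (Set.univ : Set (Fin N → ℂ))) := by
  obtain ⟨s, hs1, hs2⟩ := Z2_section D.lam A B htop
  have hdis : ∀ i, i ∈ A → i ∉ B := fun i h1 h2 => Finset.disjoint_left.mp hAB h1 h2
  -- values of the section
  have hsA : ∀ x (i : J ⊕ Fin N), i ∈ A → D.lam i ⬝ᵥ s x = 0 := fun x i hi => hs1 x i hi
  have hsB : ∀ x (i : J ⊕ Fin N), i ∈ B → D.lam i ⬝ᵥ s x = D.lam i ⬝ᵥ x := fun x i hi => by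
    have h := hs2 x i hi
    rw [dotProduct_sub, sub_eq_zero] at h
    exact h.symm
  have hsAj : ∀ x (j : Fin N), Sum.inr j ∈ A → s x j = 0 := fun x j hj =>
    Z2_coord D A j hj _ (hs1 x)
  have hsBj : ∀ x (j : Fin N), Sum.inr j ∈ B → s x j = x j := fun x j hj => by
    have h := Z2_coord D B j hj _ (hs2 x)
    rw [Pi.sub_apply, sub_eq_zero] at h
    exact h.symm
  -- the maps
  set fy : (Fin N → ℂ) → (Fin N → ℂ) → (Fin N → ℂ) := fun v w =>
    D.yv A l v + s (D.yv B l w - D.yv A l v) with hfy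
  set fv : (Fin N → ℂ) → (Fin N → ℂ) → (Fin N → ℂ) := fun v w j =>
    if Sum.inr j ∈ A then v j else if Sum.inr j ∈ B then w j else fy v w j with hfv
  set fd : (Fin N → ℂ) → (Fin N → ℂ) → (Fin N → ℂ) := fun v w j =>
    if Sum.inr j ∈ A then w j else if Sum.inr j ∈ B then v j
      else D.yv B l w j - D.yv A l v j with hfd
  set gd : (Fin N → ℂ) → (Fin N → ℂ) → (Fin N → ℂ) := fun v d j =>
    if Sum.inr j ∈ A then d j - D.yv (A ∪ B) l v j else if Sum.inr j ∈ B then
      D.yv (A ∪ B) l v j - d j else d j with hgd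
  set gy : (Fin N → ℂ) → (Fin N → ℂ) → (Fin N → ℂ) := fun v d =>
    D.yv (A ∪ B) l v - s (gd v d) with hgy
  set gz : (Fin N → ℂ) → (Fin N → ℂ) → (Fin N → ℂ) := fun v d =>
    D.yv (A ∪ B) l v + gd v d - s (gd v d) with hgz
  set gv : (Fin N → ℂ) → (Fin N → ℂ) → (Fin N → ℂ) := fun v d j =>
    if Sum.inr j ∈ A then v j else gy v d j with hgv
  set gw : (Fin N → ℂ) → (Fin N → ℂ) → (Fin N → ℂ) := fun v d j =>
    if Sum.inr j ∈ B then v j else gz v d j with hgw
  have hfy' : ∀ v w, fy v w = D.yv A l v + s (D.yv B l w - D.yv A l v) := fun _ _ => rfl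
  have hgy' : ∀ v d, gy v d = D.yv (A ∪ B) l v - s (gd v d) := fun _ _ => rfl
  have hgz' : ∀ v d, gz v d = D.yv (A ∪ B) l v + gd v d - s (gd v d) := fun _ _ => rfl
  -- coordinates of fy
  have hfyA : ∀ v w (j : Fin N), Sum.inr j ∈ A → fy v w j = D.yv A l v j := fun v w j hj => by
    rw [hfy]
    simp only [Pi.add_apply]
    rw [hsAj _ j hj, add_zero]
  have hfyB : ∀ v w (j : Fin N), Sum.inr j ∈ B → fy v w j = D.yv B l w j := fun v w j hj => by
    rw [hfy]
    simp only [Pi.add_apply]
    rw [hsBj _ j hj, Pi.sub_apply]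
    ring
  -- yv of the union
  have hY : ∀ v w, D.yv (A ∪ B) l (fv v w) = fy v w := by
    intro v w
    funext j
    by_cases hjA : Sum.inr j ∈ A
    · rw [hfyA v w j hjA]
      simp only [Data.yv, Finset.mem_union, hjA, true_or, if_true, hfv]
    · by_cases hjB : Sum.inr j ∈ B
      · rw [hfyB v w j hjB]
        simp only [Data.yv, Finset.mem_union, hjA, hjB, or_true, if_true, if_false, hfv]
      · simp only [Data.yv, Finset.mem_union, hjA, hjB, or_self, if_false, hfv]
  have hgyA : ∀ v d, D.yv A l (gv v d) = gy v d := by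
    intro v d
    funext j
    by_cases hjA : Sum.inr j ∈ A
    · have e : gy v d j = D.yv (A ∪ B) l v j := by
        rw [hgy]
        simp only [Pi.sub_apply]
        rw [hsAj _ j hjA, sub_zero]
      rw [e]
      simp only [Data.yv, Finset.mem_union, hjA, true_or, if_true, hgv]
    · simp only [Data.yv, hjA, if_false, hgv]
  have hgzB : ∀ v d, D.yv B l (gw v d) = gz v d := by
    intro v d
    funext j
    by_cases hjB : Sum.inr j ∈ B
    · have e : gz v d j = D.yv (A ∪ B) l v j := by
        rw [hgz]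
        simp only [Pi.sub_apply, Pi.add_apply]
        rw [hsBj _ j hjB]
        ring
      rw [e]
      simp only [Data.yv, Finset.mem_union, hjB, or_true, if_true, hgw]
    · simp only [Data.yv, hjB, if_false, hgw]
  have hzy : ∀ v d, gz v d - gy v d = gd v d := by
    intro v d
    rw [hgz', hgy']
    abel
  -- the computed difference
  have hdiff : ∀ v w, gd (fv v w) (fd v w) = D.yv B l w - D.yv A l v := by
    intro v w
    funext j
    rw [hgd]
    simp only [Pi.sub_apply]
    rw [hY]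
    by_cases hjA : Sum.inr j ∈ A
    · have hjB := hdis _ hjA
      rw [if_pos hjA, hfyA v w j hjA]
      have e1 : fd v w j = w j := by rw [hfd]; simp only [hjA, if_true]
      have e2 : D.yv B l w j = w j := by simp only [Data.yv, hjB, if_false]
      rw [e1, e2]
    · rw [if_neg hjA]
      by_cases hjB : Sum.inr j ∈ B
      · rw [if_pos hjB, hfyB v w j hjB]
        have e1 : fd v w j = v j := by rw [hfd]; simp only [hjA, hjB, if_true, if_false]
        have e2 : D.yv A l v j = v j := by simp only [Data.yv, hjA, if_false]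
        rw [e1, e2]
      · rw [if_neg hjB, hfd]
        simp only [hjA, hjB, if_false]
  have hgf1 : ∀ v w, gv (fv v w) (fd v w) = v := by
    intro v w
    funext j
    by_cases hjA : Sum.inr j ∈ A
    · simp only [hgv, hfv, hjA, if_true]
    · have e : gy (fv v w) (fd v w) = D.yv A l v := by
        rw [hgy', hdiff, hY, hfy']
        abel
      have e2 : gv (fv v w) (fd v w) j = gy (fv v w) (fd v w) j := by
        simp only [hgv, hjA, if_false]
      rw [e2, e]
      simp only [Data.yv, hjA, if_false]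
  have hgf2 : ∀ v w, gw (fv v w) (fd v w) = w := by
    intro v w
    funext j
    by_cases hjB : Sum.inr j ∈ B
    · have hjA : Sum.inr j ∉ A := fun h => hdis _ h hjB
      simp only [hgw, hfv, hjA, hjB, if_true, if_false]
    · have e : gz (fv v w) (fd v w) = D.yv B l w := by
        rw [hgz', hdiff, hY, hfy']
        abel
      have e2 : gw (fv v w) (fd v w) j = gz (fv v w) (fd v w) j := by
        simp only [hgw, hjB, if_false]
      rw [e2, e]
      simp only [Data.yv, hjB, if_false]
  have hfyg : ∀ v d, fy (gv v d) (gw v d) = D.yv (A ∪ B) l v := by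
    intro v d
    rw [hfy', hgyA, hgzB, hzy, hgy']
    abel
  have hfg1 : ∀ v d, fv (gv v d) (gw v d) = v := by
    intro v d
    funext j
    by_cases hjA : Sum.inr j ∈ A
    · simp only [hfv, hgv, hjA, if_true]
    · by_cases hjB : Sum.inr j ∈ B
      · simp only [hfv, hgw, hjA, hjB, if_true, if_false]
      · have e : fv (gv v d) (gw v d) j = fy (gv v d) (gw v d) j := by
          simp only [hfv, hjA, hjB, if_false]
        rw [e, hfyg]
        simp only [Data.yv, Finset.mem_union, hjA, hjB, or_self, if_false]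
  have hfg2 : ∀ v d, fd (gv v d) (gw v d) = d := by
    intro v d
    funext j
    by_cases hjA : Sum.inr j ∈ A
    · have hjB := hdis _ hjA
      have e : fd (gv v d) (gw v d) j = gz v d j := by
        simp only [hfd, hgw, hjA, hjB, if_true, if_false]
      have e2 : gd v d j = d j - D.yv (A ∪ B) l v j := by
        simp only [hgd, hjA, if_true]
      rw [e, hgz]
      simp only [Pi.sub_apply, Pi.add_apply]
      rw [hsAj _ j hjA, e2]
      ring
    · by_cases hjB : Sum.inr j ∈ B
      · have e : fd (gv v d) (gw v d) j = gy v d j := by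
          simp only [hfd, hgv, hjA, hjB, if_true, if_false]
        have e2 : gd v d j = D.yv (A ∪ B) l v j - d j := by
          simp only [hgd, hjA, hjB, if_true, if_false]
        rw [e, hgy]
        simp only [Pi.sub_apply]
        rw [hsBj _ j hjB, e2]
        ring
      · have e : fd (gv v d) (gw v d) j = gz v d j - gy v d j := by
          have h1 : fd (gv v d) (gw v d) j = D.yv B l (gw v d) j - D.yv A l (gv v d) j := by
            simp only [hfd, hjA, hjB, if_false]
          rw [h1, hgyA, hgzB]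
        have e2 : gd v d j = d j := by
          simp only [hgd, hjA, hjB, if_false]
        rw [e, ← Pi.sub_apply, hzy, e2]
  -- membership in the union
  have hmem : ∀ v w, (∀ i ∈ A, D.lam i ⬝ᵥ fy v w = D.lam i ⬝ᵥ D.yv A l v) ∧
      ∀ i ∈ B, D.lam i ⬝ᵥ fy v w = D.lam i ⬝ᵥ D.yv B l w := by
    intro v w
    refine ⟨fun i hi => ?_, fun i hi => ?_⟩
    · rw [hfy', dotProduct_add, hsA _ i hi, add_zero]
    · rw [hfy', dotProduct_add, hsB _ i hi, dotProduct_sub]
      ring
  have hunA : ∀ i ∈ A, (i ∈ A' ∪ B' ↔ i ∈ A') := fun i hi => by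
    rw [Finset.mem_union]
    exact ⟨fun h => h.elim id fun h' => absurd (hB h') (hdis i hi), Or.inl⟩
  have hunB : ∀ i ∈ B, (i ∈ A' ∪ B' ↔ i ∈ B') := fun i hi => by
    rw [Finset.mem_union]
    exact ⟨fun h => h.elim (fun h' => absurd hi (hdis i (hA h'))) id, Or.inr⟩
  have hiff : ∀ v w, fv v w ∈ D.gset (A ∪ B) (A' ∪ B') l ↔
      v ∈ D.gset A A' l ∧ w ∈ D.gset B B' l := by
    intro v w
    obtain ⟨h1, h2⟩ := hmem v w
    constructor
    · intro h
      refine ⟨fun i hi => ?_, fun i hi => ?_⟩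
      · have h3 := h i (Finset.mem_union_left _ hi)
        rw [hY, h1 i hi, hunA i hi] at h3
        exact h3
      · have h3 := h i (Finset.mem_union_right _ hi)
        rw [hY, h2 i hi, hunB i hi] at h3
        exact h3
    · rintro ⟨h3, h4⟩ i hi
      rw [hY]
      rcases Finset.mem_union.mp hi with hi | hi
      · rw [h1 i hi, hunA i hi]
        exact h3 i hi
      · rw [h2 i hi, hunB i hi]
        exact h4 i hi
  refine ⟨fun z => Sum.elim (fv (fun j => z (Sum.inl j)) (fun j => z (Sum.inr j)))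
      (fd (fun j => z (Sum.inl j)) (fun j => z (Sum.inr j))),
    fun z => Sum.elim (gv (fun j => z (Sum.inl j)) (fun j => z (Sum.inr j)))
      (gw (fun j => z (Sum.inl j)) (fun j => z (Sum.inr j))), ?_, ?_, ?_, ?_, ?_, ?_⟩
  · -- regularity of f
    set E := prodSet (D.gset A A' l) (D.gset B B' l)
    have hc1 : ∀ j, RegFun E fun z => z (Sum.inl j) := fun j => regFun_coord _ _
    have hc2 : ∀ j, RegFun E fun z => z (Sum.inr j) := fun j => regFun_coord _ _
    have hyA : ∀ j, RegFun E fun z => D.yv A l (fun j => z (Sum.inl j)) j := fun j =>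
      Z2_reg_yv D E A l (fun z j => z (Sum.inl j)) hc1 j
    have hyB : ∀ j, RegFun E fun z => D.yv B l (fun j => z (Sum.inr j)) j := fun j =>
      Z2_reg_yv D E B l (fun z j => z (Sum.inr j)) hc2 j
    have hsub : ∀ j, RegFun E fun z =>
        (D.yv B l (fun j => z (Sum.inr j)) - D.yv A l (fun j => z (Sum.inl j))) j := fun j =>
      (hyB j).sub (hyA j)
    have hs := Z2_reg_lin E s (fun z => D.yv B l (fun j => z (Sum.inr j)) -
      D.yv A l (fun j => z (Sum.inl j))) hsub
    intro q
    rcases q with j | j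
    · by_cases hjA : Sum.inr j ∈ A
      · simpa [hfv, hjA] using hc1 j
      · by_cases hjB : Sum.inr j ∈ B
        · simpa [hfv, hjA, hjB] using hc2 j
        · have := (hyA j).add (hs j)
          simpa only [Sum.elim_inl, hfv, hjA, hjB, if_false, hfy, Pi.add_apply] using this
    · by_cases hjA : Sum.inr j ∈ A
      · simpa [hfd, hjA] using hc2 j
      · by_cases hjB : Sum.inr j ∈ B
        · simpa [hfd, hjA, hjB] using hc1 j
        · have := hsub j
          simpa only [Sum.elim_inr, hfd, hjA, hjB, if_false, Pi.sub_apply] using this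
  · -- regularity of g
    set E := prodSet (D.gset (A ∪ B) (A' ∪ B') l) (Set.univ : Set (Fin N → ℂ))
    have hc1 : ∀ j, RegFun E fun z => z (Sum.inl j) := fun j => regFun_coord _ _
    have hc2 : ∀ j, RegFun E fun z => z (Sum.inr j) := fun j => regFun_coord _ _
    have hy : ∀ j, RegFun E fun z => D.yv (A ∪ B) l (fun j => z (Sum.inl j)) j := fun j =>
      Z2_reg_yv D E (A ∪ B) l (fun z j => z (Sum.inl j)) hc1 j
    have hd : ∀ j, RegFun E fun z =>
        gd (fun j => z (Sum.inl j)) (fun j => z (Sum.inr j)) j := by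
      intro j
      by_cases hjA : Sum.inr j ∈ A
      · have := (hc2 j).sub (hy j)
        simpa only [hgd, hjA, if_true] using this
      · by_cases hjB : Sum.inr j ∈ B
        · have := (hy j).sub (hc2 j)
          simpa only [hgd, hjA, hjB, if_true, if_false] using this
        · simpa only [hgd, hjA, hjB, if_false] using hc2 j
    have hs := Z2_reg_lin E s (fun z => gd (fun j => z (Sum.inl j)) (fun j => z (Sum.inr j))) hd
    intro q
    rcases q with j | j
    · by_cases hjA : Sum.inr j ∈ A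
      · simpa [hgv, hjA] using hc1 j
      · have := (hy j).sub (hs j)
        simpa only [Sum.elim_inl, hgv, hjA, if_false, hgy, Pi.sub_apply] using this
    · by_cases hjB : Sum.inr j ∈ B
      · simpa [hgw, hjB] using hc1 j
      · have := ((hy j).add (hd j)).sub (hs j)
        simpa only [Sum.elim_inr, hgw, hjB, if_false, hgz, Pi.sub_apply, Pi.add_apply] using this
  · rintro z ⟨h1, h2⟩
    exact ⟨(hiff _ _).2 ⟨h1, h2⟩, Set.mem_univ _⟩
  · rintro z ⟨h1, -⟩
    have h2 : fv (gv (fun j => z (Sum.inl j)) (fun j => z (Sum.inr j)))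
        (gw (fun j => z (Sum.inl j)) (fun j => z (Sum.inr j))) ∈
        D.gset (A ∪ B) (A' ∪ B') l := by
      rw [hfg1]
      exact h1
    exact (hiff _ _).1 h2
  · intro z _
    funext q
    rcases q with j | j
    · exact congrFun (hgf1 (fun j => z (Sum.inl j)) (fun j => z (Sum.inr j))) j
    · exact congrFun (hgf2 (fun j => z (Sum.inl j)) (fun j => z (Sum.inr j))) j
  · intro z _
    funext q
    rcases q with j | j
    · exact congrFun (hfg1 (fun j => z (Sum.inl j)) (fun j => z (Sum.inr j))) j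
    · exact congrFun (hfg2 (fun j => z (Sum.inl j)) (fun j => z (Sum.inr j))) j

theorem gh_mul (A B A' B' : Finset (J ⊕ Fin N)) (hAB : Disjoint A B) (hA : A' ⊆ A)
    (hB : B' ⊆ B) (htop : KK D.lam A ⊔ KK D.lam B = ⊤) (l : ℕ) :
    D.gh (A ∪ B) (A' ∪ B') l = D.gh A A' l * D.gh B B' l := by
  have hLL : algebraMap K0 MC LL = ((Lu : MCˣ) : MC) := by
    unfold Lu
    rw [IsUnit.unit_spec]
  have hcls : cls (D.gset A A' l) * cls (D.gset B B' l) =
      cls (D.gset (A ∪ B) (A' ∪ B') l) * LL ^ N := by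
    have hu : cls (Set.univ : Set (Fin N → ℂ)) = LL ^ N := by
      rw [cls_univ, Fintype.card_fin]
    rw [← hu, ← cls_prodSet (constr_gset D _ _ _) (constr_gset D _ _ _),
      ← cls_prodSet (constr_gset D _ _ _) constr_univ]
    exact cls_iso (Constr.prodSet (constr_gset D _ _ _) (constr_gset D _ _ _))
      (Constr.prodSet (constr_gset D _ _ _) constr_univ)
      (gset_mul_iso D A B A' B' hAB hA hB htop l)
  have h := congrArg (algebraMap K0 MC) hcls
  rw [map_mul, map_mul, map_pow, hLL] at h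
  unfold Data.gh
  have e : (((Lu ^ (-(N : ℤ)) : MCˣ) : MC)) * ((Lu : MCˣ) : MC) ^ N = 1 := by
    rw [← Units.val_pow_eq_pow_val, ← Units.val_mul, ← zpow_natCast Lu, ← zpow_add]
    simp
  calc algebraMap K0 MC (cls (D.gset (A ∪ B) (A' ∪ B') l)) * ((Lu ^ (-(N : ℤ)) : MCˣ) : MC)
      = algebraMap K0 MC (cls (D.gset (A ∪ B) (A' ∪ B') l)) *
        ((((Lu ^ (-(N : ℤ)) : MCˣ) : MC)) * ((Lu : MCˣ) : MC) ^ N) *
        ((Lu ^ (-(N : ℤ)) : MCˣ) : MC) := by rw [e, mul_one]
    _ = (algebraMap K0 MC (cls (D.gset (A ∪ B) (A' ∪ B') l)) * ((Lu : MCˣ) : MC) ^ N) *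
        ((Lu ^ (-(N : ℤ)) : MCˣ) : MC) * ((Lu ^ (-(N : ℤ)) : MCˣ) : MC) := by ring
    _ = _ := by rw [← h]; ring

end MotMono.Kum
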