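import Pool.Agent.Lib.MP_4e5fcd_ag.Kum.S5
import Pool.Agent.Lib.MP_4e5fcd_ag.Kum.Z3

/-! # KUM-Z4: the recursion of the generating functions -/

open MvPolynomial

namespace MotMono.Kum

variable {N : ℕ} {J : Type} [Fintype J] [DecidableEq J] (D : Data N J)

theorem algebraMap_LL : algebraMap K0 MC LL = ((Lu : MCˣ) : MC) := by
  unfold Lu
  rw [IsUnit.unit_spec]

theorem z4_LL_pow (m : ℕ) : algebraMap K0 MC (LL ^ m) = ((Lu ^ (m : ℤ) : MCˣ) : MC) := by
  rw [map_pow, algebraMap_LL, zpow_natCast, Units.val_pow_eq_pow_val]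

/-- the coefficients with an arbitrary number of levels -/
theorem coeff_Psi (R : Finset (J ⊕ Fin N)) (l n k : ℕ) (hk : k < n) :
    PowerSeries.coeff k (D.Psi R l) = algebraMap K0 MC (cls (D.oset R l n k {0}ᶜ)) *
      ((Lu ^ (-(N * n : ℤ)) : MCˣ) : MC) := by
  obtain ⟨e, rfl⟩ : ∃ e, n = (k + 1) + e := ⟨n - (k + 1), by omega⟩
  rw [cls_oset_add D R l (k + 1) k e (Nat.lt_succ_self k) _ cv_ne_zero, map_mul, z4_LL_pow]
  unfold Data.Psi
  rw [PowerSeries.coeff_mk]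
  have h1 : ((Lu ^ (-(N * (k + 1) : ℤ)) : MCˣ) : MC) =
      ((Lu ^ ((N * e : ℕ) : ℤ) : MCˣ) : MC) * ((Lu ^ (-(N * ((k + 1 + e : ℕ) : ℤ))) : MCˣ) : MC) := by
    rw [← Units.val_mul, ← zpow_add]
    congr 2
    push_cast
    ring
  rw [h1]
  ring

theorem Psi_rec (R : Finset (J ⊕ Fin N)) (l : ℕ) :
    D.Psi R l = ∑ R' ∈ R.powerset,
      PowerSeries.C (D.gh R R' l) * PowerSeries.X ^ D.wt R' l * D.Psi R' (l + 1) := by
  ext k
  rw [coeff_Psi D R l (k + 2) k (by omega), map_sum]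
  rw [cls_oset_step D R l (k + 1) k (Or.inl (Nat.lt_succ_self k)) {0}ᶜ (by simp) cv_ne_zero,
    map_sum, Finset.sum_mul]
  refine Finset.sum_congr rfl fun R' _ => ?_
  rw [mul_assoc, PowerSeries.coeff_C_mul, PowerSeries.coeff_X_pow_mul']
  split_ifs with h
  · rw [cls_tset_ne_zero, map_mul,
      coeff_Psi D R' (l + 1) (k + 1) (k - D.wt R' l) (by omega)]
    unfold Data.gh
    have h1 : ((Lu ^ (-(N * ((k + 2 : ℕ) : ℤ))) : MCˣ) : MC) =
        ((Lu ^ (-(N : ℤ)) : MCˣ) : MC) * ((Lu ^ (-(N * ((k + 1 : ℕ) : ℤ))) : MCˣ) : MC) := by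
      rw [← Units.val_mul, ← zpow_add]
      congr 2
      push_cast
      ring
    rw [h1]
    ring
  · rw [map_zero, zero_mul, mul_zero]

theorem Psi_of_Nn_eq_zero (R : Finset (J ⊕ Fin N)) (hR : D.Nn R = 0) (l : ℕ) :
    D.Psi R l = 1 := by
  ext k
  unfold Data.Psi
  rw [PowerSeries.coeff_mk, PowerSeries.coeff_one]
  rcases Nat.eq_zero_or_pos k with h | h
  · subst h
    have h1 : D.oset R l (0 + 1) 0 {0}ᶜ = Set.univ := by
      ext x
      simp [Data.oset, FF_of_Nn_eq_zero D R hR l]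
    rw [h1, cls_univ, z4_LL_pow, if_pos rfl, ← Units.val_mul, ← zpow_add]
    have h2 : ((Fintype.card (Fin N × Fin (0 + 1)) : ℕ) : ℤ) + -(N * (((0 : ℕ) : ℤ) + 1)) = 0 := by
      simp
    rw [h2, zpow_zero, Units.val_one]
  · have h1 : D.oset R l (k + 1) k {0}ᶜ = ∅ := by
      ext x
      simp only [Data.oset, FF_of_Nn_eq_zero D R hR l, Set.mem_ofPred_eq, Set.mem_empty_iff_false,
        iff_false, not_and]
      intro h2
      have := h2 0 h
      simp at this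
    rw [h1, cls_empty, map_zero, zero_mul, if_neg h.ne']

end MotMono.Kum
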