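import Mathlib

/-! # KUM-Z5: cycles of linear recursions -/

namespace MotMono.Kum

variable {A : Type*} [CommRing A]

theorem Z5_iter (M : ℕ) (P α β : ℕ → A) (h : ∀ l, P l = α l * P (l + 1) + β l) (l : ℕ) :
    P l = (∏ i ∈ Finset.range M, α (l + i)) * P (l + M) +
      ∑ i ∈ Finset.range M, (∏ i' ∈ Finset.range i, α (l + i')) * β (l + i) := by
  induction M with
  | zero => simp
  | succ M ih =>
    rw [Finset.prod_range_succ, Finset.sum_range_succ]
    have h1 := h (l + M)
    have h2 : l + M + 1 = l + (M + 1) := by ring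
    rw [h2] at h1
    calc P l = _ := ih
      _ = _ := by rw [h1]; ring

/-- going around a cycle -/
theorem cycle (M : ℕ) (P α β : ℕ → A) (h : ∀ l, P l = α l * P (l + 1) + β l) (l : ℕ)
    (hP : P (l + M) = P l) :
    (1 - ∏ i ∈ Finset.range M, α (l + i)) * P l =
      ∑ i ∈ Finset.range M, (∏ i' ∈ Finset.range i, α (l + i')) * β (l + i) := by
  have h1 := Z5_iter M P α β h l
  rw [hP] at h1
  linear_combination h1

/-- `1 - c X ^ N` is a unit -/
theorem isUnit_one_sub (c : A) (n : ℕ) (hn : 0 < n) :
    IsUnit (1 - PowerSeries.C c * PowerSeries.X ^ n : PowerSeries A) := by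
  rw [PowerSeries.isUnit_iff_constantCoeff, map_sub, map_mul, map_pow, map_one,
    PowerSeries.constantCoeff_X, zero_pow hn.ne', mul_zero, sub_zero]
  exact isUnit_one

end MotMono.Kum
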