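import Pool.Agent.Lib.MP_4e5fcd_ag.Kum.Z1
import Pool.Agent.Lib.MP_4e5fcd_ag.Kum.Z2
import Pool.Agent.Lib.MP_4e5fcd_ag.Kum.Z4
import Pool.Agent.Lib.MP_4e5fcd_ag.Kum.Z5

/-! # KUM-Z6: multiplicativity of the generating functions -/

open MvPolynomial

namespace MotMono.Kum

variable {N : ℕ} {J : Type} [Fintype J] [DecidableEq J] (D : Data N J)

theorem wt_union (A B : Finset (J ⊕ Fin N)) (hAB : Disjoint A B) (l : ℕ) :
    D.wt (A ∪ B) l = D.wt A l + D.wt B l := by
  have key : ∀ (i : J ⊕ Fin N) (P : Prop) [Decidable P] (c : ℕ),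
      (if i ∈ A ∪ B ∧ P then c else 0) =
        (if i ∈ A ∧ P then c else 0) + (if i ∈ B ∧ P then c else 0) := by
    intro i P _ c
    by_cases hP : P
    · by_cases hA : i ∈ A
      · have hB : i ∉ B := Finset.disjoint_left.1 hAB hA
        simp [hA, hB, hP]
      · by_cases hB : i ∈ B
        · simp [hA, hB, hP]
        · simp [hA, hB]
    · simp [hP]
  have key' : ∀ (i : J ⊕ Fin N) (c : ℕ),
      (if i ∈ A ∪ B then c else 0) = (if i ∈ A then c else 0) + (if i ∈ B then c else 0) := by
    intro i c
    have := key i True c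
    simpa using this
  unfold Data.wt
  rw [Finset.sum_congr rfl fun κ _ => key' (Sum.inl κ) (D.m κ),
    Finset.sum_congr rfl fun j _ => key (Sum.inr j) (D.d j ∣ l) (D.b j),
    Finset.sum_add_distrib, Finset.sum_add_distrib]
  ring

theorem z6_sum {I M : Type*} [DecidableEq I] [AddCommMonoid M] (A B : Finset I)
    (hAB : Disjoint A B) (f : Finset I → M) :
    ∑ S' ∈ (A ∪ B).powerset, f S' = ∑ p ∈ A.powerset ×ˢ B.powerset, f (p.1 ∪ p.2) := by
  refine Finset.sum_nbij' (fun S' => (S' ∩ A, S' ∩ B)) (fun p => p.1 ∪ p.2) ?_ ?_ ?_ ?_ ?_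
  · intro S' _
    simp only [Finset.mem_product, Finset.mem_powerset]
    exact ⟨Finset.inter_subset_right, Finset.inter_subset_right⟩
  · rintro ⟨A', B'⟩ hp
    simp only [Finset.mem_product, Finset.mem_powerset] at hp ⊢
    exact Finset.union_subset_union hp.1 hp.2
  · intro S' hS'
    rw [Finset.mem_powerset] at hS'
    simp only
    rw [← Finset.inter_union_distrib_left, Finset.inter_eq_left.mpr hS']
  · rintro ⟨A', B'⟩ hp
    simp only [Finset.mem_product, Finset.mem_powerset] at hp
    have h1 : (A' ∪ B') ∩ A = A' := by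
      ext j
      simp only [Finset.mem_inter, Finset.mem_union]
      constructor
      · rintro ⟨h | h, hA⟩
        · exact h
        · exact absurd (hp.2 h) (Finset.disjoint_left.mp hAB hA)
      · intro h
        exact ⟨Or.inl h, hp.1 h⟩
    have h2 : (A' ∪ B') ∩ B = B' := by
      ext j
      simp only [Finset.mem_inter, Finset.mem_union]
      constructor
      · rintro ⟨h | h, hB⟩
        · exact absurd hB (Finset.disjoint_left.mp hAB (hp.1 h))
        · exact h
      · intro h
        exact ⟨Or.inr h, hp.2 h⟩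
    simp only [h1, h2]
  · intro S' hS'
    rw [Finset.mem_powerset] at hS'
    simp only
    rw [← Finset.inter_union_distrib_left, Finset.inter_eq_left.mpr hS']

theorem Psi_mul (A B : Finset (J ⊕ Fin N)) (hAB : Disjoint A B)
    (htop : KK D.lam A ⊔ KK D.lam B = ⊤) (l : ℕ) :
    D.Psi (A ∪ B) l = D.Psi A l * D.Psi B l := by
  suffices H : ∀ (c : ℕ) (A B : Finset (J ⊕ Fin N)), (A ∪ B).card = c → Disjoint A B →
      KK D.lam A ⊔ KK D.lam B = ⊤ → ∀ l, D.Psi (A ∪ B) l = D.Psi A l * D.Psi B l from
    H _ A B rfl hAB htop l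
  intro c
  induction c using Nat.strong_induction_on with
  | _ c ih =>
  intro A B hc hAB htop l
  rcases Nat.eq_zero_or_pos (D.Nn (A ∪ B)) with hN | hN
  · have hNA : D.Nn A = 0 := Nat.eq_zero_of_le_zero
      (hN ▸ Nn_mono D (Finset.subset_union_left : A ⊆ A ∪ B))
    have hNB : D.Nn B = 0 := Nat.eq_zero_of_le_zero
      (hN ▸ Nn_mono D (Finset.subset_union_right : B ⊆ A ∪ B))
    rw [Psi_of_Nn_eq_zero D _ hN, Psi_of_Nn_eq_zero D _ hNA, Psi_of_Nn_eq_zero D _ hNB, one_mul]
  · set P : ℕ → PowerSeries MC := fun l => D.Psi (A ∪ B) l - D.Psi A l * D.Psi B l with hP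
    have hstep : ∀ l, P l = (PowerSeries.C (D.gh (A ∪ B) (A ∪ B) l) *
        PowerSeries.X ^ D.wt (A ∪ B) l) * P (l + 1) + 0 := by
      intro l
      have h1 : D.Psi (A ∪ B) l = ∑ p ∈ A.powerset ×ˢ B.powerset,
          PowerSeries.C (D.gh (A ∪ B) (p.1 ∪ p.2) l) * PowerSeries.X ^ D.wt (p.1 ∪ p.2) l *
            D.Psi (p.1 ∪ p.2) (l + 1) := by
        rw [Psi_rec, z6_sum A B hAB]
      have h2 : D.Psi A l * D.Psi B l = ∑ p ∈ A.powerset ×ˢ B.powerset,
          PowerSeries.C (D.gh (A ∪ B) (p.1 ∪ p.2) l) * PowerSeries.X ^ D.wt (p.1 ∪ p.2) l *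
            (D.Psi p.1 (l + 1) * D.Psi p.2 (l + 1)) := by
        rw [Psi_rec D A l, Psi_rec D B l, Finset.sum_mul_sum, Finset.sum_product]
        refine Finset.sum_congr rfl fun A' hA' => Finset.sum_congr rfl fun B' hB' => ?_
        have hA := Finset.mem_powerset.1 hA'
        have hB := Finset.mem_powerset.1 hB'
        simp only
        rw [gh_mul D A B A' B' hAB hA hB htop l,
          wt_union D A' B' (Finset.disjoint_of_subset_left hA (Finset.disjoint_of_subset_right hB hAB)) l,
          map_mul, pow_add]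
        ring
      have h3 : P l = ∑ p ∈ A.powerset ×ˢ B.powerset,
          PowerSeries.C (D.gh (A ∪ B) (p.1 ∪ p.2) l) * PowerSeries.X ^ D.wt (p.1 ∪ p.2) l *
            (D.Psi (p.1 ∪ p.2) (l + 1) - D.Psi p.1 (l + 1) * D.Psi p.2 (l + 1)) := by
        rw [hP]
        simp only
        rw [h1, h2, ← Finset.sum_sub_distrib]
        refine Finset.sum_congr rfl fun p _ => ?_
        ring
      rw [h3, add_zero, Finset.sum_eq_single (A, B)]
      · rintro ⟨A', B'⟩ hp hne
        rw [Finset.mem_product] at hp
        have hA := Finset.mem_powerset.1 hp.1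
        have hB := Finset.mem_powerset.1 hp.2
        simp only at hA hB ⊢
        have hd : Disjoint A' B' :=
          Finset.disjoint_of_subset_left hA (Finset.disjoint_of_subset_right hB hAB)
        have hlt : (A' ∪ B').card < c := by
          rw [← hc]
          apply Finset.card_lt_card
          refine Finset.ssubset_iff_subset_ne.2 ⟨Finset.union_subset_union hA hB, ?_⟩
          intro he
          apply hne
          have e1 : A' = A := by
            apply Finset.Subset.antisymm hA
            intro i hi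
            have h4 : i ∈ A' ∪ B' := he ▸ Finset.mem_union_left B hi
            rcases Finset.mem_union.1 h4 with h5 | h5
            · exact h5
            · exact absurd (hB h5) (Finset.disjoint_left.1 hAB hi)
          have e2 : B' = B := by
            apply Finset.Subset.antisymm hB
            intro i hi
            have h4 : i ∈ A' ∪ B' := he ▸ Finset.mem_union_right A hi
            rcases Finset.mem_union.1 h4 with h5 | h5
            · exact absurd hi (Finset.disjoint_left.1 hAB (hA h5))
            · exact h5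
          rw [e1, e2]
        have htop' : KK D.lam A' ⊔ KK D.lam B' = ⊤ := by
          rw [eq_top_iff, ← htop]
          exact sup_le_sup (h3_KK_anti D.lam hA) (h3_KK_anti D.lam hB)
        rw [ih _ hlt A' B' rfl hd htop' (l + 1), sub_self, mul_zero]
      · intro h
        exfalso
        apply h
        rw [Finset.mem_product]
        exact ⟨Finset.mem_powerset_self A, Finset.mem_powerset_self B⟩
    have hper : P (l + D.M) = P l := by
      rw [hP]
      simp only
      rw [Psi_add_M, Psi_add_M, Psi_add_M]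
    have h4 := cycle D.M P _ _ hstep l hper
    have h5 : ∏ i ∈ Finset.range D.M, (PowerSeries.C (D.gh (A ∪ B) (A ∪ B) (l + i)) *
        PowerSeries.X ^ D.wt (A ∪ B) (l + i) : PowerSeries MC) =
        PowerSeries.C (∏ i ∈ Finset.range D.M, D.gh (A ∪ B) (A ∪ B) (l + i)) *
          PowerSeries.X ^ D.Nn (A ∪ B) := by
      rw [Finset.prod_mul_distrib, map_prod, Finset.prod_pow_eq_pow_sum, sum_wt]
    rw [h5] at h4
    simp only [mul_zero, Finset.sum_const_zero] at h4
    have h6 := isUnit_one_sub (∏ i ∈ Finset.range D.M, D.gh (A ∪ B) (A ∪ B) (l + i)) _ hN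
    have h7 : P l = 0 := h6.mul_right_eq_zero.1 h4
    rw [hP] at h7
    exact sub_eq_zero.1 h7

end MotMono.Kum
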