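import Pool.Agent.Lib.MP_4e5fcd_ag.Kum.Z6
import Pool.Agent.Lib.MP_4e5fcd_ag.Kum.E10

/-! # KUM-Z7: the poles of the generating functions -/

open MvPolynomial

namespace MotMono.Kum

variable {N : ℕ} {J : Type} [Fintype J] [DecidableEq J] (D : Data N J)

theorem Z7_insert_mono {A R : Finset (J ⊕ Fin N)} (h : A ⊆ R) (i : J ⊕ Fin N)
    (hi : D.r (insert i A) = D.r A) : D.r (insert i R) = D.r R := by
  rw [r_insert_eq_iff] at hi ⊢
  intro v hv
  exact hi v fun i' hi' => hv i' (h hi')

theorem gh_eq_zero (R R' : Finset (J ⊕ Fin N)) (hR : D.Cl R) (hsub : R' ⊆ R)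
    (hR' : ¬ D.Cl R') (l : ℕ) : D.gh R R' l = 0 := by
  have h1 : ∃ i ∈ D.act, D.r (insert i R') = D.r R' ∧ i ∉ R' := by
    by_contra hcon
    push Not at hcon
    exact hR' ⟨hsub.trans hR.1, hcon⟩
  obtain ⟨i, hi1, hi2, hi3⟩ := h1
  have hiR : i ∈ R := hR.2 i hi1 (Z7_insert_mono D hsub i hi2)
  have h0 : D.gset R R' l = ∅ := by
    rw [Set.eq_empty_iff_forall_notMem]
    intro v hv
    have h2 := (r_insert_eq_iff D R' i).1 hi2 (D.yv R l v)
      fun i' hi' => (hv i' (hsub hi')).1 hi'
    exact hi3 ((hv i hiR).2 h2)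
  rw [Data.gh, h0, cls_empty, map_zero, zero_mul]

theorem Cl_left (R A B : Finset (J ⊕ Fin N)) (hR : D.Cl R) (hAB : A ∪ B = R)
    (h : D.r A + D.r B ≤ D.r R) : D.Cl A := by
  have hAR : A ⊆ R := hAB ▸ Finset.subset_union_left
  refine ⟨hAR.trans hR.1, fun i hi hri => ?_⟩
  have hiR : i ∈ R := hR.2 i hi (Z7_insert_mono D hAR i hri)
  rw [← hAB, Finset.mem_union] at hiR
  rcases hiR with hiA | hiB
  · exact hiA
  · exfalso
    have htop := sup_eq_top D A B (by rw [hAB]; exact h)
    rw [r_insert_eq_iff] at hri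
    apply lam_ne_zero D i
    funext j
    have hv : (Pi.single j 1 : Fin N → ℂ) ∈ KK D.lam A ⊔ KK D.lam B := by
      rw [htop]
      exact Submodule.mem_top
    obtain ⟨a, ha, b, hb, hab⟩ := Submodule.mem_sup.1 hv
    have h1 : D.lam i ⬝ᵥ a = 0 := hri a ha
    have h2 : D.lam i ⬝ᵥ b = 0 := hb i hiB
    have h3 : D.lam i ⬝ᵥ (Pi.single j 1 : Fin N → ℂ) = 0 := by
      rw [← hab, dotProduct_add, h1, h2, add_zero]
    rw [dotProduct_single, mul_one] at h3
    exact h3

theorem Z7_prod (R : Finset (J ⊕ Fin N)) (l : ℕ) :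
    ∏ i ∈ Finset.range D.M,
      (PowerSeries.C (D.gh R R (l + i)) * PowerSeries.X ^ D.wt R (l + i) : PowerSeries MC) =
      PowerSeries.C ((Lu ^ (-D.nu R) : MCˣ) : MC) * PowerSeries.X ^ D.Nn R := by
  rw [Finset.prod_mul_distrib, Finset.prod_pow_eq_pow_sum, sum_wt, ← map_prod]
  congr 2
  rw [Finset.prod_congr rfl fun i _ => gh_self D R (l + i), ← Units.coe_prod, ← sum_cod D R l,
    ← Finset.sum_neg_distrib]
  congr 1
  induction (Finset.range D.M) using Finset.induction_on with
  | empty => simp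
  | insert a s ha ih => rw [Finset.prod_insert ha, Finset.sum_insert ha, ih, zpow_add]

theorem Psi_mem (Rg : Subring (PowerSeries MC))
    (hC : ∀ c : MC, PowerSeries.C c ∈ Rg) (hX : PowerSeries.X ∈ Rg)
    (hRg : ∀ R : Finset (J ⊕ Fin N), D.Cl R → D.Conn R → 0 < D.Nn R → ∀ g : PowerSeries MC,
      g * (1 - PowerSeries.C ((Lu ^ (-D.nu R) : MCˣ) : MC) * PowerSeries.X ^ D.Nn R) = 1 →
        g ∈ Rg)
    (R : Finset (J ⊕ Fin N)) (hR : D.Cl R) (l : ℕ) : D.Psi R l ∈ Rg := by
  induction R using Finset.strongInduction generalizing l with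
  | H R ih =>
    rcases Nat.eq_zero_or_pos (D.Nn R) with h0 | hpos
    · rw [Psi_of_Nn_eq_zero D R h0]
      exact Rg.one_mem
    have hne : R.Nonempty := by
      rw [Finset.nonempty_iff_ne_empty]
      rintro rfl
      have : D.Nn ∅ = 0 := by
        rw [Nn_eq_zero_iff]
        simp
      omega
    by_cases hI : D.Conn R
    · -- connected
      obtain ⟨β, hβ⟩ : ∃ β : ℕ → PowerSeries MC, β = fun l => ∑ R' ∈ R.powerset.erase R,
        PowerSeries.C (D.gh R R' l) * PowerSeries.X ^ D.wt R' l * D.Psi R' (l + 1) := ⟨_, rfl⟩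
      have hrec : ∀ l, D.Psi R l = (PowerSeries.C (D.gh R R l) * PowerSeries.X ^ D.wt R l) *
          D.Psi R (l + 1) + β l := by
        intro l
        rw [hβ, Psi_rec D R l, ← Finset.insert_erase (Finset.mem_powerset_self R),
          Finset.sum_insert (Finset.notMem_erase _ _)]
        rw [Finset.erase_insert (Finset.notMem_erase _ _)]
      have hβR : ∀ l, β l ∈ Rg := by
        intro l
        rw [hβ]
        refine Rg.sum_mem fun R' hR' => ?_
        rw [Finset.mem_erase, Finset.mem_powerset] at hR'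
        by_cases hc : D.Cl R'
        · refine Rg.mul_mem (Rg.mul_mem (hC _) (Rg.pow_mem hX _)) (ih R' ?_ hc _)
          exact Finset.ssubset_iff_subset_ne.2 ⟨hR'.2, hR'.1⟩
        · rw [gh_eq_zero D R R' hR hR'.2 hc, map_zero, zero_mul, zero_mul]
          exact Rg.zero_mem
      have hcyc := cycle D.M (fun l => D.Psi R l)
        (fun l => PowerSeries.C (D.gh R R l) * PowerSeries.X ^ D.wt R l) β hrec l
        (Psi_add_M D R l)
      simp only at hcyc
      rw [Z7_prod D R l] at hcyc
      obtain ⟨g, hg⟩ := (isUnit_one_sub ((Lu ^ (-D.nu R) : MCˣ) : MC) (D.Nn R) hpos).exists_left_inv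
      have hgR : g ∈ Rg := hRg R hR hI hpos g hg
      have h2 : D.Psi R l = g * ∑ i ∈ Finset.range D.M, (∏ i' ∈ Finset.range i,
          (PowerSeries.C (D.gh R R (l + i')) * PowerSeries.X ^ D.wt R (l + i'))) * β (l + i) := by
        rw [← hcyc, ← mul_assoc, hg, one_mul]
      rw [h2]
      refine Rg.mul_mem hgR (Rg.sum_mem fun i _ => Rg.mul_mem (Rg.prod_mem fun i' _ =>
        Rg.mul_mem (hC _) (Rg.pow_mem hX _)) (hβR _))
    · -- disconnected
      unfold Data.Conn at hI
      push Not at hI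
      obtain ⟨A, B, hA, hB, hAB, hABR, hr⟩ := hI hne
      have htop := sup_eq_top D A B (by rw [hABR]; exact hr)
      have hAc := Cl_left D R A B hR hABR hr
      have hBc := Cl_left D R B A hR (by rw [Finset.union_comm]; exact hABR)
        (by rw [add_comm]; exact hr)
      have hcard : A.card + B.card = R.card := by
        rw [← hABR, Finset.card_union_of_disjoint hAB]
      have hApos := hA.card_pos
      have hBpos := hB.card_pos
      have hAS : A ⊂ R := by
        refine Finset.ssubset_iff_subset_ne.2 ⟨hABR ▸ Finset.subset_union_left, fun h => ?_⟩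
        rw [h] at hcard
        omega
      have hBS : B ⊂ R := by
        refine Finset.ssubset_iff_subset_ne.2 ⟨hABR ▸ Finset.subset_union_right, fun h => ?_⟩
        rw [h] at hcard
        omega
      rw [← hABR, Psi_mul D A B hAB htop]
      exact Rg.mul_mem (ih A hAS hAc l) (ih B hBS hBc l)

end MotMono.Kum
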