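import Pool.Agent.Lib.MP_4e5fcd_ag.Kum.Z7
import Pool.Agent.Lib.MP_4e5fcd_ag.Kum.S6

/-! # KUM-Z8: the poles of the motivic zeta function -/

open MvPolynomial

namespace MotMono.Kum

variable {N : ℕ} {J : Type} [Fintype J] [DecidableEq J] (D : Data N J)

/-- the ideal generated by `f` -/
noncomputable def Data.I : Ideal (MvPolynomial (Fin N) ℂ) := Ideal.span {D.f}

theorem ordLocus_eq (k : ℕ) : ordLocus D.I k = {γ | (∀ j, γ (j, 0) = (0 : Fin N → ℂ) j) ∧
    (∀ i < k, (along D.f γ).coeff i = 0) ∧ (along D.f γ).coeff k ∈ ({0}ᶜ : Set ℂ)} := by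
  ext γ
  constructor
  · rintro ⟨h1, h2, h3⟩
    have hf : D.f ∈ D.I := Ideal.mem_span_singleton_self _
    refine ⟨h1, h2 D.f hf, ?_⟩
    obtain ⟨g, hg, hne⟩ := h3
    obtain ⟨a, rfl⟩ := Ideal.mem_span_singleton'.mp hg
    obtain ⟨Q, hQ⟩ := Polynomial.X_pow_dvd_iff.mpr (h2 D.f hf)
    rw [Set.mem_compl_singleton_iff]
    intro h0
    apply hne
    have h4 : Q.coeff 0 = 0 := by
      have h5 : (along D.f γ).coeff k = (Polynomial.X ^ k * Q).coeff k := by rw [← hQ]
      rw [h0, Polynomial.coeff_X_pow_mul', if_pos le_rfl, Nat.sub_self] at h5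
      exact h5.symm
    have h6 : along (a * D.f) γ = Polynomial.X ^ k * (along a γ * Q) := by
      have h7 : along (a * D.f) γ = along a γ * along D.f γ := by
        unfold along
        rw [map_mul]
      rw [h7, hQ]
      ring
    rw [h6, Polynomial.coeff_X_pow_mul', if_pos le_rfl, Nat.sub_self, Polynomial.mul_coeff_zero,
      h4, mul_zero]
  · rintro ⟨h1, h2, h3⟩
    refine ⟨h1, ?_, ⟨D.f, Ideal.mem_span_singleton_self _, h3⟩⟩
    intro g hg l hl
    obtain ⟨a, rfl⟩ := Ideal.mem_span_singleton'.mp hg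
    obtain ⟨Q, hQ⟩ := Polynomial.X_pow_dvd_iff.mpr h2
    have h6 : along (a * D.f) γ = Polynomial.X ^ k * (along a γ * Q) := by
      have h7 : along (a * D.f) γ = along a γ * along D.f γ := by
        unfold along
        rw [map_mul]
      rw [h7, hQ]
      ring
    rw [h6, Polynomial.coeff_X_pow_mul', if_neg (by omega)]

theorem Zmot_eq (h : 0 < D.wt D.act 0) :
    Zmot D.I = PowerSeries.C ((Lu ^ (-(N : ℤ)) : MCˣ) : MC) * PowerSeries.X ^ D.wt D.act 0 *
      D.Psi D.act 1 := by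
  have hp : (0 : Fin N → ℂ) ∈ D.gset D.act D.act 0 := by
    intro i hi
    have h1 : D.yv D.act 0 0 = 0 := by
      funext j
      unfold Data.yv
      by_cases hj : Sum.inr j ∈ D.act
      · rw [if_pos hj, if_pos (dvd_zero _), Pi.zero_apply, zero_pow (D.hd j).ne']
      · rw [if_neg hj]
    rw [h1, dotProduct_zero]
    exact ⟨fun _ => rfl, fun _ => hi⟩
  ext k
  rw [mul_assoc, PowerSeries.coeff_C_mul, PowerSeries.coeff_X_pow_mul']
  have h2 : cls (ordLocus D.I k) = if D.wt D.act 0 ≤ k then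
      cls (D.oset D.act 1 k (k - D.wt D.act 0) {0}ᶜ) else 0 := by
    rw [ordLocus_eq, cls_start D D.act (Finset.Subset.refl _) 0 hp k k le_rfl {0}ᶜ (by simp)
      cv_ne_zero]
    simp only [u0_self, one_mul]
    rfl
  unfold Zmot
  rw [PowerSeries.coeff_mk, h2]
  by_cases hk : D.wt D.act 0 ≤ k
  · rw [if_pos hk, if_pos hk, coeff_Psi D D.act 1 k (k - D.wt D.act 0) (by omega)]
    rw [mul_comm ((Lu ^ (-(N : ℤ)) : MCˣ) : MC), mul_assoc, ← Units.val_mul, ← zpow_add]
    congr 3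
    ring
  · rw [if_neg hk, if_neg hk, map_zero, zero_mul, mul_zero]

theorem exists_flat_of_isPole (h : 0 < D.wt D.act 0) (s₀ : ℚ) (hs : IsPole (Zmot D.I) s₀) :
    ∃ R : Finset (J ⊕ Fin N), D.Cl R ∧ D.Conn R ∧ 0 < D.Nn R ∧
      s₀ * D.Nn R = -(D.nu R : ℚ) := by
  by_contra hcon
  push Not at hcon
  apply hs
  have hpoly : ∀ P : Polynomial MC, (P : PowerSeries MC) ∈ polarRing s₀ := fun P =>
    Subring.subset_closure (Or.inl ⟨P, rfl⟩)
  have hC : ∀ c : MC, PowerSeries.C c ∈ polarRing s₀ := by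
    intro c
    have := hpoly (Polynomial.C c)
    rwa [Polynomial.coe_C] at this
  have hX : PowerSeries.X ∈ polarRing s₀ := by
    have := hpoly Polynomial.X
    rwa [Polynomial.coe_X] at this
  have hPsi : D.Psi D.act 1 ∈ polarRing s₀ := by
    refine Psi_mem D (polarRing s₀) hC hX ?_ D.act ⟨Finset.Subset.refl _, fun i hi _ => hi⟩ 1
    intro R hR hI hN g hg
    refine Subring.subset_closure (Or.inr ⟨D.nu R, D.Nn R, hN, ?_, hg⟩)
    intro he
    apply hcon R hR hI hN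
    have hN' : (D.Nn R : ℚ) ≠ 0 := by exact_mod_cast hN.ne'
    rw [← he, div_mul_cancel₀ _ hN']
  rw [Zmot_eq D h]
  exact (polarRing s₀).mul_mem ((polarRing s₀).mul_mem (hC _) ((polarRing s₀).pow_mem hX _)) hPsi

end MotMono.Kum
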